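import Pool.Agent.KS6_49.SR.Main

/-!
Adaptive reductions, and the explicit bounds.
-/

set_option autoImplicit false

namespace Pool.Agent.KS6_49.SR

open Finset

variable {N m n q v d : ℕ} [NeZero N]

omit [NeZero N] in
theorem same {A B : Finset (Sym2 (Fin n))} {R : Reduction n q v d} {r : ℕ}
    (g g' : List Bool → Clause v d → Fin r → SimpleGraph (Fin n) → Prop)
    (hg : ∀ hist cl G, R.clause hist cl G ↔ ∃ i, g hist cl i G)
    (hg2 : ∀ hist cl i G G' H, Mix A B G G' H → g hist cl i G → g hist cl i G' → g hist cl i H)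
    (hg' : ∀ hist cl G, ¬ R.clause hist cl G ↔ ∃ i, g' hist cl i G)
    (hg2' : ∀ hist cl i G G' H, Mix A B G G' H → g' hist cl i G → g' hist cl i G' →
      g' hist cl i H)
    (dat : SimpleGraph (Fin n) → Fin q → Clause v d → Fin r ⊕ Fin r)
    (hd : ∀ G i cl j, dat G i cl = Sum.inl j → g (R.answers G i) cl j G)
    (hd' : ∀ G i cl j, dat G i cl = Sum.inr j → g' (R.answers G i) cl j G)
    {G G' H : SimpleGraph (Fin n)} (hm : Mix A B G G' H) (he : dat G = dat G') :
    ∀ i ≤ q, R.answers G i = R.answers H i ∧ R.answers G' i = R.answers H i := by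
  intro i
  induction i with
  | zero =>
    intro _
    exact ⟨rfl, rfl⟩
  | succ i ih =>
    intro hi
    obtain ⟨h1, h2⟩ := ih (by omega)
    have key : ∀ cl, (R.clause (R.answers H i) cl G ↔ R.clause (R.answers H i) cl H) ∧
        (R.clause (R.answers H i) cl G' ↔ R.clause (R.answers H i) cl H) := by
      intro cl
      have e1 : dat G' ⟨i, hi⟩ cl = dat G ⟨i, hi⟩ cl := by rw [he]
      rcases hx : dat G ⟨i, hi⟩ cl with j | j
      · rw [hx] at e1
        have h3 := hd G ⟨i, hi⟩ cl j hx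
        have h4 := hd G' ⟨i, hi⟩ cl j e1
        change g (R.answers G i) cl j G at h3
        change g (R.answers G' i) cl j G' at h4
        rw [h1] at h3
        rw [h2] at h4
        have h5 := hg2 _ cl j G G' H hm h3 h4
        have a1 := (hg _ cl G).2 ⟨j, h3⟩
        have a2 := (hg _ cl G').2 ⟨j, h4⟩
        have a3 := (hg _ cl H).2 ⟨j, h5⟩
        exact ⟨iff_of_true a1 a3, iff_of_true a2 a3⟩
      · rw [hx] at e1
        have h3 := hd' G ⟨i, hi⟩ cl j hx
        have h4 := hd' G' ⟨i, hi⟩ cl j e1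
        change g' (R.answers G i) cl j G at h3
        change g' (R.answers G' i) cl j G' at h4
        rw [h1] at h3
        rw [h2] at h4
        have h5 := hg2' _ cl j G G' H hm h3 h4
        have a1 := (hg' _ cl G).2 ⟨j, h3⟩
        have a2 := (hg' _ cl G').2 ⟨j, h4⟩
        have a3 := (hg' _ cl H).2 ⟨j, h5⟩
        exact ⟨iff_of_false a1 a3, iff_of_false a2 a3⟩
    have f1 : (fun cl => R.clause (R.answers H i) cl G) =
        fun cl => R.clause (R.answers H i) cl H := by
      funext cl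
      exact propext (key cl).1
    have f2 : (fun cl => R.clause (R.answers H i) cl G') =
        fun cl => R.clause (R.answers H i) cl H := by
      funext cl
      exact propext (key cl).2
    constructor
    · rw [Reduction.answers, Reduction.answers, h1, f1]
    · rw [Reduction.answers, Reduction.answers, h2, f2]

/-- **Adaptive reductions.** -/
theorem adaptive (h : 4 * N + m ≤ n) (os ps : List (List (Sym2 (Fin n))))
    (hos : ∀ l ∈ os, l.Nodup) (hps : ∀ l ∈ ps, l ∈ os)
    {w μ : ℕ} {Ω : Type} [Finite Ω] [Nonempty Ω] (R : Ω → Reduction n q v d)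
    (hR : OneSided (m + 4) μ fun ω => (R ω).Accepts)
    (hr : ∀ ω hist cl, Recognised ps.flatten w ((R ω).clause hist cl))
    (hr' : ∀ ω hist cl, Recognised ps.flatten w fun G => ¬ (R ω).clause hist cl G) :
    ∃ M : ℕ, N * N ≤ 4 ^ os.length * M ∧
      2 ^ M ≤ 2 ^ μ * (2 * w ^ (2 * ps.length + 2)) ^ (q * (2 * v + 1) ^ d) := by
  classical
  obtain ⟨A, B, segs, I, σ, hs1, hs2, hs3, hI, hmix⟩ := structure_ (N := N) h os ps hos hps
  refine ⟨I.card, hI, ?_⟩
  set r := w ^ (2 * ps.length + 2) with hrdef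
  have hcov : ∀ ω hist cl, Cover A B r ((R ω).clause hist cl) := by
    intro ω hist cl
    have h1 := hr ω hist cl
    rw [← hs1] at h1
    have h2 := recognised_cover hs3 h1
    rwa [hs2] at h2
  have hcov' : ∀ ω hist cl, Cover A B r fun G => ¬ (R ω).clause hist cl G := by
    intro ω hist cl
    have h1 := hr' ω hist cl
    rw [← hs1] at h1
    have h2 := recognised_cover hs3 h1
    rwa [hs2] at h2
  choose g hg1 hg2 using hcov
  choose g' hg1' hg2' using hcov'
  have hno : ∀ U : Finset (ZMod N × ZMod N), ¬ HasClique (m + 4) (big (m := m) h σ U (U ∪ Iᶜ)) := by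
    intro U
    rw [big_clique, not_not]
    exact subset_union_left
  have key := count (D := Fin q → Clause v d → Fin r ⊕ Fin r) I μ
    (fun ω U => ¬ (R ω).Accepts (big (m := m) h σ U (U ∪ Iᶜ)))
    (fun U _ => hR.2 _ (hno U)) (by
      intro ω
      have hex : ∀ (G : SimpleGraph (Fin n)) (i : Fin q) (cl : Clause v d),
          ∃ x : Fin r ⊕ Fin r, (∀ j, x = Sum.inl j → g ω ((R ω).answers G i) cl j G) ∧
            ∀ j, x = Sum.inr j → g' ω ((R ω).answers G i) cl j G := by
        intro G i cl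
        by_cases hc : (R ω).clause ((R ω).answers G i) cl G
        · obtain ⟨j, hj⟩ := (hg1 _ _ _ _).1 hc
          refine ⟨Sum.inl j, fun j' hj' => ?_, fun j' hj' => ?_⟩
          · rw [Sum.inl.injEq] at hj'
            rwa [← hj']
          · exact absurd hj' (by simp)
        · obtain ⟨j, hj⟩ := (hg1' _ _ _ _).1 hc
          refine ⟨Sum.inr j, fun j' hj' => ?_, fun j' hj' => ?_⟩
          · exact absurd hj' (by simp)
          · rw [Sum.inr.injEq] at hj'
            rwa [← hj']
      choose dat hd hd' using hex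
      refine ⟨fun U => dat (big (m := m) h σ U (U ∪ Iᶜ)), ?_⟩
      intro U hU U' hU' hQ hQ' hD
      have hsame := fun (G G' H : SimpleGraph (Fin n)) (hm : Mix A B G G' H)
          (he : dat G = dat G') =>
        (same (q := q) (g ω) (g' ω) (hg1 ω) (hg2 ω) (hg1' ω) (hg2' ω) dat hd hd' hm he q le_rfl).1
      have hall : ∀ G G' H : SimpleGraph (Fin n), Mix A B G G' H → dat G = dat G' →
          ¬ (R ω).Accepts G → ¬ HasClique (m + 4) H := by
        intro G G' H hm he hG hcl
        apply hG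
        have h3 := hR.1 H hcl ω
        unfold Reduction.Accepts at h3 ⊢
        rwa [hsame G G' H hm he]
      apply mixed hU hU'
      · by_contra hn
        exact hall _ _ _ (hmix U hU U' hU') hD hQ ((big_clique h σ _ _).2 hn)
      · by_contra hn
        exact hall _ _ _ (hmix U' hU' U hU) hD.symm hQ' ((big_clique h σ _ _).2 hn))
  rw [Fintype.card_fun, Fintype.card_fun, Fintype.card_sum, Fintype.card_fin, Fintype.card_fin,
    card_clause, ← pow_mul, ← two_mul, mul_comm _ q] at key
  exact key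

omit [NeZero N] in
theorem adaptive_bound {k : ℕ} (hk : 4 ≤ k) (h : 4 * N + (k - 4) ≤ n)
    (os ps : List (List (Sym2 (Fin n)))) (hos : ∀ l ∈ os, l.Nodup) (hps : ∀ l ∈ ps, l ∈ os)
    {s μ : ℕ} {Ω : Type} [Finite Ω] [Nonempty Ω] (R : Ω → Reduction n q v d)
    (hR : OneSided k μ fun ω => (R ω).Accepts)
    (hr : ∀ ω hist cl, Recognised ps.flatten (2 ^ s) ((R ω).clause hist cl))
    (hr' : ∀ ω hist cl, Recognised ps.flatten (2 ^ s) fun G => ¬ (R ω).clause hist cl G) :
    N ^ 2 ≤ 4 ^ os.length * (μ + q * (2 * v + 1) ^ d * ((2 * ps.length + 2) * s + 1)) := by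
  rcases Nat.eq_zero_or_pos N with h0 | h0
  · rw [h0]
    simp
  · have : NeZero N := ⟨h0.ne'⟩
    obtain ⟨m, rfl⟩ : ∃ m, k = m + 4 := ⟨k - 4, by omega⟩
    obtain ⟨M, h1, h2⟩ := adaptive (N := N) (m := m) (by omega) os ps hos hps R hR hr hr'
    rw [sq]
    refine h1.trans (Nat.mul_le_mul_left _ ?_)
    rw [← pow_mul, ← pow_succ', ← pow_mul, ← pow_add] at h2
    have h3 := (Nat.pow_le_pow_iff_right (by norm_num)).1 h2
    refine h3.trans (le_of_eq ?_)
    ring

omit [NeZero N] in
theorem manyone_bound {k : ℕ} (hk : 4 ≤ k) (h : 4 * N + (k - 4) ≤ n)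
    (os ps : List (List (Sym2 (Fin n)))) (hos : ∀ l ∈ os, l.Nodup) (hps : ∀ l ∈ ps, l ∈ os)
    {s μ : ℕ} {Ω : Type} [Finite Ω] [Nonempty Ω]
    (F : Ω → Clause v d → SimpleGraph (Fin n) → Prop)
    (hF : OneSided k μ fun ω G => Sat fun cl => F ω cl G)
    (hr : ∀ ω cl, Recognised ps.flatten (2 ^ s) (F ω cl)) :
    N ^ 2 ≤ 4 ^ os.length * (μ + (2 * v + 1) ^ d * ((2 * ps.length + 2) * s + 1)) := by
  rcases Nat.eq_zero_or_pos N with h0 | h0
  · rw [h0]
    simp
  · have : NeZero N := ⟨h0.ne'⟩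
    obtain ⟨m, rfl⟩ : ∃ m, k = m + 4 := ⟨k - 4, by omega⟩
    obtain ⟨M, h1, h2⟩ := manyone (N := N) (m := m) (by omega) os ps hos hps F hF hr
    rw [sq]
    refine h1.trans (Nat.mul_le_mul_left _ ?_)
    have h4 : (2 ^ s) ^ (2 * ps.length + 2) + 1 ≤ 2 ^ (s * (2 * ps.length + 2) + 1) := by
      rw [← pow_mul, pow_succ]
      have := Nat.one_le_two_pow (n := s * (2 * ps.length + 2))
      omega
    have h5 : 2 ^ M ≤ 2 ^ (μ + (s * (2 * ps.length + 2) + 1) * (2 * v + 1) ^ d) := by
      rw [pow_add, pow_mul]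
      exact h2.trans (Nat.mul_le_mul_left _ (Nat.pow_le_pow_left h4 _))
    have h3 := (Nat.pow_le_pow_iff_right (by norm_num)).1 h5
    refine h3.trans (le_of_eq ?_)
    ring

end Pool.Agent.KS6_49.SR
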