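import Mathlib

/-!
From the explicit to the asymptotic form.
-/

set_option autoImplicit false

namespace Pool.Agent.KS6_49.SR

open Finset Filter

theorem log_bound (C ε : ℝ) (hC : 0 ≤ C) (hε : 0 < ε) (d : ℕ) :
    ∀ᶠ n : ℕ in atTop, (C * Real.log n) ^ d ≤ (n : ℝ) ^ ε / 1024 := by
  have h1 := isLittleO_log_rpow_rpow_atTop (s := ε) (d : ℝ) hε
  have hc : 0 < 1 / (1024 * (C ^ d + 1)) := by positivity
  have h2 := (h1.bound hc)
  have h3 := tendsto_natCast_atTop_atTop (R := ℝ) |>.eventually h2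
  filter_upwards [h3, eventually_ge_atTop 1] with n hn hn1
  have hn1' : (1 : ℝ) ≤ n := by exact_mod_cast hn1
  have hlog : 0 ≤ Real.log n := Real.log_nonneg hn1'
  rw [Real.rpow_natCast, Real.norm_of_nonneg (by positivity), Real.norm_of_nonneg (by positivity)]
    at hn
  calc (C * Real.log n) ^ d = C ^ d * Real.log n ^ d := mul_pow _ _ _
    _ ≤ C ^ d * (1 / (1024 * (C ^ d + 1)) * (n : ℝ) ^ ε) := by gcongr
    _ = (C ^ d / (C ^ d + 1)) * ((n : ℝ) ^ ε / 1024) := by field_simp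
    _ ≤ 1 * ((n : ℝ) ^ ε / 1024) := by
        gcongr
        rw [div_le_one (by positivity)]
        linarith
    _ = _ := one_mul _

theorem asym (f g : ℕ → ℕ) (c d k : ℕ) (ε : ℝ) (hε : 0 < ε) :
    ∃ n0 : ℕ, ∀ n ≥ n0, 4 * (n / 8) + (k - 4) ≤ n ∧
      ∀ v : ℕ, (v : ℝ) ≤ g k * (Real.logb 2 (f k * (n : ℝ) ^ c) + 1) → ∀ q r p s μ : ℕ,
        (n / 8) ^ 2 ≤ 4 ^ r * (μ + q * (2 * v + 1) ^ d * ((2 * p + 2) * s + 1)) →
        (n : ℝ) ^ (2 - ε) ≤ 4 ^ r * (μ + q * ((p + 1) * s + 1)) := by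
  set B : ℝ := |Real.logb 2 (f k)| with hB
  set C : ℝ := 2 * g k * (B + c / Real.log 2 + 1) + 1 with hC
  have hl2 : 0 < Real.log 2 := Real.log_pos (by norm_num)
  have hB0 : 0 ≤ B := abs_nonneg _
  have hC0 : 0 ≤ C := by positivity
  obtain ⟨n1, hn1⟩ := eventually_atTop.1 (log_bound C ε hC0 hε d)
  refine ⟨max n1 (max 16 (2 * k)), ?_⟩
  intro n hn
  have hn1' : n1 ≤ n := le_trans (le_max_left _ _) hn
  have hn8 : 16 ≤ n := le_trans (le_trans (le_max_left _ _) (le_max_right _ _)) hn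
  have hn4 : 2 * k ≤ n := le_trans (le_trans (le_max_right _ _) (le_max_right _ _)) hn
  refine ⟨by omega, ?_⟩
  intro v hv q r p s μ h1
  have hnR : (16 : ℝ) ≤ n := by exact_mod_cast hn8
  have hn0 : (0 : ℝ) < n := by linarith
  have hNR : (n : ℝ) / 16 ≤ ((n / 8 : ℕ) : ℝ) := by
    have h2 : n ≤ 16 * (n / 8) := by omega
    have h3 : (n : ℝ) ≤ 16 * ((n / 8 : ℕ) : ℝ) := by exact_mod_cast h2
    linarith
  have hlog1 : 1 ≤ Real.log n := by
    rw [Real.le_log_iff_exp_le hn0]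
    have := Real.exp_one_lt_d9
    linarith
  have hlogb : Real.logb 2 (f k * (n : ℝ) ^ c) ≤ (B + c / Real.log 2) * Real.log n := by
    rcases Nat.eq_zero_or_pos (f k) with h0 | h0
    · rw [h0]
      simp only [Nat.cast_zero, zero_mul, Real.logb_zero]
      positivity
    · have hf0 : ((f k : ℕ) : ℝ) ≠ 0 := by
        exact_mod_cast h0.ne'
      rw [Real.logb_mul hf0 (by positivity), Real.logb_pow]
      have h2 : Real.logb 2 (f k) ≤ B := le_abs_self _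
      have h3 : Real.logb 2 (n : ℝ) = Real.log n / Real.log 2 := rfl
      rw [h3]
      have h4 : B ≤ B * Real.log n := by nlinarith
      have h5 : (c : ℝ) * (Real.log n / Real.log 2) = c / Real.log 2 * Real.log n := by ring
      rw [h5]
      nlinarith
  have hv2 : 2 * (v : ℝ) + 1 ≤ C * Real.log n := by
    have h2 : (v : ℝ) ≤ g k * ((B + c / Real.log 2 + 1) * Real.log n) := by
      refine hv.trans ?_
      gcongr
      linarith
    calc 2 * (v : ℝ) + 1 ≤ 2 * (g k * ((B + c / Real.log 2 + 1) * Real.log n)) + Real.log n := by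
          linarith
      _ = C * Real.log n := by
          rw [hC]
          ring
  have hvd : (2 * (v : ℝ) + 1) ^ d ≤ (n : ℝ) ^ ε / 1024 := by
    refine le_trans ?_ (hn1 n hn1')
    gcongr
  have hone : (1 : ℝ) ≤ (n : ℝ) ^ ε / 1024 := by
    refine le_trans ?_ hvd
    apply one_le_pow₀
    have : (0 : ℝ) ≤ v := Nat.cast_nonneg v
    linarith
  have h6 : ((n / 8 : ℕ) : ℝ) ^ 2 ≤
      4 ^ r * (μ + q * (2 * (v : ℝ) + 1) ^ d * ((2 * p + 2) * s + 1)) := by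
    exact_mod_cast h1
  have hs0 : (0 : ℝ) ≤ ((2 * p + 2) * s + 1) := by positivity
  have h9 : (n : ℝ) ^ 2 / 256 ≤
      4 ^ r * (((n : ℝ) ^ ε / 1024) * (2 * (μ + q * ((p + 1) * s + 1)))) := by
    calc (n : ℝ) ^ 2 / 256 = (n / 16) ^ 2 := by ring
      _ ≤ ((n / 8 : ℕ) : ℝ) ^ 2 := by gcongr
      _ ≤ 4 ^ r * (μ + q * (2 * (v : ℝ) + 1) ^ d * ((2 * p + 2) * s + 1)) := h6
      _ ≤ 4 ^ r * (((n : ℝ) ^ ε / 1024) * μ + q * ((n : ℝ) ^ ε / 1024) * ((2 * p + 2) * s + 1)) := by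
          gcongr
          have : (0 : ℝ) ≤ μ := Nat.cast_nonneg μ
          nlinarith
      _ = 4 ^ r * (((n : ℝ) ^ ε / 1024) * (μ + q * ((2 * p + 2) * s + 1))) := by ring
      _ ≤ _ := by
          gcongr
          have h10 : (0 : ℝ) ≤ μ := Nat.cast_nonneg μ
          have h11 : (0 : ℝ) ≤ q := Nat.cast_nonneg q
          nlinarith
  have hne : 0 < (n : ℝ) ^ ε := by positivity
  rw [Real.rpow_sub hn0, div_le_iff₀ hne]
  have h10 : (n : ℝ) ^ (2 : ℝ) = (n : ℝ) ^ 2 := Real.rpow_two _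
  rw [h10]
  have h11 : (0 : ℝ) ≤ 4 ^ r * ((n : ℝ) ^ ε * (μ + q * ((p + 1) * s + 1))) := by positivity
  nlinarith

end Pool.Agent.KS6_49.SR
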