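import Pool.Agent.KS6_49.SR.Two3

/-!
Oblivious branching programs: from the explicit to the asymptotic form.
-/

set_option autoImplicit false

namespace Pool.Agent.KS6_49.SR

open Finset Filter

theorem four_pow_le (x : ℕ) : (4 : ℝ) ^ x ≤ Real.exp (7 / 5 * x) := by
  have h1 : (4 : ℝ) ≤ Real.exp (7 / 5) := by
    have h2 : (4 : ℝ) ^ 5 ≤ Real.exp (7 / 5) ^ 5 := by
      rw [← Real.exp_nat_mul]
      have h3 : ((5 : ℕ) : ℝ) * (7 / 5) = ((7 : ℕ) : ℝ) * 1 := by norm_num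
      rw [h3, Real.exp_nat_mul]
      have h4 := Real.exp_one_gt_d9
      calc (4 : ℝ) ^ 5 ≤ 2.7182818283 ^ 7 := by norm_num
        _ ≤ Real.exp 1 ^ 7 := by gcongr
    exact le_of_pow_le_pow_left₀ (by norm_num) (Real.exp_pos _).le h2
  calc (4 : ℝ) ^ x ≤ Real.exp (7 / 5) ^ x := pow_le_pow_left₀ (by norm_num) h1 x
    _ = _ := by
      rw [← Real.exp_nat_mul]
      congr 1
      ring

theorem exp_seven : Real.exp 7 ≤ 1100 := by
  have h3 : (7 : ℝ) = ((7 : ℕ) : ℝ) * 1 := by norm_num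
  rw [h3, Real.exp_nat_mul]
  have h4 := Real.exp_one_lt_d9
  calc Real.exp 1 ^ 7 ≤ 2.7182818286 ^ 7 := by gcongr
    _ ≤ 1100 := by norm_num

theorem asym3 (f g : ℕ → ℕ) (c d k : ℕ) (ε : ℝ) (hε : 0 < ε) :
    ∃ δ : ℝ, 0 < δ ∧ ∃ n0 : ℕ, ∀ n ≥ n0, 4 * (n / 8) + (k - 4) ≤ n ∧
      ∀ L : ℕ, (L : ℝ) ≤ δ * (n : ℝ) ^ 2 * Real.log n → ∃ τ : ℕ, L ≤ τ * (n / 8) ^ 2 ∧
        ∀ v : ℕ, (v : ℝ) ≤ g k * (Real.logb 2 (f k * (n : ℝ) ^ c) + 1) → ∀ X : ℝ, 0 ≤ X →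
          ((n / 8 : ℕ) : ℝ) ^ 2 ≤
            4 ^ (4 * τ + 1) * (40000 * ((4 * τ + 1) * ((2 * v + 1) ^ d * X))) →
          (n : ℝ) ^ (2 - ε) ≤ X := by
  set B : ℝ := |Real.logb 2 (f k)| with hB
  set C : ℝ := 2 * g k * (B + c / Real.log 2 + 1) + 1 with hC
  set δ : ℝ := ε / 8000 with hδ
  set C' : ℝ := 1024 * δ + 5 + C with hC'
  have hδ0 : 0 < δ := by positivity
  have hl2 : 0 < Real.log 2 := Real.log_pos (by norm_num)
  have hB0 : 0 ≤ B := abs_nonneg _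
  have hC0 : 0 ≤ C := by positivity
  have hC'0 : 0 ≤ C' := by positivity
  obtain ⟨n1, hn1⟩ := eventually_atTop.1 (log_bound2 C' (ε / 4) hC'0 (by positivity) (d + 1))
  refine ⟨δ, hδ0, max n1 (max 16 (2 * k)), ?_⟩
  intro n hn
  have hn1' : n1 ≤ n := le_trans (le_max_left _ _) hn
  have hn8 : 16 ≤ n := le_trans (le_trans (le_max_left _ _) (le_max_right _ _)) hn
  have hn4 : 2 * k ≤ n := le_trans (le_trans (le_max_right _ _) (le_max_right _ _)) hn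
  refine ⟨by omega, ?_⟩
  intro L hL
  have hnR : (16 : ℝ) ≤ n := by exact_mod_cast hn8
  have hn0 : (0 : ℝ) < n := by linarith
  have hNR : (n : ℝ) / 16 ≤ ((n / 8 : ℕ) : ℝ) := by
    have h2 : n ≤ 16 * (n / 8) := by omega
    have h3 : (n : ℝ) ≤ 16 * ((n / 8 : ℕ) : ℝ) := by exact_mod_cast h2
    linarith
  have hN2 : (n : ℝ) ^ 2 / 256 ≤ ((n / 8 : ℕ) : ℝ) ^ 2 := by
    calc (n : ℝ) ^ 2 / 256 = (n / 16) ^ 2 := by ring
      _ ≤ ((n / 8 : ℕ) : ℝ) ^ 2 := by gcongr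
  have hlog1 : 1 ≤ Real.log n := by
    rw [Real.le_log_iff_exp_le hn0]
    have := Real.exp_one_lt_d9
    linarith
  have hlogb : Real.logb 2 (f k * (n : ℝ) ^ c) ≤ (B + c / Real.log 2) * Real.log n := by
    rcases Nat.eq_zero_or_pos (f k) with h0 | h0
    · rw [h0]
      simp only [Nat.cast_zero, zero_mul, Real.logb_zero]
      positivity
    · have hf0 : ((f k : ℕ) : ℝ) ≠ 0 := by
        exact_mod_cast h0.ne'
      rw [Real.logb_mul hf0 (by positivity), Real.logb_pow]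
      have h2 : Real.logb 2 (f k) ≤ B := le_abs_self _
      have h3 : Real.logb 2 (n : ℝ) = Real.log n / Real.log 2 := rfl
      rw [h3]
      have h4 : B ≤ B * Real.log n := by nlinarith
      have h5 : (c : ℝ) * (Real.log n / Real.log 2) = c / Real.log 2 * Real.log n := by ring
      rw [h5]
      nlinarith
  set τ : ℕ := ⌈256 * δ * Real.log n⌉₊ with hτ
  have hτ1 : 256 * δ * Real.log n ≤ τ := Nat.le_ceil _
  have hτ2 : (τ : ℝ) ≤ 256 * δ * Real.log n + 1 := by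
    have h := Nat.ceil_lt_add_one (a := 256 * δ * Real.log n) (by positivity)
    exact h.le
  refine ⟨τ, ?_, ?_⟩
  · have h1 : (L : ℝ) ≤ ((τ * (n / 8) ^ 2 : ℕ) : ℝ) := by
      push_cast
      calc (L : ℝ) ≤ δ * (n : ℝ) ^ 2 * Real.log n := hL
        _ = (256 * δ * Real.log n) * ((n : ℝ) ^ 2 / 256) := by ring
        _ ≤ τ * ((n / 8 : ℕ) : ℝ) ^ 2 := by gcongr
    exact_mod_cast h1
  intro v hv X hX h1
  have hv2 : 2 * (v : ℝ) + 1 ≤ C * Real.log n := by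
    have h2 : (v : ℝ) ≤ g k * ((B + c / Real.log 2 + 1) * Real.log n) := by
      refine hv.trans ?_
      gcongr
      linarith
    calc 2 * (v : ℝ) + 1 ≤ 2 * (g k * ((B + c / Real.log 2 + 1) * Real.log n)) + Real.log n := by
          linarith
      _ = C * Real.log n := by
          rw [hC]
          ring
  have hlog0 : 0 ≤ Real.log n := by linarith
  have hv3 : 2 * (v : ℝ) + 1 ≤ C' * Real.log n := by
    refine hv2.trans ?_
    gcongr
    rw [hC']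
    linarith
  have hτ3 : 4 * (τ : ℝ) + 1 ≤ C' * Real.log n := by
    rw [hC']
    nlinarith
  have hprod : (4 * (τ : ℝ) + 1) * (2 * (v : ℝ) + 1) ^ d ≤ (n : ℝ) ^ (ε / 4) / 16777216 := by
    refine le_trans ?_ (hn1 n hn1')
    rw [pow_succ']
    gcongr
  have hbig : (16777216 : ℝ) ≤ (n : ℝ) ^ (ε / 4) := by
    have h2 : (1 : ℝ) ≤ (4 * (τ : ℝ) + 1) * (2 * (v : ℝ) + 1) ^ d := by
      have h3 : (0 : ℝ) ≤ τ := Nat.cast_nonneg _
      have h4 : (0 : ℝ) ≤ v := Nat.cast_nonneg _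
      have h5 : (1 : ℝ) ≤ (2 * (v : ℝ) + 1) ^ d := one_le_pow₀ (by linarith)
      nlinarith
    have h3 := h2.trans hprod
    rw [le_div_iff₀ (by norm_num)] at h3
    linarith
  have h4τ : (4 : ℝ) ^ (4 * τ + 1) ≤ 1100 * (n : ℝ) ^ (ε / 4) := by
    calc (4 : ℝ) ^ (4 * τ + 1) ≤ Real.exp (7 / 5 * ((4 * τ + 1 : ℕ) : ℝ)) := four_pow_le _
      _ ≤ Real.exp (7 + Real.log n * (ε / 4)) := by
          apply Real.exp_le_exp.2
          push_cast
          rw [hδ] at hτ2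
          nlinarith
      _ = Real.exp 7 * (n : ℝ) ^ (ε / 4) := by
          rw [Real.exp_add, Real.rpow_def_of_pos hn0]
      _ ≤ _ := by
          gcongr
          exact exp_seven
  have hE0 : (0 : ℝ) < (n : ℝ) ^ (ε / 4) := by positivity
  have h9 : (n : ℝ) ^ 2 / 256 ≤ 1100 * (n : ℝ) ^ (ε / 4) *
      (40000 * (((n : ℝ) ^ (ε / 4) / 16777216) * X)) := by
    calc (n : ℝ) ^ 2 / 256 ≤ ((n / 8 : ℕ) : ℝ) ^ 2 := hN2
      _ ≤ 4 ^ (4 * τ + 1) * (40000 * ((4 * τ + 1) * ((2 * v + 1) ^ d * X))) := h1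
      _ = 4 ^ (4 * τ + 1) * (40000 * (((4 * (τ : ℝ) + 1) * (2 * (v : ℝ) + 1) ^ d) * X)) := by ring
      _ ≤ _ := by gcongr
  have h10 : (n : ℝ) ^ 2 ≤ (n : ℝ) ^ ε * X := by
    have h11 : (n : ℝ) ^ ε = (n : ℝ) ^ (ε / 4) * (n : ℝ) ^ (ε / 4) *
        ((n : ℝ) ^ (ε / 4) * (n : ℝ) ^ (ε / 4)) := by
      rw [← Real.rpow_add hn0, ← Real.rpow_add hn0]
      congr 1
      ring
    rw [h11]
    set E : ℝ := (n : ℝ) ^ (ε / 4) with hE
    have h12 : (n : ℝ) ^ 2 ≤ 672 * (E * E * X) := by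
      have hz : (0 : ℝ) ≤ E * E * X := by positivity
      have he : 1100 * E * (40000 * ((E / 16777216) * X)) =
          (44000000 / 16777216) * (E * E * X) := by ring
      rw [he] at h9
      linarith
    have h13 : (672 : ℝ) ≤ E * E := by
      calc (672 : ℝ) ≤ 16777216 * 16777216 := by norm_num
        _ ≤ E * E := mul_le_mul hbig hbig (by norm_num) hE0.le
    calc (n : ℝ) ^ 2 ≤ 672 * (E * E * X) := h12
      _ ≤ (E * E) * (E * E * X) := by gcongr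
      _ = _ := by ring
  rw [Real.rpow_sub hn0, div_le_iff₀ (by positivity), Real.rpow_two]
  linarith

end Pool.Agent.KS6_49.SR
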