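import Pool.Agent.KS6_49.SR.Defs

/-!
Cutting sequences of passes, and covers by rectangles.
-/

set_option autoImplicit false

namespace Pool.Agent.KS6_49.SR

open Finset

section Cut

variable {α : Type} [DecidableEq α]

/-- the list avoids the set -/
def Avoids (l : List α) (A : Finset α) : Prop := ∀ e ∈ l, e ∉ A

omit [DecidableEq α] in
theorem Avoids.mono {l : List α} {A A' : Finset α} (h : Avoids l A) (hA : A' ⊆ A) : Avoids l A' :=
  fun e he h' => h e he (hA h')

/-- one pass -/
theorem cut (l : List α) (hl : l.Nodup) (A B : Finset α) (hAB : Disjoint A B) :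
    ∃ A' B' : Finset α, A' ⊆ A ∧ B' ⊆ B ∧ A.card ≤ 2 * A'.card ∧ B.card ≤ 2 * B'.card ∧
      ∃ l₁ l₂ : List α, l = l₁ ++ l₂ ∧
        ((Avoids l₁ B' ∧ Avoids l₂ A') ∨ (Avoids l₁ A' ∧ Avoids l₂ B')) := by
  classical
  set a : ℕ → ℕ := fun t => (A.filter fun e => e ∈ l.take t).card with ha
  set b : ℕ → ℕ := fun t => (B.filter fun e => e ∈ l.take t).card with hb
  have hcomp : ∀ (X : Finset α) (t : ℕ), (X.filter fun e => e ∈ l.take t).card +
      (X.filter fun e => ¬ e ∈ l.take t).card = X.card := fun X t =>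
    card_filter_add_card_filter_not _
  have hdisj : ∀ (X : Finset α) (t : ℕ), Avoids (l.drop t) (X.filter fun e => e ∈ l.take t) := by
    intro X t e he h
    exact List.disjoint_take_drop hl le_rfl (mem_filter.1 h).2 he
  have hdisj' : ∀ (X : Finset α) (t : ℕ), Avoids (l.take t) (X.filter fun e => ¬ e ∈ l.take t) := by
    intro X t e he h
    exact (mem_filter.1 h).2 he
  have hstep : ∀ t, a (t + 1) = a t ∨ b (t + 1) = b t := by
    intro t
    rcases h : l[t]? with _ | e
    · left
      simp only [ha, List.take_add_one, h, Option.toList_none, List.append_nil]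
    · by_cases heA : e ∈ A
      · right
        have heB : e ∉ B := fun h' => (disjoint_left.1 hAB) heA h'
        simp only [hb, List.take_add_one, h, Option.toList_some]
        congr 1
        apply filter_congr
        intro x hx
        rw [List.mem_append, List.mem_singleton]
        constructor
        · rintro (h' | rfl)
          · exact h'
          · exact absurd hx heB
        · exact Or.inl
      · left
        simp only [ha, List.take_add_one, h, Option.toList_some]
        congr 1
        apply filter_congr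
        intro x hx
        rw [List.mem_append, List.mem_singleton]
        constructor
        · rintro (h' | rfl)
          · exact h'
          · exact absurd hx heA
        · exact Or.inl
  by_cases hex : ∃ t, A.card ≤ 2 * a t ∨ B.card ≤ 2 * b t
  · have hmin : ∀ t, t < Nat.find hex → 2 * a t < A.card ∧ 2 * b t < B.card := by
      intro t ht
      have := Nat.find_min hex ht
      push Not at this
      exact this
    set t := Nat.find hex with ht
    have hspec : A.card ≤ 2 * a t ∨ B.card ≤ 2 * b t := Nat.find_spec hex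
    -- one of the two is large and the other one is small
    have hkey : (A.card ≤ 2 * a t ∧ 2 * b t ≤ B.card) ∨ (B.card ≤ 2 * b t ∧ 2 * a t ≤ A.card) := by
      rcases Nat.eq_zero_or_pos t with h0 | h0
      · have ha0 : a t = 0 := by
          rw [h0]
          simp [ha]
        have hb0 : b t = 0 := by
          rw [h0]
          simp [hb]
        rcases hspec with h | h
        · left
          exact ⟨h, by omega⟩
        · right
          exact ⟨h, by omega⟩
      · obtain ⟨u, hu⟩ : ∃ u, t = u + 1 := ⟨t - 1, by omega⟩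
        have h1 := hmin u (by omega)
        rcases hstep u with h2 | h2
        · rw [← hu] at h2
          rcases hspec with h | h
          · omega
          · right
            exact ⟨h, by omega⟩
        · rw [← hu] at h2
          rcases hspec with h | h
          · left
            exact ⟨h, by omega⟩
          · omega
    rcases hkey with ⟨h1, h2⟩ | ⟨h1, h2⟩
    · refine ⟨A.filter fun e => e ∈ l.take t, B.filter fun e => ¬ e ∈ l.take t, filter_subset _ _,
        filter_subset _ _, h1, ?_, l.take t, l.drop t, (List.take_append_drop t l).symm,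
        Or.inl ⟨hdisj' B t, hdisj A t⟩⟩
      have h3 := hcomp B t
      have h4 : b t = (B.filter fun e => e ∈ l.take t).card := rfl
      omega
    · refine ⟨A.filter fun e => ¬ e ∈ l.take t, B.filter fun e => e ∈ l.take t, filter_subset _ _,
        filter_subset _ _, ?_, h1, l.take t, l.drop t, (List.take_append_drop t l).symm,
        Or.inr ⟨hdisj' A t, hdisj B t⟩⟩
      have h3 := hcomp A t
      have h4 : a t = (A.filter fun e => e ∈ l.take t).card := rfl
      omega
  · push Not at hex
    have h1 := (hex l.length).1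
    refine ⟨A.filter fun e => ¬ e ∈ l.take l.length, B, filter_subset _ _, Subset.refl _, ?_,
      by omega, l, [], (List.append_nil l).symm, Or.inr ⟨?_, ?_⟩⟩
    · have h3 := hcomp A l.length
      have h4 : a l.length = (A.filter fun e => e ∈ l.take l.length).card := rfl
      omega
    · have := hdisj' A l.length
      rwa [List.take_length] at this ⊢
    · intro e he
      simp at he

/-- the list is divided into two parts, each of which avoids one of the sets -/
def Divided (A B : Finset α) (l : List α) : Prop :=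
  ∃ l₁ l₂ : List α, l = l₁ ++ l₂ ∧
    ((Avoids l₁ B ∧ Avoids l₂ A) ∨ (Avoids l₁ A ∧ Avoids l₂ B))

omit [DecidableEq α] in
theorem Divided.mono {A A' B B' : Finset α} {l : List α} (h : Divided A B l) (hA : A' ⊆ A)
    (hB : B' ⊆ B) : Divided A' B' l := by
  obtain ⟨l₁, l₂, h1, h2⟩ := h
  refine ⟨l₁, l₂, h1, ?_⟩
  rcases h2 with h | h
  · exact Or.inl ⟨h.1.mono hB, h.2.mono hA⟩
  · exact Or.inr ⟨h.1.mono hA, h.2.mono hB⟩

/-- all orders -/
theorem cuts (os : List (List α)) : (∀ l ∈ os, l.Nodup) → ∀ A B : Finset α, Disjoint A B →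
    ∃ A' B' : Finset α, A' ⊆ A ∧ B' ⊆ B ∧ A.card ≤ 2 ^ os.length * A'.card ∧
      B.card ≤ 2 ^ os.length * B'.card ∧ ∀ l ∈ os, Divided A' B' l := by
  induction os with
  | nil =>
    intro _ A B _
    exact ⟨A, B, Subset.refl _, Subset.refl _, by simp, by simp, by simp⟩
  | cons l os ih =>
    intro hos A B hAB
    obtain ⟨A₁, B₁, hA₁, hB₁, hcA, hcB, hl⟩ := cut l (hos l (by simp)) A B hAB
    obtain ⟨A₂, B₂, hA₂, hB₂, hcA₂, hcB₂, hd⟩ :=
      ih (fun l' hl' => hos l' (by simp [hl'])) A₁ B₁
        (disjoint_of_subset_left hA₁ (disjoint_of_subset_right hB₁ hAB))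
    refine ⟨A₂, B₂, hA₂.trans hA₁, hB₂.trans hB₁, ?_, ?_, ?_⟩
    · rw [List.length_cons, pow_succ]
      nlinarith
    · rw [List.length_cons, pow_succ]
      nlinarith
    · intro l' hl'
      rw [List.mem_cons] at hl'
      rcases hl' with rfl | hl'
      · exact Divided.mono hl hA₂ hB₂
      · exact hd l' hl'

omit [DecidableEq α] in
/-- the segments of all passes -/
theorem segments {A B : Finset α} (ps : List (List α)) : (∀ l ∈ ps, Divided A B l) →
    ∃ segs : List (List α), segs.flatten = ps.flatten ∧ segs.length = 2 * ps.length ∧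
      ∀ s ∈ segs, Avoids s B ∨ Avoids s A := by
  induction ps with
  | nil =>
    intro _
    exact ⟨[], rfl, rfl, by simp⟩
  | cons l ps ih =>
    intro hps
    obtain ⟨l₁, l₂, rfl, hl⟩ := hps l (by simp)
    obtain ⟨segs, hs1, hs2, hs3⟩ := ih fun l' hl' => hps l' (by simp [hl'])
    refine ⟨l₁ :: l₂ :: segs, ?_, ?_, ?_⟩
    · simp [hs1]
    · simp only [List.length_cons, hs2]
      omega
    · intro s hs
      rw [List.mem_cons, List.mem_cons] at hs
      rcases hs with rfl | rfl | hs
      · rcases hl with h | h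
        · exact Or.inl h.1
        · exact Or.inr h.1
      · rcases hl with h | h
        · exact Or.inr h.2
        · exact Or.inl h.2
      · exact hs3 s hs

end Cut

section Cover

variable {n : ℕ}

/-- `H` agrees with `G` outside `B` and with `G'` outside `A`. -/
def Mix (A B : Finset (Sym2 (Fin n))) (G G' H : SimpleGraph (Fin n)) : Prop :=
  (∀ e, e ∉ B → (e ∈ H.edgeSet ↔ e ∈ G.edgeSet)) ∧ ∀ e, e ∉ A → (e ∈ H.edgeSet ↔ e ∈ G'.edgeSet)

/-- `f` is a union of `r` rectangles. -/
def Cover (A B : Finset (Sym2 (Fin n))) (r : ℕ) (f : SimpleGraph (Fin n) → Prop) : Prop :=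
  ∃ g : Fin r → SimpleGraph (Fin n) → Prop, (∀ G, f G ↔ ∃ i, g i G) ∧
    ∀ i G G' H, Mix A B G G' H → g i G → g i G' → g i H

/-- the same with an arbitrary set of indices -/
def CoverJ (A B : Finset (Sym2 (Fin n))) (J : Type) (f : SimpleGraph (Fin n) → Prop) : Prop :=
  ∃ g : J → SimpleGraph (Fin n) → Prop, (∀ G, f G ↔ ∃ i, g i G) ∧
    ∀ i G G' H, Mix A B G G' H → g i G → g i G' → g i H

theorem CoverJ.cover {A B : Finset (Sym2 (Fin n))} {J : Type} [Fintype J]
    {f : SimpleGraph (Fin n) → Prop} (h : CoverJ A B J f) {r : ℕ} (hr : Fintype.card J = r) :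
    Cover A B r f := by
  obtain ⟨g, h1, h2⟩ := h
  subst hr
  refine ⟨fun i => g ((Fintype.equivFin J).symm i), fun G => ?_, fun i => h2 _⟩
  rw [h1 G]
  constructor
  · rintro ⟨j, hj⟩
    exact ⟨Fintype.equivFin J j, by
      beta_reduce
      rwa [Equiv.symm_apply_apply]⟩
  · rintro ⟨i, hi⟩
    exact ⟨_, hi⟩

theorem run_congr {W : Type} (step : ℕ → W → Prop → W → Prop) {G H : SimpleGraph (Fin n)}
    (l : List (Sym2 (Fin n))) : (∀ e ∈ l, (e ∈ H.edgeSet ↔ e ∈ G.edgeSet)) → ∀ (t : ℕ) (a b : W),
    Run step G t l a b → Run step H t l a b := by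
  induction l with
  | nil =>
    intro _ t a b h
    exact h
  | cons e l ih =>
    rintro he t a b ⟨c, h1, h2⟩
    refine ⟨c, ?_, ih (fun e' he' => he e' (by simp [he'])) _ _ _ h2⟩
    rwa [propext (he e (by simp))]

theorem run_append {W : Type} (step : ℕ → W → Prop → W → Prop) (G : SimpleGraph (Fin n))
    (l l' : List (Sym2 (Fin n))) : ∀ (t : ℕ) (a b : W),
    Run step G t (l ++ l') a b ↔ ∃ c, Run step G t l a c ∧ Run step G (t + l.length) l' c b := by
  induction l with
  | nil =>
    intro t a b
    simp [Run]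
  | cons e l ih =>
    intro t a b
    simp only [List.cons_append, Run, ih, List.length_cons]
    constructor
    · rintro ⟨c, h1, c', h2, h3⟩
      refine ⟨c', ⟨c, h1, h2⟩, ?_⟩
      rwa [show t + (l.length + 1) = t + 1 + l.length by ring]
    · rintro ⟨c', ⟨c, h1, h2⟩, h3⟩
      refine ⟨c, h1, c', h2, ?_⟩
      rwa [show t + (l.length + 1) = t + 1 + l.length by ring] at h3

theorem seg_cover {W : Type} (step : ℕ → W → Prop → W → Prop) {A B : Finset (Sym2 (Fin n))}
    {l : List (Sym2 (Fin n))} (hl : Avoids l B ∨ Avoids l A) (t : ℕ) (a b : W)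
    {G G' H : SimpleGraph (Fin n)} (hm : Mix A B G G' H) (h : Run step G t l a b)
    (h' : Run step G' t l a b) : Run step H t l a b := by
  rcases hl with hl | hl
  · exact run_congr step l (fun e he => hm.1 e (hl e he)) t a b h
  · exact run_congr step l (fun e he => hm.2 e (hl e he)) t a b h'

theorem segs_cover {W : Type} [Fintype W] (step : ℕ → W → Prop → W → Prop)
    {A B : Finset (Sym2 (Fin n))} (segs : List (List (Sym2 (Fin n)))) :
    (∀ s ∈ segs, Avoids s B ∨ Avoids s A) → ∀ (t : ℕ) (b : W), ∃ (J : Type) (_ : Fintype J),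
      Fintype.card J = Fintype.card W ^ segs.length ∧
      ∀ a : W, CoverJ A B J (fun G => Run step G t segs.flatten a b) := by
  induction segs with
  | nil =>
    intro _ t b
    refine ⟨Unit, inferInstance, by simp, fun a => ⟨fun _ _ => a = b, fun G => ?_, ?_⟩⟩
    · simp [Run]
    · intro _ G G' H _ h _
      exact h
  | cons s segs ih =>
    intro hs t b
    obtain ⟨J, hJ, hcard, hcov⟩ := ih (fun s' hs' => hs s' (by simp [hs'])) (t + s.length) b
    refine ⟨W × J, inferInstance, ?_, fun a => ?_⟩
    · rw [Fintype.card_prod, hcard, List.length_cons, pow_succ, mul_comm]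
    · choose g h1 h2 using hcov
      refine ⟨fun x G => Run step G t s a x.1 ∧ g x.1 x.2 G, fun G => ?_, ?_⟩
      · beta_reduce
        rw [List.flatten_cons, run_append]
        constructor
        · rintro ⟨c, hc, hc'⟩
          obtain ⟨j, hj⟩ := (h1 c G).1 hc'
          exact ⟨(c, j), hc, hj⟩
        · rintro ⟨⟨c, j⟩, hc, hj⟩
          exact ⟨c, hc, (h1 c G).2 ⟨j, hj⟩⟩
      · rintro ⟨c, j⟩ G G' H hm ⟨h3, h4⟩ ⟨h5, h6⟩
        exact ⟨seg_cover step (hs s (by simp)) t a c hm h3 h5, h2 c j G G' H hm h4 h6⟩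

theorem recognised_cover {A B : Finset (Sym2 (Fin n))} {segs : List (List (Sym2 (Fin n)))}
    (hs : ∀ s ∈ segs, Avoids s B ∨ Avoids s A) {w : ℕ} {f : SimpleGraph (Fin n) → Prop}
    (h : Recognised segs.flatten w f) : Cover A B (w ^ (segs.length + 2)) f := by
  obtain ⟨step, init, acc, h⟩ := h
  have h1 := fun b => segs_cover step segs hs 0 b
  choose J hJ hcard hcov using h1
  choose g h2 h3 using hcov
  have hJ' : CoverJ A B (Σ x : Fin w × Fin w, J x.2) f := by
    refine ⟨fun x G => x.1.1 ∈ init ∧ x.1.2 ∈ acc ∧ g x.1.2 x.1.1 x.2 G, fun G => ?_, ?_⟩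
    · rw [h G]
      constructor
      · rintro ⟨a, ha, b, hb, hr⟩
        obtain ⟨j, hj⟩ := (h2 b a G).1 hr
        exact ⟨⟨(a, b), j⟩, ha, hb, hj⟩
      · rintro ⟨⟨⟨a, b⟩, j⟩, ha, hb, hj⟩
        exact ⟨a, ha, b, hb, (h2 b a G).2 ⟨j, hj⟩⟩
    · rintro ⟨⟨a, b⟩, j⟩ G G' H hm ⟨ha, hb, h4⟩ ⟨_, _, h5⟩
      exact ⟨ha, hb, h3 b a j G G' H hm h4 h5⟩
  refine hJ'.cover ?_
  rw [Fintype.card_sigma]
  simp only [hcard, Fintype.card_fin]
  rw [sum_const, card_univ, Fintype.card_prod, Fintype.card_fin, smul_eq_mul]
  ring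

end Cover

end Pool.Agent.KS6_49.SR
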