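import Mathlib

/-!
# Reductions of the clique problem computed by streaming algorithms: definitions

The graphs have the vertices `0, …, n - 1`. The input bits are the adjacency bits, one for each
unordered pair of vertices.
-/

set_option autoImplicit false

namespace Pool.Agent.KS6_49.SR

/-- `G` has a clique with `k` vertices. -/
def HasClique {n : ℕ} (k : ℕ) (G : SimpleGraph (Fin n)) : Prop :=
  ∃ s : Finset (Fin n), G.IsNClique k s

/-- A clause with at most `d` literals over `v` variables: `some (x, s)` stands for the literal
`x = s`. -/
abbrev Clause (v d : ℕ) : Type := Fin d → Option (Fin v × Bool)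

/-- The formula with the clauses in `F` is satisfiable. -/
def Sat {v d : ℕ} (F : Clause v d → Prop) : Prop :=
  ∃ a : Fin v → Bool, ∀ cl, F cl → ∃ i x s, cl i = some (x, s) ∧ a x = s

/-- `Run step G t l a b`: starting at time `t` in the state `a`, a nondeterministic machine that
reads the pairs in the list `l` one after the other can end in the state `b`. At time `t` the
machine gets the bit that says whether the pair is an edge of `G`; if this bit is `β`, it can go from
the state `a` to the states `c` with `step t a β c`. -/
def Run {n : ℕ} {W : Type} (step : ℕ → W → Prop → W → Prop) (G : SimpleGraph (Fin n)) :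
    ℕ → List (Sym2 (Fin n)) → W → W → Prop
  | _, [], a, b => a = b
  | t, e :: l, a, b => ∃ c, step t a (e ∈ G.edgeSet) c ∧ Run step G (t + 1) l c b

/-- The property `f` of graphs is recognised by a nondeterministic machine with `w` states that reads
the pairs in the order of the list `l`: `f G` holds if and only if the machine can go from an initial
state to an accepting state. -/
def Recognised {n : ℕ} (l : List (Sym2 (Fin n))) (w : ℕ) (f : SimpleGraph (Fin n) → Prop) : Prop :=
  ∃ (step : ℕ → Fin w → Prop → Fin w → Prop) (init acc : Set (Fin w)),
    ∀ G, f G ↔ ∃ a ∈ init, ∃ b ∈ acc, Run step G 0 l a b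

/-- An adaptive (Turing) reduction of a problem on graphs with `n` vertices to satisfiability, which
asks `q` questions: after the answers in the list `h`, the next question is whether the formula with
the clauses `cl` with `clause h cl G` is satisfiable; each clause has at most `d` literals over `v`
variables. At the end, `accept h` says whether the input is accepted after the answers `h`. -/
structure Reduction (n q v d : ℕ) where
  /-- the clause `cl` belongs to the formula that is asked after the answers `h` -/
  clause : List Bool → Clause v d → SimpleGraph (Fin n) → Prop
  /-- the evaluation of the answers -/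
  accept : List Bool → Prop

variable {n q v d : ℕ}

open Classical in
/-- The first answers for the input `G`. -/
noncomputable def Reduction.answers (R : Reduction n q v d) (G : SimpleGraph (Fin n)) : ℕ → List Bool
  | 0 => []
  | i + 1 => R.answers G i ++ [decide (Sat fun cl => R.clause (R.answers G i) cl G)]

/-- The reduction accepts `G`. -/
def Reduction.Accepts (R : Reduction n q v d) (G : SimpleGraph (Fin n)) : Prop :=
  R.accept (R.answers G q)

/-- The random test `acc` for cliques with `k` vertices has one-sided error: the graphs with such a
clique are always accepted, and the graphs without such a clique are rejected with probability at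
least `2 ^ (-μ)`. -/
def OneSided {Ω : Type} (k μ : ℕ) (acc : Ω → SimpleGraph (Fin n) → Prop) : Prop :=
  (∀ G, HasClique k G → ∀ ω, acc ω G) ∧
    ∀ G, ¬ HasClique k G → Nat.card Ω ≤ 2 ^ μ * Nat.card {ω // ¬ acc ω G}

end Pool.Agent.KS6_49.SR
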