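import Pool.Agent.KS6_49.SR.Cut

/-!
Graphs in which the cliques detect whether `S ⊆ T`; both sets are encoded by disjoint blocks of
pairs of vertices, shifted against each other.
-/

set_option autoImplicit false

namespace Pool.Agent.KS6_49.SR

open Finset

/-- vertices -/
inductive Vx (N m : ℕ) : Type
  | A (i : ZMod N)
  | B (j : ZMod N)
  | C (i : ZMod N)
  | D (j : ZMod N)
  | Z (z : Fin m)

variable {N m : ℕ}

/-- adjacency -/
def rel (σ : ZMod N × ZMod N) (S T : Finset (ZMod N × ZMod N)) : Vx N m → Vx N m → Prop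
  | .A i, .B j => (i, j) ∈ S
  | .C i, .D j => (i - σ.1, j - σ.2) ∉ T
  | .A i, .C i' => i' = i + σ.1
  | .B j, .D j' => j' = j + σ.2
  | .A _, .D _ => True
  | .B _, .C _ => True
  | .Z _, _ => True
  | _, _ => False

/-- the graph -/
def gr (m : ℕ) (σ : ZMod N × ZMod N) (S T : Finset (ZMod N × ZMod N)) : SimpleGraph (Vx N m) :=
  SimpleGraph.fromRel (rel σ S T)

/-- kinds of vertices -/
def kind : Vx N m → Fin 4 ⊕ Fin m
  | .A _ => Sum.inl 0
  | .B _ => Sum.inl 1
  | .C _ => Sum.inl 2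
  | .D _ => Sum.inl 3
  | .Z z => Sum.inr z

theorem kind_ne {σ : ZMod N × ZMod N} {S T : Finset (ZMod N × ZMod N)} {a b : Vx N m}
    (h : (gr m σ S T).Adj a b) : kind a ≠ kind b := by
  rw [gr, SimpleGraph.fromRel_adj] at h
  obtain ⟨hne, h⟩ := h
  intro hk
  cases a <;> cases b <;> simp_all [kind, rel]

theorem clique_iff (σ : ZMod N × ZMod N) (S T : Finset (ZMod N × ZMod N)) :
    (∃ s : Finset (Vx N m), (gr m σ S T).IsNClique (m + 4) s) ↔ ¬ S ⊆ T := by
  classical
  constructor
  · rintro ⟨s, hs⟩ hST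
    have hinj : Set.InjOn kind (s : Set (Vx N m)) := by
      intro a ha b hb hab
      by_contra hne
      exact kind_ne (hs.isClique ha hb hne) hab
    have hcard : (s.image kind).card = Fintype.card (Fin 4 ⊕ Fin m) := by
      rw [card_image_of_injOn hinj, hs.card_eq, Fintype.card_sum, Fintype.card_fin,
        Fintype.card_fin, add_comm]
    have huniv := (card_eq_iff_eq_univ _).1 hcard
    have hex : ∀ x, ∃ a ∈ s, kind a = x := fun x => by
      have : x ∈ s.image kind := by
        rw [huniv]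
        exact mem_univ x
      exact mem_image.1 this
    obtain ⟨a, ha, ka⟩ := hex (Sum.inl 0)
    obtain ⟨b, hb, kb⟩ := hex (Sum.inl 1)
    obtain ⟨c, hc, kc⟩ := hex (Sum.inl 2)
    obtain ⟨d, hd, kd⟩ := hex (Sum.inl 3)
    have key : ∀ x y : Vx N m, x ∈ s → y ∈ s → kind x ≠ kind y → (gr m σ S T).Adj x y :=
      fun x y hx hy hxy => hs.isClique hx hy fun h => hxy (by rw [h])
    have hab := key a b ha hb (by rw [ka, kb]; simp)
    have hac := key a c ha hc (by rw [ka, kc]; simp)
    have hbd := key b d hb hd (by rw [kb, kd]; simp)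
    have hcd := key c d hc hd (by rw [kc, kd]; simp)
    rw [gr, SimpleGraph.fromRel_adj] at hab hac hbd hcd
    have hab := hab.2
    have hac := hac.2
    have hbd := hbd.2
    have hcd := hcd.2
    cases a <;> simp only [kind, Sum.inl.injEq, reduceCtorEq] at ka <;> try (exact absurd ka (by decide))
    cases b <;> simp only [kind, Sum.inl.injEq, reduceCtorEq] at kb <;> try (exact absurd kb (by decide))
    cases c <;> simp only [kind, Sum.inl.injEq, reduceCtorEq] at kc <;> try (exact absurd kc (by decide))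
    cases d <;> simp only [kind, Sum.inl.injEq, reduceCtorEq] at kd <;> try (exact absurd kd (by decide))
    simp only [rel, or_false] at hab hac hbd hcd
    subst hac hbd
    rw [add_sub_cancel_right, add_sub_cancel_right] at hcd
    exact hcd (hST hab)
  · intro hST
    obtain ⟨⟨i, j⟩, hS, hT⟩ := not_subset.1 hST
    let ψ : Fin 4 ⊕ Fin m → Vx N m := Sum.elim ![.A i, .B j, .C (i + σ.1), .D (j + σ.2)] Vx.Z
    have hkψ : ∀ x, kind (ψ x) = x := by
      rintro (x | z)
      · fin_cases x <;> rfl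
      · rfl
    have hinj : Function.Injective ψ := Function.LeftInverse.injective hkψ
    refine ⟨univ.map ⟨ψ, hinj⟩, ?_, ?_⟩
    · intro a ha b hb hab
      rw [coe_map, Set.mem_image] at ha hb
      obtain ⟨x, -, rfl⟩ := ha
      obtain ⟨y, -, rfl⟩ := hb
      rw [gr, SimpleGraph.fromRel_adj]
      refine ⟨hab, ?_⟩
      change rel σ S T (ψ x) (ψ y) ∨ rel σ S T (ψ y) (ψ x)
      have hxy : x ≠ y := by
        rintro rfl
        exact hab rfl
      rcases x with x | z
      · rcases y with y | z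
        · fin_cases x <;> fin_cases y <;> simp_all [ψ, rel]
        · right
          simp [ψ, rel]
      · left
        simp [ψ, rel]
    · rw [card_map, card_univ, Fintype.card_sum, Fintype.card_fin, Fintype.card_fin, add_comm]

variable [NeZero N]

/-- the embedding -/
def emb {n : ℕ} (h : 4 * N + m ≤ n) : Vx N m → Fin n
  | .A i => ⟨i.val, by have := ZMod.val_lt i; omega⟩
  | .B j => ⟨N + j.val, by have := ZMod.val_lt j; omega⟩
  | .C i => ⟨2 * N + i.val, by have := ZMod.val_lt i; omega⟩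
  | .D j => ⟨3 * N + j.val, by have := ZMod.val_lt j; omega⟩
  | .Z z => ⟨4 * N + z.1, by omega⟩

theorem emb_inj {n : ℕ} (h : 4 * N + m ≤ n) : Function.Injective (emb (N := N) (m := m) h) := by
  intro a b hab
  cases a <;> cases b <;> simp only [emb, Fin.mk.injEq] at hab <;>
    first
      | (rw [Vx.A.injEq]; exact ZMod.val_injective N (by omega))
      | (rw [Vx.B.injEq]; exact ZMod.val_injective N (by omega))
      | (rw [Vx.C.injEq]; exact ZMod.val_injective N (by omega))
      | (rw [Vx.D.injEq]; exact ZMod.val_injective N (by omega))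
      | (rw [Vx.Z.injEq]; exact Fin.ext (by omega))
      | (rename_i x y; exfalso; have h1 := ZMod.val_lt x; have h2 := ZMod.val_lt y; omega)
      | (rename_i x y; exfalso; have h1 := ZMod.val_lt x; omega)
      | (rename_i x y; exfalso; have h2 := ZMod.val_lt y; omega)

/-- the embedding -/
def embE {n : ℕ} (h : 4 * N + m ≤ n) : Vx N m ↪ Fin n := ⟨emb h, emb_inj h⟩

/-- the graph with `n` vertices -/
def big {n : ℕ} (h : 4 * N + m ≤ n) (σ : ZMod N × ZMod N) (S T : Finset (ZMod N × ZMod N)) :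
    SimpleGraph (Fin n) :=
  (gr m σ S T).map (embE h)

theorem big_clique {n : ℕ} (h : 4 * N + m ≤ n) (σ : ZMod N × ZMod N)
    (S T : Finset (ZMod N × ZMod N)) : HasClique (m + 4) (big h σ S T) ↔ ¬ S ⊆ T := by
  rw [← clique_iff (m := m) σ S T]
  unfold HasClique big
  constructor
  · rintro ⟨s, hs⟩
    rw [SimpleGraph.isNClique_map_iff (by omega)] at hs
    obtain ⟨t, ht, -⟩ := hs
    exact ⟨t, ht⟩
  · rintro ⟨s, hs⟩
    exact ⟨_, hs.map⟩

/-- the pairs of vertices which encode `S` -/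
def posA {n : ℕ} (h : 4 * N + m ≤ n) (x : ZMod N × ZMod N) : Sym2 (Fin n) :=
  s(emb (m := m) h (.A x.1), emb (m := m) h (.B x.2))

/-- the pairs of vertices which encode `T` -/
def posB {n : ℕ} (h : 4 * N + m ≤ n) (x : ZMod N × ZMod N) : Sym2 (Fin n) :=
  s(emb (m := m) h (.C x.1), emb (m := m) h (.D x.2))

theorem posA_inj {n : ℕ} (h : 4 * N + m ≤ n) : Function.Injective (posA h) := by
  rintro ⟨i, j⟩ ⟨i', j'⟩ hx
  rw [posA, posA, Sym2.eq_iff] at hx
  rcases hx with ⟨h1, h2⟩ | ⟨h1, h2⟩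
  · have h3 := emb_inj h h1
    have h4 := emb_inj h h2
    rw [Vx.A.injEq] at h3
    rw [Vx.B.injEq] at h4
    exact Prod.ext h3 h4
  · have h3 := emb_inj h h1
    simp at h3

theorem posB_inj {n : ℕ} (h : 4 * N + m ≤ n) : Function.Injective (posB h) := by
  rintro ⟨i, j⟩ ⟨i', j'⟩ hx
  rw [posB, posB, Sym2.eq_iff] at hx
  rcases hx with ⟨h1, h2⟩ | ⟨h1, h2⟩
  · have h3 := emb_inj h h1
    have h4 := emb_inj h h2
    rw [Vx.C.injEq] at h3
    rw [Vx.D.injEq] at h4
    exact Prod.ext h3 h4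
  · have h3 := emb_inj h h1
    simp at h3

theorem pos_ne {n : ℕ} (h : 4 * N + m ≤ n) (x y : ZMod N × ZMod N) :
    posA (m := m) h x ≠ posB (m := m) h y := by
  intro hx
  rw [posA, posB, Sym2.eq_iff] at hx
  rcases hx with ⟨h1, h2⟩ | ⟨h1, h2⟩
  · have h3 := emb_inj h h1
    simp at h3
  · have h3 := emb_inj h h1
    simp at h3

/-- the edges -/
theorem mem_big {n : ℕ} (h : 4 * N + m ≤ n) (σ : ZMod N × ZMod N)
    (S T : Finset (ZMod N × ZMod N)) (e : Sym2 (Fin n)) :
    e ∈ (big h σ S T).edgeSet ↔ ∃ a b, (gr m σ S T).Adj a b ∧ e = s(emb h a, emb h b) := by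
  induction e with
  | h u v =>
  rw [SimpleGraph.mem_edgeSet, big, SimpleGraph.map_adj]
  constructor
  · rintro ⟨a, b, hab, rfl, rfl⟩
    exact ⟨a, b, hab, rfl⟩
  · rintro ⟨a, b, hab, he⟩
    rw [Sym2.eq_iff] at he
    rcases he with ⟨rfl, rfl⟩ | ⟨rfl, rfl⟩
    · exact ⟨a, b, hab, rfl, rfl⟩
    · exact ⟨b, a, hab.symm, rfl, rfl⟩

/-- The adjacency in the second block is determined by `T`, outside by `S`. -/
theorem big_sub {n : ℕ} (h : 4 * N + m ≤ n) (σ : ZMod N × ZMod N)
    (S S' T T' : Finset (ZMod N × ZMod N)) (e : Sym2 (Fin n))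
    (hS : ∀ x, e = posA (m := m) h x → x ∈ S → x ∈ S')
    (hT : ∀ x, e = posB (m := m) h x → (x.1 - σ.1, x.2 - σ.2) ∉ T → (x.1 - σ.1, x.2 - σ.2) ∉ T')
    (he : e ∈ (big h σ S T).edgeSet) : e ∈ (big h σ S' T').edgeSet := by
  rw [mem_big] at he ⊢
  obtain ⟨a, b, hab, rfl⟩ := he
  refine ⟨a, b, ?_, rfl⟩
  rw [gr, SimpleGraph.fromRel_adj] at hab ⊢
  refine ⟨hab.1, ?_⟩
  have h2 := hab.2
  cases a <;> cases b <;> simp only [rel] at h2 ⊢ <;> first
    | exact h2
    | exact trivial
    | (rename_i i j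
       rcases h2 with h2 | h2
       · exact Or.inl (hS (i, j) rfl h2)
       · exact h2.elim)
    | (rename_i j i
       rcases h2 with h2 | h2
       · exact h2.elim
       · exact Or.inr (hS (i, j) Sym2.eq_swap h2))
    | (rename_i i j
       rcases h2 with h2 | h2
       · exact Or.inl (hT (i, j) rfl h2)
       · exact h2.elim)
    | (rename_i j i
       rcases h2 with h2 | h2
       · exact h2.elim
       · exact Or.inr (hT (i, j) Sym2.eq_swap h2))

end Pool.Agent.KS6_49.SR
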