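import Pool.Agent.KS6_49.SR.Graph

/-!
The lower bounds.
-/

set_option autoImplicit false

namespace Pool.Agent.KS6_49.SR

open Finset

/-- averaging over shifts -/
theorem shift {N : ℕ} [NeZero N] (X Y : Finset (ZMod N × ZMod N)) :
    ∃ σ : ZMod N × ZMod N, X.card * Y.card ≤ N * N * (X.filter fun x => x + σ ∈ Y).card := by
  by_contra hcon
  push Not at hcon
  have h1 : ∑ σ : ZMod N × ZMod N, (X.filter fun x => x + σ ∈ Y).card = X.card * Y.card := by
    simp_rw [card_filter]
    rw [sum_comm]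
    have h2 : ∀ x : ZMod N × ZMod N, ∑ σ, (if x + σ ∈ Y then 1 else 0) = Y.card := by
      intro x
      rw [← card_filter]
      have h3 : (univ.filter fun σ => x + σ ∈ Y) = Y.image fun y => y - x := by
        ext σ
        simp only [mem_filter, mem_univ, true_and, mem_image]
        constructor
        · intro h
          exact ⟨_, h, by abel⟩
        · rintro ⟨y, hy, rfl⟩
          rwa [add_sub_cancel]
      rw [h3, card_image_of_injective _ sub_left_injective]
    rw [sum_congr rfl fun x _ => h2 x, sum_const, smul_eq_mul]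
  have h2 : ∑ σ : ZMod N × ZMod N, N * N * (X.filter fun x => x + σ ∈ Y).card <
      ∑ _σ : ZMod N × ZMod N, X.card * Y.card :=
    sum_lt_sum_of_nonempty univ_nonempty fun σ _ => hcon σ
  rw [← mul_sum, h1, sum_const, card_univ, Fintype.card_prod, ZMod.card, smul_eq_mul] at h2
  exact lt_irrefl _ h2

variable {N m n : ℕ} [NeZero N]

/-- the structure -/
theorem structure_ (h : 4 * N + m ≤ n) (os ps : List (List (Sym2 (Fin n))))
    (hos : ∀ l ∈ os, l.Nodup) (hps : ∀ l ∈ ps, l ∈ os) :
    ∃ (A B : Finset (Sym2 (Fin n))) (segs : List (List (Sym2 (Fin n))))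
      (I : Finset (ZMod N × ZMod N)) (σ : ZMod N × ZMod N),
      segs.flatten = ps.flatten ∧ segs.length = 2 * ps.length ∧
      (∀ s ∈ segs, Avoids s B ∨ Avoids s A) ∧ N * N ≤ 4 ^ os.length * I.card ∧
      ∀ U ⊆ I, ∀ U' ⊆ I, Mix A B (big (m := m) h σ U (U ∪ Iᶜ)) (big h σ U' (U' ∪ Iᶜ))
        (big h σ U (U' ∪ Iᶜ)) := by
  classical
  have hdis : Disjoint (univ.image (posA (N := N) (m := m) h)) (univ.image (posB (m := m) h)) := by
    rw [disjoint_left]
    intro e he he'
    obtain ⟨x, -, rfl⟩ := mem_image.1 he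
    obtain ⟨y, -, hy⟩ := mem_image.1 he'
    exact pos_ne h x y hy.symm
  obtain ⟨A, B, hA, hB, hcA, hcB, hdiv⟩ := cuts os hos _ _ hdis
  obtain ⟨segs, hs1, hs2, hs3⟩ := segments ps fun l hl => hdiv l (hps l hl)
  have hcardA : (univ.image (posA (N := N) (m := m) h)).card = N * N := by
    rw [card_image_of_injective _ (posA_inj h), card_univ, Fintype.card_prod, ZMod.card]
  have hcardB : (univ.image (posB (N := N) (m := m) h)).card = N * N := by
    rw [card_image_of_injective _ (posB_inj h), card_univ, Fintype.card_prod, ZMod.card]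
  rw [hcardA] at hcA
  rw [hcardB] at hcB
  set X : Finset (ZMod N × ZMod N) := univ.filter fun x => posA (m := m) h x ∈ A with hX
  set Y : Finset (ZMod N × ZMod N) := univ.filter fun x => posB (m := m) h x ∈ B with hY
  have hXA : A.card ≤ X.card := by
    have : A ⊆ X.image (posA h) := by
      intro e he
      obtain ⟨x, -, rfl⟩ := mem_image.1 (hA he)
      exact mem_image_of_mem _ (mem_filter.2 ⟨mem_univ _, he⟩)
    exact (card_le_card this).trans card_image_le
  have hYB : B.card ≤ Y.card := by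
    have : B ⊆ Y.image (posB h) := by
      intro e he
      obtain ⟨x, -, rfl⟩ := mem_image.1 (hB he)
      exact mem_image_of_mem _ (mem_filter.2 ⟨mem_univ _, he⟩)
    exact (card_le_card this).trans card_image_le
  obtain ⟨σ, hσ⟩ := shift X Y
  refine ⟨A, B, segs, X.filter fun x => x + σ ∈ Y, σ, hs1, hs2, hs3, ?_, ?_⟩
  · have hN : 0 < N * N := Nat.mul_pos (NeZero.pos N) (NeZero.pos N)
    refine Nat.le_of_mul_le_mul_left ?_ hN
    have h4 : (4 : ℕ) ^ os.length = 2 ^ os.length * 2 ^ os.length := by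
      rw [← mul_pow]
      norm_num
    calc N * N * (N * N) ≤ (2 ^ os.length * A.card) * (2 ^ os.length * B.card) :=
          Nat.mul_le_mul hcA hcB
      _ ≤ (2 ^ os.length * X.card) * (2 ^ os.length * Y.card) :=
          Nat.mul_le_mul (Nat.mul_le_mul_left _ hXA) (Nat.mul_le_mul_left _ hYB)
      _ = 4 ^ os.length * (X.card * Y.card) := by
          rw [h4]
          ring
      _ ≤ 4 ^ os.length * (N * N * (X.filter fun x => x + σ ∈ Y).card) :=
          Nat.mul_le_mul_left _ hσ
      _ = _ := by ring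
  · set I := X.filter fun x => x + σ ∈ Y with hI
    intro U hU U' hU'
    have hb : ∀ V V' : Finset (ZMod N × ZMod N), ∀ e : Sym2 (Fin n), e ∉ B →
        ∀ x : ZMod N × ZMod N, e = posB (m := m) h x → (x.1 - σ.1, x.2 - σ.2) ∉ V ∪ Iᶜ →
          (x.1 - σ.1, x.2 - σ.2) ∉ V' ∪ Iᶜ := by
      intro V V' e he x hx hV
      exfalso
      rw [mem_union, mem_compl, not_or, not_not] at hV
      have h1 := (mem_filter.1 hV.2).2
      have h2 : (x.1 - σ.1, x.2 - σ.2) + σ = x := by
        ext <;> simp
      rw [h2] at h1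
      apply he
      rw [hx]
      exact (mem_filter.1 h1).2
    have ha : ∀ V V' : Finset (ZMod N × ZMod N), V ⊆ I → ∀ e : Sym2 (Fin n), e ∉ A →
        ∀ x : ZMod N × ZMod N, e = posA (m := m) h x → x ∈ V → x ∈ V' := by
      intro V V' hVI e he x hx hV
      exfalso
      have h1 := (mem_filter.1 (hVI hV)).1
      apply he
      rw [hx]
      exact (mem_filter.1 h1).2
    refine ⟨fun e he => ⟨?_, ?_⟩, fun e he => ⟨?_, ?_⟩⟩
    · exact big_sub h σ _ _ _ _ e (fun _ _ hx => hx) (hb U' U e he)
    · exact big_sub h σ _ _ _ _ e (fun _ _ hx => hx) (hb U U' e he)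
    · exact big_sub h σ _ _ _ _ e (ha U U' hU e he) (fun _ _ hx => hx)
    · exact big_sub h σ _ _ _ _ e (ha U' U hU' e he) (fun _ _ hx => hx)

omit [NeZero N] in
/-- counting -/
theorem count {ι Ω D : Type} [Finite Ω] [Nonempty Ω] [Fintype D] (I : Finset ι) (μ : ℕ)
    (Q : Ω → Finset ι → Prop)
    (h1 : ∀ U ⊆ I, Nat.card Ω ≤ 2 ^ μ * Nat.card {ω // Q ω U})
    (h2 : ∀ ω, ∃ f : Finset ι → D, ∀ U ⊆ I, ∀ U' ⊆ I, Q ω U → Q ω U' → f U = f U' → U = U') :
    2 ^ I.card ≤ 2 ^ μ * Fintype.card D := by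
  classical
  have := Fintype.ofFinite Ω
  have hΩ : 0 < Fintype.card Ω := Fintype.card_pos
  refine Nat.le_of_mul_le_mul_right ?_ hΩ
  have h3 : ∀ ω, ((I.powerset).filter fun U => Q ω U).card ≤ Fintype.card D := by
    intro ω
    obtain ⟨f, hf⟩ := h2 ω
    rw [← card_univ]
    apply card_le_card_of_injOn f (fun _ _ => mem_univ _)
    intro U hU U' hU' h
    rw [coe_filter, Set.mem_ofPred_eq, mem_powerset] at hU hU'
    exact hf U hU.1 U' hU'.1 hU.2 hU'.2 h
  calc 2 ^ I.card * Fintype.card Ω = ∑ _U ∈ I.powerset, Fintype.card Ω := by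
        rw [sum_const, card_powerset, smul_eq_mul]
    _ ≤ ∑ U ∈ I.powerset, 2 ^ μ * (univ.filter fun ω => Q ω U).card := by
        apply sum_le_sum
        intro U hU
        have := h1 U (mem_powerset.1 hU)
        rwa [Nat.card_eq_fintype_card, Nat.card_eq_fintype_card, Fintype.card_subtype] at this
    _ = 2 ^ μ * ∑ U ∈ I.powerset, ∑ ω, (if Q ω U then 1 else 0) := by
        rw [mul_sum]
        simp_rw [card_filter]
    _ = 2 ^ μ * ∑ ω, ((I.powerset).filter fun U => Q ω U).card := by
        rw [sum_comm]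
        simp_rw [card_filter]
    _ ≤ 2 ^ μ * ∑ _ω : Ω, Fintype.card D := by
        gcongr with ω
        exact h3 ω
    _ = 2 ^ μ * Fintype.card D * Fintype.card Ω := by
        rw [sum_const, card_univ, smul_eq_mul]
        ring

omit [NeZero N] in
/-- one of the two mixed graphs has a clique -/
theorem mixed {ι : Type} [DecidableEq ι] [Fintype ι] {I U U' : Finset ι} (hU : U ⊆ I) (hU' : U' ⊆ I)
    (h1 : U ⊆ U' ∪ Iᶜ) (h2 : U' ⊆ U ∪ Iᶜ) : U = U' := by
  apply Subset.antisymm
  · intro x hx
    have := h1 hx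
    rw [mem_union, mem_compl] at this
    rcases this with h | h
    · exact h
    · exact absurd (hU hx) h
  · intro x hx
    have := h2 hx
    rw [mem_union, mem_compl] at this
    rcases this with h | h
    · exact h
    · exact absurd (hU' hx) h

theorem card_clause (v d : ℕ) : Fintype.card (Clause v d) = (2 * v + 1) ^ d := by
  rw [Fintype.card_fun, Fintype.card_option, Fintype.card_prod, Fintype.card_fin,
    Fintype.card_bool, Fintype.card_fin, mul_comm v 2]

/-- **Many-one reductions.** -/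
theorem manyone (h : 4 * N + m ≤ n) (os ps : List (List (Sym2 (Fin n))))
    (hos : ∀ l ∈ os, l.Nodup) (hps : ∀ l ∈ ps, l ∈ os)
    {v d w μ : ℕ} {Ω : Type} [Finite Ω] [Nonempty Ω]
    (F : Ω → Clause v d → SimpleGraph (Fin n) → Prop)
    (hF : OneSided (m + 4) μ fun ω G => Sat fun cl => F ω cl G)
    (hr : ∀ ω cl, Recognised ps.flatten w (F ω cl)) :
    ∃ M : ℕ, N * N ≤ 4 ^ os.length * M ∧
      2 ^ M ≤ 2 ^ μ * (w ^ (2 * ps.length + 2) + 1) ^ ((2 * v + 1) ^ d) := by
  classical
  obtain ⟨A, B, segs, I, σ, hs1, hs2, hs3, hI, hmix⟩ := structure_ (N := N) h os ps hos hps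
  refine ⟨I.card, hI, ?_⟩
  set r := w ^ (2 * ps.length + 2) with hrdef
  have hcov : ∀ ω cl, Cover A B r (F ω cl) := by
    intro ω cl
    have h1 := hr ω cl
    rw [← hs1] at h1
    have h2 := recognised_cover hs3 h1
    rwa [hs2] at h2
  choose g hg1 hg2 using hcov
  have hno : ∀ U : Finset (ZMod N × ZMod N), ¬ HasClique (m + 4) (big (m := m) h σ U (U ∪ Iᶜ)) := by
    intro U
    rw [big_clique, not_not]
    exact subset_union_left
  have key := count (D := Clause v d → Option (Fin r)) I μ
    (fun ω U => ¬ Sat fun cl => F ω cl (big (m := m) h σ U (U ∪ Iᶜ)))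
    (fun U _ => hF.2 _ (hno U)) (by
      intro ω
      refine ⟨fun U cl => if hx : ∃ i, g ω cl i (big (m := m) h σ U (U ∪ Iᶜ)) then
        some hx.choose else none, ?_⟩
      intro U hU U' hU' hQ hQ' hD
      -- all clauses of the two formulas are the same, with the same rectangles
      have hall : ∀ H, Mix A B (big (m := m) h σ U (U ∪ Iᶜ)) (big (m := m) h σ U' (U' ∪ Iᶜ)) H →
          ¬ HasClique (m + 4) H := by
        intro H hH hcl
        obtain ⟨a, ha⟩ := hF.1 H hcl ω
        apply hQ
        refine ⟨a, fun cl hcl' => ha cl ?_⟩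
        obtain ⟨i, hi⟩ := (hg1 ω cl _).1 hcl'
        have hx : ∃ i, g ω cl i (big (m := m) h σ U (U ∪ Iᶜ)) := ⟨i, hi⟩
        have h3 := congrFun hD cl
        simp only [dif_pos hx] at h3
        by_cases hy : ∃ i, g ω cl i (big (m := m) h σ U' (U' ∪ Iᶜ))
        · rw [dif_pos hy, Option.some.injEq] at h3
          rw [hg1]
          have h4 := hx.choose_spec
          have h5 := hy.choose_spec
          rw [← h3] at h5
          exact ⟨_, hg2 ω cl _ _ _ _ hH h4 h5⟩
        · rw [dif_neg hy] at h3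
          exact absurd h3 (by simp)
      have hall' : ∀ H, Mix A B (big (m := m) h σ U' (U' ∪ Iᶜ)) (big (m := m) h σ U (U ∪ Iᶜ)) H →
          ¬ HasClique (m + 4) H := by
        intro H hH hcl
        obtain ⟨a, ha⟩ := hF.1 H hcl ω
        apply hQ'
        refine ⟨a, fun cl hcl' => ha cl ?_⟩
        obtain ⟨i, hi⟩ := (hg1 ω cl _).1 hcl'
        have hx : ∃ i, g ω cl i (big (m := m) h σ U' (U' ∪ Iᶜ)) := ⟨i, hi⟩
        have h3 := congrFun hD cl
        simp only [dif_pos hx] at h3
        by_cases hy : ∃ i, g ω cl i (big (m := m) h σ U (U ∪ Iᶜ))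
        · rw [dif_pos hy, Option.some.injEq] at h3
          rw [hg1]
          have h4 := hx.choose_spec
          have h5 := hy.choose_spec
          rw [h3] at h5
          exact ⟨_, hg2 ω cl _ _ _ _ hH h4 h5⟩
        · rw [dif_neg hy] at h3
          exact absurd h3 (by simp)
      apply mixed hU hU'
      · by_contra hn
        exact hall _ (hmix U hU U' hU') ((big_clique h σ _ _).2 hn)
      · by_contra hn
        exact hall' _ (hmix U' hU' U hU) ((big_clique h σ _ _).2 hn))
  rwa [Fintype.card_fun, Fintype.card_option, Fintype.card_fin, card_clause] at key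

end Pool.Agent.KS6_49.SR
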