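import Pool.Agent.KS6_49.SR.Raz2

/-!
Amplification.
-/

set_option autoImplicit false

namespace Pool.Agent.KS6_49.SR.Raz

open Finset

open Classical in
/-- the majority of 80 trials -/
theorem amplify {Ω : Type} [Finite Ω] (E : Ω → Prop)
    (hE : 3 * Nat.card {ω // E ω} ≤ Nat.card Ω) :
    100 * Nat.card {ω : Fin 80 → Ω // 80 ≤ 2 * Nat.card {j // E (ω j)}} ≤
      Nat.card (Fin 80 → Ω) := by
  have := Fintype.ofFinite Ω
  simp only [Nat.card_eq_fintype_card, Fintype.card_subtype] at hE ⊢
  set X : Finset (Fin 80 → Ω) := univ.filter fun ω : Fin 80 → Ω =>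
      80 ≤ 2 * (univ.filter fun j => E (ω j)).card with hX
  have h1 : (X.card : ℝ) * 2 ^ 40 ≤ (4 / 3 * (Fintype.card Ω : ℝ)) ^ 80 := by
    calc (X.card : ℝ) * 2 ^ 40
        = ∑ _ω ∈ X, (2 : ℝ) ^ 40 := by
          rw [sum_const, nsmul_eq_mul]
      _ ≤ ∑ ω ∈ X, (2 : ℝ) ^ (univ.filter fun j => E (ω j)).card := by
          refine sum_le_sum fun ω hω => ?_
          have := (mem_filter.1 hω).2
          exact pow_le_pow_right₀ (by norm_num) (by omega)
      _ ≤ ∑ ω : Fin 80 → Ω, (2 : ℝ) ^ (univ.filter fun j => E (ω j)).card :=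
          sum_le_sum_of_subset_of_nonneg (filter_subset _ _) fun _ _ _ => by positivity
      _ = ∑ ω : Fin 80 → Ω, ∏ j, (if E (ω j) then (2 : ℝ) else 1) := by
          refine sum_congr rfl fun ω _ => ?_
          rw [prod_ite, prod_const_one, mul_one, prod_const]
      _ = (∑ w : Ω, (if E w then (2 : ℝ) else 1)) ^ 80 := by
          rw [← Fin.prod_const, prod_univ_sum, Fintype.piFinset_univ]
      _ ≤ _ := by
          have h2 : ∑ w : Ω, (if E w then (2 : ℝ) else 1) =
              Fintype.card Ω + ((univ.filter fun ω => E ω).card : ℝ) := by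
            have h3 : ∀ w : Ω, (if E w then (2 : ℝ) else 1) = 1 + (if E w then 1 else 0) := by
              intro w
              split_ifs <;> norm_num
            simp_rw [h3]
            rw [sum_add_distrib, sum_boole, sum_const, card_univ, nsmul_eq_mul, mul_one]
          rw [h2]
          have h4 : (3 : ℝ) * ((univ.filter fun ω => E ω).card : ℝ) ≤ Fintype.card Ω := by
            exact_mod_cast hE
          apply pow_le_pow_left₀ (by positivity)
          linarith
  have h5 : (100 : ℝ) * X.card ≤ (Fintype.card Ω : ℝ) ^ 80 := by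
    have h6 : (100 : ℝ) * (4 / 3) ^ 80 ≤ 2 ^ 40 := by norm_num
    rw [mul_pow] at h1
    have h7 : (0 : ℝ) ≤ (Fintype.card Ω : ℝ) ^ 80 := pow_nonneg (Nat.cast_nonneg _) 80
    have h8 := mul_le_mul_of_nonneg_right h6 h7
    have h9 : (100 : ℝ) * X.card * 2 ^ 40 ≤ (Fintype.card Ω : ℝ) ^ 80 * 2 ^ 40 := by
      linarith
    exact le_of_mul_le_mul_right h9 (by norm_num)
  rw [Fintype.card_fun, Fintype.card_fin]
  exact_mod_cast h5

variable {ι : Type} [Fintype ι] [DecidableEq ι]

open Classical in
/-- error `1 / 3` -/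
theorem average3 {D Ω : Type} [Fintype D] [Finite Ω] [Nonempty Ω]
    (dat : Ω → Finset ι → Finset ι → D)
    (hrect : ∀ ω x y x' y', dat ω x y = dat ω x' y' → dat ω x y' = dat ω x y)
    (Rej : Ω → D → Prop)
    (h1 : ∀ x y, ¬ Disjoint x y → 3 * Nat.card {ω // Rej ω (dat ω x y)} ≤ Nat.card Ω)
    (h2 : ∀ x y, Disjoint x y → 3 * Nat.card {ω // ¬ Rej ω (dat ω x y)} ≤ Nat.card Ω) :
    (1.003 : ℝ) ^ Fintype.card ι ≤ 24 * (Fintype.card D : ℝ) ^ 80 := by
  have := Fintype.ofFinite Ω
  have key := average (ι := ι) (D := Fin 80 → D) (Ω := Fin 80 → Ω)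
    (fun ω x y j => dat (ω j) x y)
    (by
      intro ω x y x' y' h
      funext j
      exact hrect (ω j) x y x' y' (congrFun h j))
    (fun ω δ => 80 ≤ 2 * Nat.card {j // Rej (ω j) (δ j)})
    (fun x y hxy => amplify (fun w => Rej w (dat w x y)) (h1 x y hxy))
    (by
      intro x y hxy
      have h3 := amplify (fun w => ¬ Rej w (dat w x y)) (h2 x y hxy)
      refine le_trans (Nat.mul_le_mul_left _ (Nat.card_le_card_of_injective (Subtype.map id ?_)
        (Subtype.map_injective _ Function.injective_id))) h3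
      intro ω h7
      have h4 := card_filter_add_card_filter_not (s := (univ : Finset (Fin 80)))
        (fun j => Rej (ω j) (dat (ω j) x y))
      rw [card_univ, Fintype.card_fin] at h4
      have h5 : Nat.card {j // Rej (ω j) (dat (ω j) x y)} =
          (univ.filter fun j => Rej (ω j) (dat (ω j) x y)).card := by
        rw [Nat.card_eq_fintype_card, Fintype.card_subtype]
      have h6 : Nat.card {j // ¬ Rej (ω j) (dat (ω j) x y)} =
          (univ.filter fun j => ¬ Rej (ω j) (dat (ω j) x y)).card := by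
        rw [Nat.card_eq_fintype_card, Fintype.card_subtype]
      change 80 ≤ 2 * Nat.card {j // ¬ Rej (ω j) (dat (ω j) x y)}
      rw [h5] at h7
      rw [h6]
      omega)
  rw [Fintype.card_fun, Fintype.card_fin] at key
  push_cast at key
  exact key

end Pool.Agent.KS6_49.SR.Raz
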