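import Pool.Agent.KS6_49.SR.Two
import Pool.Agent.KS6_49.SR.Raz3

/-!
Oblivious branching programs: the pairs are read in an arbitrary order, with repetitions.
-/

set_option autoImplicit false

namespace Pool.Agent.KS6_49.SR

open Finset

section Cut

variable {α : Type} [DecidableEq α]

/-- the first time at which half of one of the sets has been seen -/
theorem half (l : List α) (A B : Finset α) (hAB : Disjoint A B) :
    (∃ t, (A.card ≤ 2 * (A.filter fun e => e ∈ l.take t).card ∧
        B.card ≤ 2 * (B.filter fun e => ¬ e ∈ l.take t).card) ∨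
      (B.card ≤ 2 * (B.filter fun e => e ∈ l.take t).card ∧
        A.card ≤ 2 * (A.filter fun e => ¬ e ∈ l.take t).card)) ∨
    A.card ≤ 2 * (A.filter fun e => ¬ e ∈ l).card := by
  classical
  set a : ℕ → ℕ := fun t => (A.filter fun e => e ∈ l.take t).card with ha
  set b : ℕ → ℕ := fun t => (B.filter fun e => e ∈ l.take t).card with hb
  have hcomp : ∀ (X : Finset α) (t : ℕ), (X.filter fun e => e ∈ l.take t).card +
      (X.filter fun e => ¬ e ∈ l.take t).card = X.card := fun X t =>
    card_filter_add_card_filter_not _
  have hstep : ∀ t, a (t + 1) = a t ∨ b (t + 1) = b t := by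
    intro t
    rcases h : l[t]? with _ | e
    · left
      simp only [ha, List.take_add_one, h, Option.toList_none, List.append_nil]
    · by_cases heA : e ∈ A
      · right
        have heB : e ∉ B := fun h' => (disjoint_left.1 hAB) heA h'
        simp only [hb, List.take_add_one, h, Option.toList_some]
        congr 1
        apply filter_congr
        intro x hx
        rw [List.mem_append, List.mem_singleton]
        constructor
        · rintro (h' | rfl)
          · exact h'
          · exact absurd hx heB
        · exact Or.inl
      · left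
        simp only [ha, List.take_add_one, h, Option.toList_some]
        congr 1
        apply filter_congr
        intro x hx
        rw [List.mem_append, List.mem_singleton]
        constructor
        · rintro (h' | rfl)
          · exact h'
          · exact absurd hx heA
        · exact Or.inl
  by_cases hex : ∃ t, A.card ≤ 2 * a t ∨ B.card ≤ 2 * b t
  · left
    have hmin : ∀ t, t < Nat.find hex → 2 * a t < A.card ∧ 2 * b t < B.card := by
      intro t ht
      have := Nat.find_min hex ht
      push Not at this
      exact this
    set t := Nat.find hex with ht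
    have hspec : A.card ≤ 2 * a t ∨ B.card ≤ 2 * b t := Nat.find_spec hex
    have hkey : (A.card ≤ 2 * a t ∧ 2 * b t ≤ B.card) ∨ (B.card ≤ 2 * b t ∧ 2 * a t ≤ A.card) := by
      rcases Nat.eq_zero_or_pos t with h0 | h0
      · have ha0 : a t = 0 := by
          rw [h0]
          simp [ha]
        have hb0 : b t = 0 := by
          rw [h0]
          simp [hb]
        rcases hspec with h | h
        · left
          exact ⟨h, by omega⟩
        · right
          exact ⟨h, by omega⟩
      · obtain ⟨u, hu⟩ : ∃ u, t = u + 1 := ⟨t - 1, by omega⟩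
        have h1 := hmin u (by omega)
        rcases hstep u with h2 | h2
        · rw [← hu] at h2
          rcases hspec with h | h
          · omega
          · right
            exact ⟨h, by omega⟩
        · rw [← hu] at h2
          rcases hspec with h | h
          · left
            exact ⟨h, by omega⟩
          · omega
    refine ⟨t, ?_⟩
    rcases hkey with ⟨h1, h2⟩ | ⟨h1, h2⟩
    · left
      refine ⟨h1, ?_⟩
      have h3 := hcomp B t
      have h4 : b t = (B.filter fun e => e ∈ l.take t).card := rfl
      omega
    · right
      refine ⟨h1, ?_⟩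
      have h3 := hcomp A t
      have h4 : a t = (A.filter fun e => e ∈ l.take t).card := rfl
      omega
  · right
    push Not at hex
    have h1 := (hex l.length).1
    have h3 := hcomp A l.length
    have h4 : a l.length = (A.filter fun e => e ∈ l.take l.length).card := rfl
    rw [List.take_length] at h3 h4
    omega

theorem avoids_of_count {l : List α} {A : Finset α} (h : ∀ e ∈ A, l.count e ≤ 0) : Avoids l A := by
  intro e he heA
  have h1 := h e heA
  have h2 : 0 < l.count e := List.count_pos_iff.2 he
  omega

/-- **The cut lemma for sequences with repetitions** (Alon and Maass). -/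
theorem obl (c : ℕ) : ∀ (a b : ℕ) (l : List α) (A B : Finset α), a + b = c → Disjoint A B →
    (∀ e ∈ A, l.count e ≤ a) → (∀ e ∈ B, l.count e ≤ b) →
    ∃ A' B' : Finset α, A' ⊆ A ∧ B' ⊆ B ∧ A.card ≤ 2 ^ c * A'.card ∧ B.card ≤ 2 ^ c * B'.card ∧
      ∃ segs : List (List α), segs.flatten = l ∧ segs.length ≤ c + 1 ∧
        ∀ s ∈ segs, Avoids s B' ∨ Avoids s A' := by
  induction c with
  | zero =>
    intro a b l A B hc hAB hA hB
    have ha : a = 0 := by omega
    subst ha
    exact ⟨A, B, Subset.refl _, Subset.refl _, by simp, by simp, [l], by simp, by simp,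
      by simpa using Or.inr (avoids_of_count hA)⟩
  | succ c ih =>
    intro a b l A B hc hAB hA hB
    have hpow : 1 ≤ 2 ^ (c + 1) := Nat.one_le_two_pow
    rcases Nat.eq_zero_or_pos a with ha | ha
    · subst ha
      exact ⟨A, B, Subset.refl _, Subset.refl _, Nat.le_mul_of_pos_left _ hpow,
        Nat.le_mul_of_pos_left _ hpow, [l], by simp, by simp,
        by simpa using Or.inr (avoids_of_count hA)⟩
    rcases Nat.eq_zero_or_pos b with hb | hb
    · subst hb
      exact ⟨A, B, Subset.refl _, Subset.refl _, Nat.le_mul_of_pos_left _ hpow,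
        Nat.le_mul_of_pos_left _ hpow, [l], by simp, by simp,
        by simpa using Or.inl (avoids_of_count hB)⟩
    have hcount : ∀ (t : ℕ) (e : α), (l.take t).count e + (l.drop t).count e = l.count e := by
      intro t e
      rw [← List.count_append, List.take_append_drop]
    rcases half l A B hAB with ⟨t, ⟨h1, h2⟩ | ⟨h1, h2⟩⟩ | h
    · obtain ⟨A', B', hA', hB', k1, k2, segs, s1, s2, s3⟩ := ih (a - 1) b (l.drop t)
        (A.filter fun e => e ∈ l.take t) (B.filter fun e => ¬ e ∈ l.take t) (by omega)
        (disjoint_of_subset_left (filter_subset _ _)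
          (disjoint_of_subset_right (filter_subset _ _) hAB))
        (by
          intro e he
          rw [mem_filter] at he
          have h3 := hA e he.1
          have h4 := hcount t e
          have h5 : 0 < (l.take t).count e := List.count_pos_iff.2 he.2
          omega)
        (by
          intro e he
          rw [mem_filter] at he
          have h3 := hB e he.1
          have h4 := hcount t e
          omega)
      refine ⟨A', B', hA'.trans (filter_subset _ _), hB'.trans (filter_subset _ _), ?_, ?_,
        l.take t :: segs, ?_, ?_, ?_⟩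
      · rw [pow_succ]
        nlinarith
      · rw [pow_succ]
        nlinarith
      · rw [List.flatten_cons, s1, List.take_append_drop]
      · rw [List.length_cons]
        omega
      · intro s hs
        rcases List.mem_cons.1 hs with rfl | hs
        · left
          intro e he he'
          exact (mem_filter.1 (hB' he')).2 he
        · exact s3 s hs
    · obtain ⟨A', B', hA', hB', k1, k2, segs, s1, s2, s3⟩ := ih a (b - 1) (l.drop t)
        (A.filter fun e => ¬ e ∈ l.take t) (B.filter fun e => e ∈ l.take t) (by omega)
        (disjoint_of_subset_left (filter_subset _ _)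
          (disjoint_of_subset_right (filter_subset _ _) hAB))
        (by
          intro e he
          rw [mem_filter] at he
          have h3 := hA e he.1
          have h4 := hcount t e
          omega)
        (by
          intro e he
          rw [mem_filter] at he
          have h3 := hB e he.1
          have h4 := hcount t e
          have h5 : 0 < (l.take t).count e := List.count_pos_iff.2 he.2
          omega)
      refine ⟨A', B', hA'.trans (filter_subset _ _), hB'.trans (filter_subset _ _), ?_, ?_,
        l.take t :: segs, ?_, ?_, ?_⟩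
      · rw [pow_succ]
        nlinarith
      · rw [pow_succ]
        nlinarith
      · rw [List.flatten_cons, s1, List.take_append_drop]
      · rw [List.length_cons]
        omega
      · intro s hs
        rcases List.mem_cons.1 hs with rfl | hs
        · right
          intro e he he'
          exact (mem_filter.1 (hA' he')).2 he
        · exact s3 s hs
    · refine ⟨A.filter fun e => ¬ e ∈ l, B, filter_subset _ _, Subset.refl _, ?_,
        Nat.le_mul_of_pos_left _ hpow, [l], by simp, by simp, ?_⟩
      · refine h.trans (Nat.mul_le_mul_right _ ?_)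
        rw [pow_succ]
        have := Nat.one_le_two_pow (n := c)
        omega
      · intro s hs
        rw [List.mem_singleton] at hs
        subst hs
        right
        intro e he he'
        exact (mem_filter.1 he').2 he

/-- half of the elements are read at most twice as often as on average -/
theorem average_reads (l : List α) (A : Finset α) (τ : ℕ) (h : l.length ≤ τ * A.card) :
    A.card ≤ 2 * (A.filter fun e => l.count e ≤ 2 * τ).card := by
  classical
  have h1 : ∑ e ∈ A, l.count e ≤ l.length := by
    calc ∑ e ∈ A, l.count e ≤ ∑ e ∈ A ∪ l.toFinset, l.count e :=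
          sum_le_sum_of_subset subset_union_left
      _ = l.length := by
          rw [← Multiset.coe_card, ← Multiset.sum_count_eq_card (s := A ∪ l.toFinset)]
          · simp
          · intro a ha
            exact mem_union_right _ (List.mem_toFinset.2 (by simpa using ha))
  have h2 : (2 * τ + 1) * (A.filter fun e => ¬ l.count e ≤ 2 * τ).card ≤ ∑ e ∈ A, l.count e := by
    rw [mul_comm, ← smul_eq_mul, ← sum_const]
    refine (sum_le_sum fun e he => ?_).trans (sum_le_sum_of_subset (filter_subset
      (fun e => ¬ l.count e ≤ 2 * τ) A))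
    have := (mem_filter.1 he).2
    omega
  have h3 : (A.filter fun e => l.count e ≤ 2 * τ).card +
      (A.filter fun e => ¬ l.count e ≤ 2 * τ).card = A.card := card_filter_add_card_filter_not _
  have h4 := h2.trans (h1.trans h)
  nlinarith

end Cut

section Structure

variable {N m n : ℕ} [NeZero N]

/-- the structure, for arbitrary sequences -/
theorem structure3 (h : 4 * N + m ≤ n) (l : List (Sym2 (Fin n))) (τ : ℕ)
    (hl : l.length ≤ τ * (N * N)) :
    ∃ (A B : Finset (Sym2 (Fin n))) (segs : List (List (Sym2 (Fin n))))
      (I : Finset (ZMod N × ZMod N)) (σ : ZMod N × ZMod N),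
      segs.flatten = l ∧ segs.length ≤ 4 * τ + 1 ∧
      (∀ s ∈ segs, Avoids s B ∨ Avoids s A) ∧ N * N ≤ 4 ^ (4 * τ + 1) * I.card ∧
      ∀ U ⊆ I, ∀ V ⊆ I, ∀ U' ⊆ I, ∀ V' ⊆ I,
        Mix A B (big (m := m) h σ U Vᶜ) (big h σ U' V'ᶜ) (big h σ U V'ᶜ) := by
  classical
  set A₀ : Finset (Sym2 (Fin n)) := univ.image (posA (N := N) (m := m) h) with hA₀
  set B₀ : Finset (Sym2 (Fin n)) := univ.image (posB (N := N) (m := m) h) with hB₀
  have hdis : Disjoint A₀ B₀ := by
    rw [disjoint_left]
    intro e he he'
    obtain ⟨x, -, rfl⟩ := mem_image.1 he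
    obtain ⟨y, -, hy⟩ := mem_image.1 he'
    exact pos_ne h x y hy.symm
  have hcardA : A₀.card = N * N := by
    rw [hA₀, card_image_of_injective _ (posA_inj h), card_univ, Fintype.card_prod, ZMod.card]
  have hcardB : B₀.card = N * N := by
    rw [hB₀, card_image_of_injective _ (posB_inj h), card_univ, Fintype.card_prod, ZMod.card]
  have hrA := average_reads l A₀ τ (by rwa [hcardA])
  have hrB := average_reads l B₀ τ (by rwa [hcardB])
  obtain ⟨A, B, hA, hB, hcA, hcB, segs, hs1, hs2, hs3⟩ := obl (4 * τ) (2 * τ) (2 * τ) l
    (A₀.filter fun e => l.count e ≤ 2 * τ) (B₀.filter fun e => l.count e ≤ 2 * τ) (by ring)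
    (disjoint_of_subset_left (filter_subset _ _) (disjoint_of_subset_right (filter_subset _ _) hdis))
    (fun e he => (mem_filter.1 he).2) (fun e he => (mem_filter.1 he).2)
  have hcA' : N * N ≤ 2 ^ (4 * τ + 1) * A.card := by
    rw [← hcardA, pow_succ]
    nlinarith
  have hcB' : N * N ≤ 2 ^ (4 * τ + 1) * B.card := by
    rw [← hcardB, pow_succ]
    nlinarith
  set X : Finset (ZMod N × ZMod N) := univ.filter fun x => posA (m := m) h x ∈ A with hX
  set Y : Finset (ZMod N × ZMod N) := univ.filter fun x => posB (m := m) h x ∈ B with hY
  have hXA : A.card ≤ X.card := by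
    have : A ⊆ X.image (posA h) := by
      intro e he
      obtain ⟨x, -, rfl⟩ := mem_image.1 ((mem_filter.1 (hA he)).1)
      exact mem_image_of_mem _ (mem_filter.2 ⟨mem_univ _, he⟩)
    exact (card_le_card this).trans card_image_le
  have hYB : B.card ≤ Y.card := by
    have : B ⊆ Y.image (posB h) := by
      intro e he
      obtain ⟨x, -, rfl⟩ := mem_image.1 ((mem_filter.1 (hB he)).1)
      exact mem_image_of_mem _ (mem_filter.2 ⟨mem_univ _, he⟩)
    exact (card_le_card this).trans card_image_le
  obtain ⟨σ, hσ⟩ := shift X Y
  refine ⟨A, B, segs, X.filter fun x => x + σ ∈ Y, σ, hs1, hs2, hs3, ?_, ?_⟩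
  · have hN : 0 < N * N := Nat.mul_pos (NeZero.pos N) (NeZero.pos N)
    refine Nat.le_of_mul_le_mul_left ?_ hN
    have h4 : (4 : ℕ) ^ (4 * τ + 1) = 2 ^ (4 * τ + 1) * 2 ^ (4 * τ + 1) := by
      rw [← mul_pow]
      norm_num
    calc N * N * (N * N) ≤ (2 ^ (4 * τ + 1) * A.card) * (2 ^ (4 * τ + 1) * B.card) :=
          Nat.mul_le_mul hcA' hcB'
      _ ≤ (2 ^ (4 * τ + 1) * X.card) * (2 ^ (4 * τ + 1) * Y.card) :=
          Nat.mul_le_mul (Nat.mul_le_mul_left _ hXA) (Nat.mul_le_mul_left _ hYB)
      _ = 4 ^ (4 * τ + 1) * (X.card * Y.card) := by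
          rw [h4]
          ring
      _ ≤ 4 ^ (4 * τ + 1) * (N * N * (X.filter fun x => x + σ ∈ Y).card) :=
          Nat.mul_le_mul_left _ hσ
      _ = _ := by ring
  · set I := X.filter fun x => x + σ ∈ Y with hI
    intro U hU V hV U' hU' V' hV'
    have hb : ∀ W W' : Finset (ZMod N × ZMod N), W ⊆ I → ∀ e : Sym2 (Fin n), e ∉ B →
        ∀ x : ZMod N × ZMod N, e = posB (m := m) h x → (x.1 - σ.1, x.2 - σ.2) ∉ Wᶜ →
          (x.1 - σ.1, x.2 - σ.2) ∉ W'ᶜ := by
      intro W W' hW e he x hx hV
      exfalso
      rw [mem_compl, not_not] at hV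
      have h1 := (mem_filter.1 (hW hV)).2
      have h2 : (x.1 - σ.1, x.2 - σ.2) + σ = x := by
        ext <;> simp
      rw [h2] at h1
      apply he
      rw [hx]
      exact (mem_filter.1 h1).2
    have ha : ∀ W W' : Finset (ZMod N × ZMod N), W ⊆ I → ∀ e : Sym2 (Fin n), e ∉ A →
        ∀ x : ZMod N × ZMod N, e = posA (m := m) h x → x ∈ W → x ∈ W' := by
      intro W W' hWI e he x hx hV
      exfalso
      have h1 := (mem_filter.1 (hWI hV)).1
      apply he
      rw [hx]
      exact (mem_filter.1 h1).2
    refine ⟨fun e he => ⟨?_, ?_⟩, fun e he => ⟨?_, ?_⟩⟩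
    · exact big_sub h σ _ _ _ _ e (fun _ _ hx => hx) (hb V' V hV' e he)
    · exact big_sub h σ _ _ _ _ e (fun _ _ hx => hx) (hb V V' hV e he)
    · exact big_sub h σ _ _ _ _ e (ha U U' hU e he) (fun _ _ hx => hx)
    · exact big_sub h σ _ _ _ _ e (ha U' U hU' e he) (fun _ _ hx => hx)

end Structure

end Pool.Agent.KS6_49.SR
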