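import Pool.Agent.KS6_49.SR.Two
import Pool.Agent.KS6_49.SR.Raz3

/-!
Two-sided error: the bounds.
-/

set_option autoImplicit false

namespace Pool.Agent.KS6_49.SR

open Finset Filter

section Core

variable {N m n q v d : ℕ} [NeZero N]

theorem two_core (h : 4 * N + m ≤ n) (os ps : List (List (Sym2 (Fin n))))
    (hos : ∀ l ∈ os, l.Nodup) (hps : ∀ l ∈ ps, l ∈ os)
    {w : ℕ} {Ω : Type} [Finite Ω] [Nonempty Ω] (R : Ω → Reduction n q v d)
    (hR : TwoSided (m + 4) fun ω => (R ω).Accepts)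
    (hr : ∀ ω hist cl, Decided ps.flatten w ((R ω).clause hist cl)) :
    ∃ K : ℕ, N * N ≤ 4 ^ os.length * K ∧
      (1.003 : ℝ) ^ K ≤ 24 * (((w ^ (2 * ps.length)) ^ (q * (2 * v + 1) ^ d) : ℕ) : ℝ) ^ 80 := by
  classical
  obtain ⟨A, B, segs, I, σ, hs1, hs2, hs3, hI, hmix⟩ := structure2 (N := N) h os ps hos hps
  refine ⟨I.card, hI, ?_⟩
  set r := w ^ (2 * ps.length) with hrdef
  have hdet : ∀ ω hist cl, Det A B r ((R ω).clause hist cl) := by
    intro ω hist cl
    have h1 := hr ω hist cl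
    rw [← hs1] at h1
    have h2 := decided_det hs3 h1
    rwa [hs2] at h2
  have hdat := fun ω => red_det (hdet ω)
  choose dat hacc hmx using hdat
  let U : Finset I → Finset (ZMod N × ZMod N) := fun x => x.map (Function.Embedding.subtype _)
  have hU : ∀ x : Finset I, U x ⊆ I := by
    intro x e he
    obtain ⟨a, -, rfl⟩ := mem_map.1 he
    exact a.2
  let G : Finset I → Finset I → SimpleGraph (Fin n) := fun x y => big (m := m) h σ (U x) (U y)ᶜ
  have hcl : ∀ x y, HasClique (m + 4) (G x y) ↔ ¬ Disjoint x y := by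
    intro x y
    change HasClique (m + 4) (big (m := m) h σ (U x) (U y)ᶜ) ↔ _
    rw [big_clique, not_iff_not, subset_compl_iff_disjoint_right]
    exact disjoint_map _
  have hrej : ∀ ω x y, (∃ G', dat ω G' = dat ω (G x y) ∧ ¬ (R ω).Accepts G') ↔
      ¬ (R ω).Accepts (G x y) := by
    intro ω x y
    constructor
    · rintro ⟨G', h1, h2⟩ h3
      exact h2 ((hacc ω _ _ h1).2 h3)
    · intro h1
      exact ⟨_, rfl, h1⟩
  have key := Raz.average3 (ι := I) (D := Fin q → Clause v d → Fin r)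
    (fun ω x y => dat ω (G x y))
    (by
      intro ω x y x' y' he
      exact hmx ω _ _ _ (hmix _ (hU x) _ (hU y) _ (hU x') _ (hU y')) he)
    (fun ω δ => ∃ G', dat ω G' = δ ∧ ¬ (R ω).Accepts G')
    (by
      intro x y hxy
      have h3 := hR.1 (G x y) ((hcl x y).2 hxy)
      rwa [← Nat.card_congr (Equiv.subtypeEquivRight fun ω => hrej ω x y)] at h3)
    (by
      intro x y hxy
      have h3 := hR.2 (G x y) (fun h4 => (hcl x y).1 h4 hxy)
      have h5 : ∀ ω, (¬ ∃ G', dat ω G' = dat ω (G x y) ∧ ¬ (R ω).Accepts G') ↔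
          (R ω).Accepts (G x y) := by
        intro ω
        rw [hrej, not_not]
      rwa [← Nat.card_congr (Equiv.subtypeEquivRight h5)] at h3)
  rw [Fintype.card_fun, Fintype.card_fun, Fintype.card_fin, Fintype.card_fin,
    card_clause, ← pow_mul, mul_comm _ q, Fintype.card_coe] at key
  exact key

omit [NeZero N] in
theorem two_bound {k : ℕ} (hk : 4 ≤ k) (h : 4 * N + (k - 4) ≤ n)
    (os ps : List (List (Sym2 (Fin n)))) (hos : ∀ l ∈ os, l.Nodup) (hps : ∀ l ∈ ps, l ∈ os)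
    {s : ℕ} {Ω : Type} [Finite Ω] [Nonempty Ω] (R : Ω → Reduction n q v d)
    (hR : TwoSided k fun ω => (R ω).Accepts)
    (hr : ∀ ω hist cl, Decided ps.flatten (2 ^ s) ((R ω).clause hist cl)) :
    N ^ 2 ≤ 4 ^ os.length * (1250 + 40000 * (q * (2 * v + 1) ^ d * (ps.length * s))) := by
  rcases Nat.eq_zero_or_pos N with h0 | h0
  · rw [h0]
    simp
  · have : NeZero N := ⟨h0.ne'⟩
    obtain ⟨m, rfl⟩ : ∃ m, k = m + 4 := ⟨k - 4, by omega⟩
    obtain ⟨K, h1, h2⟩ := two_core (N := N) (m := m) (by omega) os ps hos hps R hR hr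
    rw [sq]
    refine h1.trans (Nat.mul_le_mul_left _ ?_)
    set X := q * (2 * v + 1) ^ d * (ps.length * s) with hX
    by_contra hcon
    push Not at hcon
    have e1 : (((2 ^ s) ^ (2 * ps.length)) ^ (q * (2 * v + 1) ^ d) : ℕ) = 2 ^ (2 * X) := by
      rw [← pow_mul, ← pow_mul, hX]
      congr 1
      ring
    rw [e1] at h2
    have h3 : (2 : ℝ) ^ (5 + 160 * X) ≤ (1.003 : ℝ) ^ K := by
      calc (2 : ℝ) ^ (5 + 160 * X) ≤ ((1.003 : ℝ) ^ 250) ^ (5 + 160 * X) := by
            apply pow_le_pow_left₀ (by norm_num)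
            norm_num
        _ = (1.003 : ℝ) ^ (1250 + 40000 * X) := by
            rw [← pow_mul]
            congr 1
            ring
        _ ≤ _ := pow_le_pow_right₀ (by norm_num) hcon.le
    have h4 : (24 : ℝ) * (((2 : ℕ) ^ (2 * X) : ℕ) : ℝ) ^ 80 < 2 ^ (5 + 160 * X) := by
      push_cast
      rw [← pow_mul, pow_add, show 2 * X * 80 = 160 * X by ring]
      have : (0 : ℝ) < 2 ^ (160 * X) := by positivity
      nlinarith
    linarith

end Core

theorem log_bound2 (C ε : ℝ) (hC : 0 ≤ C) (hε : 0 < ε) (d : ℕ) :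
    ∀ᶠ n : ℕ in atTop, (C * Real.log n) ^ d ≤ (n : ℝ) ^ ε / 16777216 := by
  have h1 := isLittleO_log_rpow_rpow_atTop (s := ε) (d : ℝ) hε
  have hc : 0 < 1 / (16777216 * (C ^ d + 1)) := by positivity
  have h2 := (h1.bound hc)
  have h3 := tendsto_natCast_atTop_atTop (R := ℝ) |>.eventually h2
  filter_upwards [h3, eventually_ge_atTop 1] with n hn hn1
  have hn1' : (1 : ℝ) ≤ n := by exact_mod_cast hn1
  have hlog : 0 ≤ Real.log n := Real.log_nonneg hn1'
  rw [Real.rpow_natCast, Real.norm_of_nonneg (by positivity), Real.norm_of_nonneg (by positivity)]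
    at hn
  calc (C * Real.log n) ^ d = C ^ d * Real.log n ^ d := mul_pow _ _ _
    _ ≤ C ^ d * (1 / (16777216 * (C ^ d + 1)) * (n : ℝ) ^ ε) := by gcongr
    _ = (C ^ d / (C ^ d + 1)) * ((n : ℝ) ^ ε / 16777216) := by field_simp
    _ ≤ 1 * ((n : ℝ) ^ ε / 16777216) := by
        gcongr
        rw [div_le_one (by positivity)]
        linarith
    _ = _ := one_mul _

theorem asym2 (f g : ℕ → ℕ) (c d k : ℕ) (ε : ℝ) (hε : 0 < ε) :
    ∃ n0 : ℕ, ∀ n ≥ n0, 4 * (n / 8) + (k - 4) ≤ n ∧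
      ∀ v : ℕ, (v : ℝ) ≤ g k * (Real.logb 2 (f k * (n : ℝ) ^ c) + 1) → ∀ q r p s : ℕ,
        (n / 8) ^ 2 ≤ 4 ^ r * (1250 + 40000 * (q * (2 * v + 1) ^ d * (p * s))) →
        (n : ℝ) ^ (2 - ε) ≤ 4 ^ r * (1 + q * p * s) := by
  set B : ℝ := |Real.logb 2 (f k)| with hB
  set C : ℝ := 2 * g k * (B + c / Real.log 2 + 1) + 1 with hC
  have hl2 : 0 < Real.log 2 := Real.log_pos (by norm_num)
  have hB0 : 0 ≤ B := abs_nonneg _
  have hC0 : 0 ≤ C := by positivity
  obtain ⟨n1, hn1⟩ := eventually_atTop.1 (log_bound2 C ε hC0 hε d)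
  refine ⟨max n1 (max 16 (2 * k)), ?_⟩
  intro n hn
  have hn1' : n1 ≤ n := le_trans (le_max_left _ _) hn
  have hn8 : 16 ≤ n := le_trans (le_trans (le_max_left _ _) (le_max_right _ _)) hn
  have hn4 : 2 * k ≤ n := le_trans (le_trans (le_max_right _ _) (le_max_right _ _)) hn
  refine ⟨by omega, ?_⟩
  intro v hv q r p s h1
  have hnR : (16 : ℝ) ≤ n := by exact_mod_cast hn8
  have hn0 : (0 : ℝ) < n := by linarith
  have hNR : (n : ℝ) / 16 ≤ ((n / 8 : ℕ) : ℝ) := by
    have h2 : n ≤ 16 * (n / 8) := by omega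
    have h3 : (n : ℝ) ≤ 16 * ((n / 8 : ℕ) : ℝ) := by exact_mod_cast h2
    linarith
  have hlog1 : 1 ≤ Real.log n := by
    rw [Real.le_log_iff_exp_le hn0]
    have := Real.exp_one_lt_d9
    linarith
  have hlogb : Real.logb 2 (f k * (n : ℝ) ^ c) ≤ (B + c / Real.log 2) * Real.log n := by
    rcases Nat.eq_zero_or_pos (f k) with h0 | h0
    · rw [h0]
      simp only [Nat.cast_zero, zero_mul, Real.logb_zero]
      positivity
    · have hf0 : ((f k : ℕ) : ℝ) ≠ 0 := by
        exact_mod_cast h0.ne'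
      rw [Real.logb_mul hf0 (by positivity), Real.logb_pow]
      have h2 : Real.logb 2 (f k) ≤ B := le_abs_self _
      have h3 : Real.logb 2 (n : ℝ) = Real.log n / Real.log 2 := rfl
      rw [h3]
      have h4 : B ≤ B * Real.log n := by nlinarith
      have h5 : (c : ℝ) * (Real.log n / Real.log 2) = c / Real.log 2 * Real.log n := by ring
      rw [h5]
      nlinarith
  have hv2 : 2 * (v : ℝ) + 1 ≤ C * Real.log n := by
    have h2 : (v : ℝ) ≤ g k * ((B + c / Real.log 2 + 1) * Real.log n) := by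
      refine hv.trans ?_
      gcongr
      linarith
    calc 2 * (v : ℝ) + 1 ≤ 2 * (g k * ((B + c / Real.log 2 + 1) * Real.log n)) + Real.log n := by
          linarith
      _ = C * Real.log n := by
          rw [hC]
          ring
  have hvd : (2 * (v : ℝ) + 1) ^ d ≤ (n : ℝ) ^ ε / 16777216 := by
    refine le_trans ?_ (hn1 n hn1')
    gcongr
  have hone : (1 : ℝ) ≤ (n : ℝ) ^ ε / 16777216 := by
    refine le_trans ?_ hvd
    apply one_le_pow₀
    have : (0 : ℝ) ≤ v := Nat.cast_nonneg v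
    linarith
  have h6 : ((n / 8 : ℕ) : ℝ) ^ 2 ≤
      4 ^ r * (1250 + 40000 * (q * (2 * (v : ℝ) + 1) ^ d * (p * s))) := by
    exact_mod_cast h1
  have hps : (0 : ℝ) ≤ p * s := by positivity
  have h9 : (n : ℝ) ^ 2 / 256 ≤
      4 ^ r * (((n : ℝ) ^ ε / 16777216) * (40000 * (1 + q * p * s))) := by
    calc (n : ℝ) ^ 2 / 256 = (n / 16) ^ 2 := by ring
      _ ≤ ((n / 8 : ℕ) : ℝ) ^ 2 := by gcongr
      _ ≤ 4 ^ r * (1250 + 40000 * (q * (2 * (v : ℝ) + 1) ^ d * (p * s))) := h6
      _ ≤ 4 ^ r * (((n : ℝ) ^ ε / 16777216) * 40000 +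
          40000 * (q * ((n : ℝ) ^ ε / 16777216) * (p * s))) := by
          gcongr
          linarith
      _ = _ := by ring
  have hne : 0 < (n : ℝ) ^ ε := by positivity
  rw [Real.rpow_sub hn0, div_le_iff₀ hne]
  have h10 : (n : ℝ) ^ (2 : ℝ) = (n : ℝ) ^ 2 := Real.rpow_two _
  rw [h10]
  have h11 : (0 : ℝ) ≤ 4 ^ r * ((n : ℝ) ^ ε * (1 + q * p * s)) := by positivity
  nlinarith

section Upper

variable {n : ℕ}

open Classical in
/-- a machine that stores everything -/
noncomputable def store (L : ℕ) : ℕ → Fin (2 ^ L) → Prop → Fin (2 ^ L) := fun _ a β =>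
  ⟨(2 * a.1 + (if β then 1 else 0)) % 2 ^ L, Nat.mod_lt _ (by positivity)⟩

theorem store_inj (L : ℕ) {G G' : SimpleGraph (Fin n)} (l : List (Sym2 (Fin n))) :
    ∀ (t : ℕ) (a a' : Fin (2 ^ L)), t + l.length = L → a.1 < 2 ^ t → a'.1 < 2 ^ t →
      runD (store L) G t l a = runD (store L) G' t l a' →
      a = a' ∧ ∀ e ∈ l, (e ∈ G.edgeSet ↔ e ∈ G'.edgeSet) := by
  classical
  induction l with
  | nil =>
    intro t a a' _ _ _ h
    exact ⟨h, by simp⟩
  | cons e l ih =>
    intro t a a' hL ha ha' h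
    rw [List.length_cons] at hL
    have hle : 2 ^ (t + 1) ≤ 2 ^ L := Nat.pow_le_pow_right (by norm_num) (by omega)
    have hp : 2 ^ (t + 1) = 2 * 2 ^ t := by ring
    have key : ∀ (b : Fin (2 ^ L)) (β : Prop), b.1 < 2 ^ t →
        (store L t b β).1 = 2 * b.1 + (if β then 1 else 0) ∧ (store L t b β).1 < 2 ^ (t + 1) := by
      intro b β hb
      have h1 : 2 * b.1 + (if β then 1 else 0) < 2 ^ (t + 1) := by
        rw [hp]
        split_ifs <;> omega
      have h2 : (store L t b β).1 = 2 * b.1 + (if β then 1 else 0) := by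
        unfold store
        exact Nat.mod_eq_of_lt (lt_of_lt_of_le h1 hle)
      exact ⟨h2, h2 ▸ h1⟩
    obtain ⟨k1, k2⟩ := key a (e ∈ G.edgeSet) ha
    obtain ⟨k3, k4⟩ := key a' (e ∈ G'.edgeSet) ha'
    obtain ⟨h3, h4⟩ := ih (t + 1) _ _ (by omega) k2 k4 h
    have h5 := k1.symm.trans ((congrArg Fin.val h3).trans k3)
    by_cases b1 : e ∈ G.edgeSet
    · by_cases b2 : e ∈ G'.edgeSet
      · rw [if_pos b1, if_pos b2] at h5
        refine ⟨Fin.ext (by omega), ?_⟩
        intro e' he'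
        rcases List.mem_cons.1 he' with rfl | he'
        · exact iff_of_true b1 b2
        · exact h4 e' he'
      · rw [if_pos b1, if_neg b2] at h5
        omega
    · by_cases b2 : e ∈ G'.edgeSet
      · rw [if_neg b1, if_pos b2] at h5
        omega
      · rw [if_neg b1, if_neg b2] at h5
        refine ⟨Fin.ext (by omega), ?_⟩
        intro e' he'
        rcases List.mem_cons.1 he' with rfl | he'
        · exact iff_of_false b1 b2
        · exact h4 e' he'

/-- one pass that stores the graph -/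
theorem decided_all (l : List (Sym2 (Fin n))) (hl : ∀ x y : Fin n, x ≠ y → s(x, y) ∈ l)
    (f : SimpleGraph (Fin n) → Prop) : Decided l (2 ^ l.length) f := by
  refine ⟨store l.length, ⟨0, by positivity⟩,
    {b | ∃ G, f G ∧ runD (store l.length) G 0 l ⟨0, by positivity⟩ = b}, fun G => ?_⟩
  constructor
  · intro h
    exact ⟨G, h, rfl⟩
  · rintro ⟨G', h1, h2⟩
    have h3 := (store_inj l.length l 0 _ _ (by simp) (by simp) (by simp) h2).2
    have h4 : G' = G := by
      ext x y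
      by_cases hxy : x = y
      · subst hxy
        simp
      · have := h3 _ (hl x y hxy)
        rwa [SimpleGraph.mem_edgeSet, SimpleGraph.mem_edgeSet] at this
    rwa [← h4]

/-- one pass and one question -/
theorem upper_store (k v d : ℕ) (l : List (Sym2 (Fin n)))
    (hl : ∀ x y : Fin n, x ≠ y → s(x, y) ∈ l) :
    ∃ R : Reduction n 1 v d, (∀ G, R.Accepts G ↔ HasClique k G) ∧
      ∀ h cl, Decided l (2 ^ l.length) (R.clause h cl) := by
  classical
  refine ⟨⟨fun _ cl G => cl = (fun _ => none) ∧ ¬ HasClique k G, fun h => h = [true]⟩,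
    fun G => ?_, fun h cl => decided_all l hl _⟩
  unfold Reduction.Accepts
  simp only [Reduction.answers, List.nil_append, List.cons.injEq, and_true, decide_eq_true_eq]
  constructor
  · rintro ⟨a, ha⟩
    by_contra hn
    obtain ⟨i, x, s, h1, -⟩ := ha (fun _ => none) ⟨rfl, hn⟩
    simp at h1
  · intro h
    refine ⟨fun _ => true, ?_⟩
    rintro cl ⟨-, h2⟩
    exact absurd h h2

end Upper

end Pool.Agent.KS6_49.SR
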