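import Pool.Agent.KS6_49.SR.Obl
import Pool.Agent.KS6_49.SR.Adapt
import Pool.Agent.KS6_49.SR.Two3

/-!
Oblivious branching programs: the bounds.
-/

set_option autoImplicit false

namespace Pool.Agent.KS6_49.SR

open Finset Filter

theorem pow_seg (w : ℕ) {a b : ℕ} (h : a ≤ b) (ha : 0 < a) : w ^ a ≤ w ^ b := by
  rcases Nat.eq_zero_or_pos w with rfl | hw
  · rw [zero_pow ha.ne']
    exact Nat.zero_le _
  · exact Nat.pow_le_pow_right hw h

theorem Cover.mono {n : ℕ} {A B : Finset (Sym2 (Fin n))} {r r' : ℕ}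
    {f : SimpleGraph (Fin n) → Prop} (h : Cover A B r f) (hr : r ≤ r') : Cover A B r' f := by
  obtain ⟨g, h1, h2⟩ := h
  refine ⟨fun i G => ∃ hi : i.1 < r, g ⟨i.1, hi⟩ G, fun G => ?_, ?_⟩
  · rw [h1 G]
    constructor
    · rintro ⟨i, hi⟩
      exact ⟨⟨i.1, lt_of_lt_of_le i.2 hr⟩, i.2, hi⟩
    · rintro ⟨i, hi, h3⟩
      exact ⟨_, h3⟩
  · rintro i G G' H hm ⟨hi, h3⟩ ⟨_, h4⟩
    exact ⟨hi, h2 _ G G' H hm h3 h4⟩

theorem Det.mono {n : ℕ} {A B : Finset (Sym2 (Fin n))} {r r' : ℕ}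
    {f : SimpleGraph (Fin n) → Prop} (h : Det A B r f) (hr : r ≤ r') : Det A B r' f := by
  obtain ⟨tr, dec, h1, h2⟩ := h
  refine ⟨fun G => Fin.castLE hr (tr G), fun j => ∃ i, Fin.castLE hr i = j ∧ dec i, fun G => ?_, ?_⟩
  · rw [h1 G]
    constructor
    · intro h3
      exact ⟨_, rfl, h3⟩
    · rintro ⟨i, hi, h3⟩
      rwa [← Fin.castLE_injective hr hi]
  · intro G G' H hm he
    beta_reduce at he ⊢
    rw [h2 G G' H hm (Fin.castLE_injective hr he)]

section Core

variable {N m n q v d : ℕ} [NeZero N]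

/-- **Adaptive reductions.** -/
theorem obl_adaptive (h : 4 * N + m ≤ n) (l : List (Sym2 (Fin n))) (τ : ℕ)
    (hl : l.length ≤ τ * (N * N))
    {w μ : ℕ} {Ω : Type} [Finite Ω] [Nonempty Ω] (R : Ω → Reduction n q v d)
    (hR : OneSided (m + 4) μ fun ω => (R ω).Accepts)
    (hr : ∀ ω hist cl, Recognised l w ((R ω).clause hist cl))
    (hr' : ∀ ω hist cl, Recognised l w fun G => ¬ (R ω).clause hist cl G) :
    ∃ M : ℕ, N * N ≤ 4 ^ (4 * τ + 1) * M ∧
      2 ^ M ≤ 2 ^ μ * (2 * w ^ (4 * τ + 3)) ^ (q * (2 * v + 1) ^ d) := by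
  classical
  obtain ⟨A, B, segs, I, σ, hs1, hs2, hs3, hI, hmix'⟩ := structure3 (N := N) h l τ hl
  have hmix : ∀ U ⊆ I, ∀ U' ⊆ I, Mix A B (big (m := m) h σ U (U ∪ Iᶜ))
      (big (m := m) h σ U' (U' ∪ Iᶜ)) (big (m := m) h σ U (U' ∪ Iᶜ)) := by
    intro U hU U' hU'
    have hc : ∀ V : Finset (ZMod N × ZMod N), (I \ V)ᶜ = V ∪ Iᶜ := by
      intro V
      ext x
      simp only [Finset.mem_compl, Finset.mem_sdiff, Finset.mem_union]
      tauto
    have h1 := hmix' U hU (I \ U) sdiff_subset U' hU' (I \ U') sdiff_subset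
    rwa [hc, hc] at h1
  refine ⟨I.card, hI, ?_⟩
  set r := w ^ (4 * τ + 3) with hrdef
  have hcov : ∀ ω hist cl, Cover A B r ((R ω).clause hist cl) := by
    intro ω hist cl
    have h1 := hr ω hist cl
    rw [← hs1] at h1
    have h2 := recognised_cover hs3 h1
    exact h2.mono (pow_seg _ (by omega) (by omega))
  have hcov' : ∀ ω hist cl, Cover A B r fun G => ¬ (R ω).clause hist cl G := by
    intro ω hist cl
    have h1 := hr' ω hist cl
    rw [← hs1] at h1
    have h2 := recognised_cover hs3 h1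
    exact h2.mono (pow_seg _ (by omega) (by omega))
  choose g hg1 hg2 using hcov
  choose g' hg1' hg2' using hcov'
  have hno : ∀ U : Finset (ZMod N × ZMod N), ¬ HasClique (m + 4) (big (m := m) h σ U (U ∪ Iᶜ)) := by
    intro U
    rw [big_clique, not_not]
    exact subset_union_left
  have key := count (D := Fin q → Clause v d → Fin r ⊕ Fin r) I μ
    (fun ω U => ¬ (R ω).Accepts (big (m := m) h σ U (U ∪ Iᶜ)))
    (fun U _ => hR.2 _ (hno U)) (by
      intro ω
      have hex : ∀ (G : SimpleGraph (Fin n)) (i : Fin q) (cl : Clause v d),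
          ∃ x : Fin r ⊕ Fin r, (∀ j, x = Sum.inl j → g ω ((R ω).answers G i) cl j G) ∧
            ∀ j, x = Sum.inr j → g' ω ((R ω).answers G i) cl j G := by
        intro G i cl
        by_cases hc : (R ω).clause ((R ω).answers G i) cl G
        · obtain ⟨j, hj⟩ := (hg1 _ _ _ _).1 hc
          refine ⟨Sum.inl j, fun j' hj' => ?_, fun j' hj' => ?_⟩
          · rw [Sum.inl.injEq] at hj'
            rwa [← hj']
          · exact absurd hj' (by simp)
        · obtain ⟨j, hj⟩ := (hg1' _ _ _ _).1 hc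
          refine ⟨Sum.inr j, fun j' hj' => ?_, fun j' hj' => ?_⟩
          · exact absurd hj' (by simp)
          · rw [Sum.inr.injEq] at hj'
            rwa [← hj']
      choose dat hd hd' using hex
      refine ⟨fun U => dat (big (m := m) h σ U (U ∪ Iᶜ)), ?_⟩
      intro U hU U' hU' hQ hQ' hD
      have hsame := fun (G G' H : SimpleGraph (Fin n)) (hm : Mix A B G G' H)
          (he : dat G = dat G') =>
        (same (q := q) (g ω) (g' ω) (hg1 ω) (hg2 ω) (hg1' ω) (hg2' ω) dat hd hd' hm he q le_rfl).1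
      have hall : ∀ G G' H : SimpleGraph (Fin n), Mix A B G G' H → dat G = dat G' →
          ¬ (R ω).Accepts G → ¬ HasClique (m + 4) H := by
        intro G G' H hm he hG hcl
        apply hG
        have h3 := hR.1 H hcl ω
        unfold Reduction.Accepts at h3 ⊢
        rwa [hsame G G' H hm he]
      apply mixed hU hU'
      · by_contra hn
        exact hall _ _ _ (hmix U hU U' hU') hD hQ ((big_clique h σ _ _).2 hn)
      · by_contra hn
        exact hall _ _ _ (hmix U' hU' U hU) hD.symm hQ' ((big_clique h σ _ _).2 hn))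
  rw [Fintype.card_fun, Fintype.card_fun, Fintype.card_sum, Fintype.card_fin, Fintype.card_fin,
    card_clause, ← pow_mul, ← two_mul, mul_comm _ q] at key
  exact key

/-- **Many-one reductions.** -/
theorem obl_manyone (h : 4 * N + m ≤ n) (l : List (Sym2 (Fin n))) (τ : ℕ)
    (hl : l.length ≤ τ * (N * N))
    {v d w μ : ℕ} {Ω : Type} [Finite Ω] [Nonempty Ω]
    (F : Ω → Clause v d → SimpleGraph (Fin n) → Prop)
    (hF : OneSided (m + 4) μ fun ω G => Sat fun cl => F ω cl G)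
    (hr : ∀ ω cl, Recognised l w (F ω cl)) :
    ∃ M : ℕ, N * N ≤ 4 ^ (4 * τ + 1) * M ∧
      2 ^ M ≤ 2 ^ μ * (w ^ (4 * τ + 3) + 1) ^ ((2 * v + 1) ^ d) := by
  classical
  obtain ⟨A, B, segs, I, σ, hs1, hs2, hs3, hI, hmix'⟩ := structure3 (N := N) h l τ hl
  have hmix : ∀ U ⊆ I, ∀ U' ⊆ I, Mix A B (big (m := m) h σ U (U ∪ Iᶜ))
      (big (m := m) h σ U' (U' ∪ Iᶜ)) (big (m := m) h σ U (U' ∪ Iᶜ)) := by
    intro U hU U' hU'
    have hc : ∀ V : Finset (ZMod N × ZMod N), (I \ V)ᶜ = V ∪ Iᶜ := by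
      intro V
      ext x
      simp only [Finset.mem_compl, Finset.mem_sdiff, Finset.mem_union]
      tauto
    have h1 := hmix' U hU (I \ U) sdiff_subset U' hU' (I \ U') sdiff_subset
    rwa [hc, hc] at h1
  refine ⟨I.card, hI, ?_⟩
  set r := w ^ (4 * τ + 3) with hrdef
  have hcov : ∀ ω cl, Cover A B r (F ω cl) := by
    intro ω cl
    have h1 := hr ω cl
    rw [← hs1] at h1
    have h2 := recognised_cover hs3 h1
    exact h2.mono (pow_seg _ (by omega) (by omega))
  choose g hg1 hg2 using hcov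
  have hno : ∀ U : Finset (ZMod N × ZMod N), ¬ HasClique (m + 4) (big (m := m) h σ U (U ∪ Iᶜ)) := by
    intro U
    rw [big_clique, not_not]
    exact subset_union_left
  have key := count (D := Clause v d → Option (Fin r)) I μ
    (fun ω U => ¬ Sat fun cl => F ω cl (big (m := m) h σ U (U ∪ Iᶜ)))
    (fun U _ => hF.2 _ (hno U)) (by
      intro ω
      refine ⟨fun U cl => if hx : ∃ i, g ω cl i (big (m := m) h σ U (U ∪ Iᶜ)) then
        some hx.choose else none, ?_⟩
      intro U hU U' hU' hQ hQ' hD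
      -- all clauses of the two formulas are the same, with the same rectangles
      have hall : ∀ H, Mix A B (big (m := m) h σ U (U ∪ Iᶜ)) (big (m := m) h σ U' (U' ∪ Iᶜ)) H →
          ¬ HasClique (m + 4) H := by
        intro H hH hcl
        obtain ⟨a, ha⟩ := hF.1 H hcl ω
        apply hQ
        refine ⟨a, fun cl hcl' => ha cl ?_⟩
        obtain ⟨i, hi⟩ := (hg1 ω cl _).1 hcl'
        have hx : ∃ i, g ω cl i (big (m := m) h σ U (U ∪ Iᶜ)) := ⟨i, hi⟩
        have h3 := congrFun hD cl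
        simp only [dif_pos hx] at h3
        by_cases hy : ∃ i, g ω cl i (big (m := m) h σ U' (U' ∪ Iᶜ))
        · rw [dif_pos hy, Option.some.injEq] at h3
          rw [hg1]
          have h4 := hx.choose_spec
          have h5 := hy.choose_spec
          rw [← h3] at h5
          exact ⟨_, hg2 ω cl _ _ _ _ hH h4 h5⟩
        · rw [dif_neg hy] at h3
          exact absurd h3 (by simp)
      have hall' : ∀ H, Mix A B (big (m := m) h σ U' (U' ∪ Iᶜ)) (big (m := m) h σ U (U ∪ Iᶜ)) H →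
          ¬ HasClique (m + 4) H := by
        intro H hH hcl
        obtain ⟨a, ha⟩ := hF.1 H hcl ω
        apply hQ'
        refine ⟨a, fun cl hcl' => ha cl ?_⟩
        obtain ⟨i, hi⟩ := (hg1 ω cl _).1 hcl'
        have hx : ∃ i, g ω cl i (big (m := m) h σ U' (U' ∪ Iᶜ)) := ⟨i, hi⟩
        have h3 := congrFun hD cl
        simp only [dif_pos hx] at h3
        by_cases hy : ∃ i, g ω cl i (big (m := m) h σ U (U ∪ Iᶜ))
        · rw [dif_pos hy, Option.some.injEq] at h3
          rw [hg1]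
          have h4 := hx.choose_spec
          have h5 := hy.choose_spec
          rw [h3] at h5
          exact ⟨_, hg2 ω cl _ _ _ _ hH h4 h5⟩
        · rw [dif_neg hy] at h3
          exact absurd h3 (by simp)
      apply mixed hU hU'
      · by_contra hn
        exact hall _ (hmix U hU U' hU') ((big_clique h σ _ _).2 hn)
      · by_contra hn
        exact hall' _ (hmix U' hU' U hU) ((big_clique h σ _ _).2 hn))
  rwa [Fintype.card_fun, Fintype.card_option, Fintype.card_fin, card_clause] at key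


theorem obl_two_core (h : 4 * N + m ≤ n) (l : List (Sym2 (Fin n))) (τ : ℕ)
    (hl : l.length ≤ τ * (N * N))
    {w : ℕ} {Ω : Type} [Finite Ω] [Nonempty Ω] (R : Ω → Reduction n q v d)
    (hR : TwoSided (m + 4) fun ω => (R ω).Accepts) (hw : 0 < w)
    (hr : ∀ ω hist cl, Decided l w ((R ω).clause hist cl)) :
    ∃ K : ℕ, N * N ≤ 4 ^ (4 * τ + 1) * K ∧
      (1.003 : ℝ) ^ K ≤ 24 * (((w ^ (4 * τ + 1)) ^ (q * (2 * v + 1) ^ d) : ℕ) : ℝ) ^ 80 := by
  classical
  obtain ⟨A, B, segs, I, σ, hs1, hs2, hs3, hI, hmix⟩ := structure3 (N := N) h l τ hl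
  refine ⟨I.card, hI, ?_⟩
  set r := w ^ (4 * τ + 1) with hrdef
  have hdet : ∀ ω hist cl, Det A B r ((R ω).clause hist cl) := by
    intro ω hist cl
    have h1 := hr ω hist cl
    rw [← hs1] at h1
    exact (decided_det hs3 h1).mono (Nat.pow_le_pow_right hw hs2)
  have hdat := fun ω => red_det (hdet ω)
  choose dat hacc hmx using hdat
  let U : Finset I → Finset (ZMod N × ZMod N) := fun x => x.map (Function.Embedding.subtype _)
  have hU : ∀ x : Finset I, U x ⊆ I := by
    intro x e he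
    obtain ⟨a, -, rfl⟩ := mem_map.1 he
    exact a.2
  let G : Finset I → Finset I → SimpleGraph (Fin n) := fun x y => big (m := m) h σ (U x) (U y)ᶜ
  have hcl : ∀ x y, HasClique (m + 4) (G x y) ↔ ¬ Disjoint x y := by
    intro x y
    change HasClique (m + 4) (big (m := m) h σ (U x) (U y)ᶜ) ↔ _
    rw [big_clique, not_iff_not, subset_compl_iff_disjoint_right]
    exact disjoint_map _
  have hrej : ∀ ω x y, (∃ G', dat ω G' = dat ω (G x y) ∧ ¬ (R ω).Accepts G') ↔
      ¬ (R ω).Accepts (G x y) := by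
    intro ω x y
    constructor
    · rintro ⟨G', h1, h2⟩ h3
      exact h2 ((hacc ω _ _ h1).2 h3)
    · intro h1
      exact ⟨_, rfl, h1⟩
  have key := Raz.average3 (ι := I) (D := Fin q → Clause v d → Fin r)
    (fun ω x y => dat ω (G x y))
    (by
      intro ω x y x' y' he
      exact hmx ω _ _ _ (hmix _ (hU x) _ (hU y) _ (hU x') _ (hU y')) he)
    (fun ω δ => ∃ G', dat ω G' = δ ∧ ¬ (R ω).Accepts G')
    (by
      intro x y hxy
      have h3 := hR.1 (G x y) ((hcl x y).2 hxy)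
      rwa [← Nat.card_congr (Equiv.subtypeEquivRight fun ω => hrej ω x y)] at h3)
    (by
      intro x y hxy
      have h3 := hR.2 (G x y) (fun h4 => (hcl x y).1 h4 hxy)
      have h5 : ∀ ω, (¬ ∃ G', dat ω G' = dat ω (G x y) ∧ ¬ (R ω).Accepts G') ↔
          (R ω).Accepts (G x y) := by
        intro ω
        rw [hrej, not_not]
      rwa [← Nat.card_congr (Equiv.subtypeEquivRight h5)] at h3)
  rw [Fintype.card_fun, Fintype.card_fun, Fintype.card_fin, Fintype.card_fin,
    card_clause, ← pow_mul, mul_comm _ q, Fintype.card_coe] at key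
  exact key


omit [NeZero N] in
theorem obl_two_bound {k : ℕ} (hk : 4 ≤ k) (h : 4 * N + (k - 4) ≤ n)
    (l : List (Sym2 (Fin n))) (τ : ℕ) (hl : l.length ≤ τ * N ^ 2)
    {s : ℕ} {Ω : Type} [Finite Ω] [Nonempty Ω] (R : Ω → Reduction n q v d)
    (hR : TwoSided k fun ω => (R ω).Accepts)
    (hr : ∀ ω hist cl, Decided l (2 ^ s) ((R ω).clause hist cl)) :
    N ^ 2 ≤ 4 ^ (4 * τ + 1) *
      (1250 + 20000 * ((4 * τ + 1) * (q * (2 * v + 1) ^ d * s))) := by
  rcases Nat.eq_zero_or_pos N with h0 | h0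
  · rw [h0]
    simp
  · have : NeZero N := ⟨h0.ne'⟩
    obtain ⟨m, rfl⟩ : ∃ m, k = m + 4 := ⟨k - 4, by omega⟩
    obtain ⟨K, h1, h2⟩ := obl_two_core (N := N) (m := m) (by omega) l τ (by rwa [← sq]) R hR
      (by positivity) hr
    rw [sq]
    refine h1.trans (Nat.mul_le_mul_left _ ?_)
    set X := (4 * τ + 1) * (q * (2 * v + 1) ^ d * s) with hX
    by_contra hcon
    push Not at hcon
    have e1 : (((2 ^ s) ^ (4 * τ + 1)) ^ (q * (2 * v + 1) ^ d) : ℕ) = 2 ^ X := by
      rw [← pow_mul, ← pow_mul, hX]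
      congr 1
      ring
    rw [e1] at h2
    have h3 : (2 : ℝ) ^ (5 + 80 * X) ≤ (1.003 : ℝ) ^ K := by
      calc (2 : ℝ) ^ (5 + 80 * X) ≤ ((1.003 : ℝ) ^ 250) ^ (5 + 80 * X) := by
            apply pow_le_pow_left₀ (by norm_num)
            norm_num
        _ = (1.003 : ℝ) ^ (1250 + 20000 * X) := by
            rw [← pow_mul]
            congr 1
            ring
        _ ≤ _ := pow_le_pow_right₀ (by norm_num) hcon.le
    have h4 : (24 : ℝ) * (((2 : ℕ) ^ X : ℕ) : ℝ) ^ 80 < 2 ^ (5 + 80 * X) := by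
      push_cast
      rw [← pow_mul, pow_add, show X * 80 = 80 * X by ring]
      have : (0 : ℝ) < 2 ^ (80 * X) := by positivity
      nlinarith
    linarith

omit [NeZero N] in
theorem obl_adaptive_bound {k : ℕ} (hk : 4 ≤ k) (h : 4 * N + (k - 4) ≤ n)
    (l : List (Sym2 (Fin n))) (τ : ℕ) (hl : l.length ≤ τ * N ^ 2)
    {s μ : ℕ} {Ω : Type} [Finite Ω] [Nonempty Ω] (R : Ω → Reduction n q v d)
    (hR : OneSided k μ fun ω => (R ω).Accepts)
    (hr : ∀ ω hist cl, Recognised l (2 ^ s) ((R ω).clause hist cl))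
    (hr' : ∀ ω hist cl, Recognised l (2 ^ s) fun G => ¬ (R ω).clause hist cl G) :
    N ^ 2 ≤ 4 ^ (4 * τ + 1) * (μ + q * (2 * v + 1) ^ d * ((4 * τ + 3) * s + 1)) := by
  rcases Nat.eq_zero_or_pos N with h0 | h0
  · rw [h0]
    simp
  · have : NeZero N := ⟨h0.ne'⟩
    obtain ⟨m, rfl⟩ : ∃ m, k = m + 4 := ⟨k - 4, by omega⟩
    obtain ⟨M, h1, h2⟩ := obl_adaptive (N := N) (m := m) (by omega) l τ (by rwa [← sq]) R hR hr hr'
    rw [sq]
    refine h1.trans (Nat.mul_le_mul_left _ ?_)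
    rw [← pow_mul, ← pow_succ', ← pow_mul, ← pow_add] at h2
    have h3 := (Nat.pow_le_pow_iff_right (by norm_num)).1 h2
    refine h3.trans (le_of_eq ?_)
    ring

omit [NeZero N] in
theorem obl_manyone_bound {k : ℕ} (hk : 4 ≤ k) (h : 4 * N + (k - 4) ≤ n)
    (l : List (Sym2 (Fin n))) (τ : ℕ) (hl : l.length ≤ τ * N ^ 2)
    {s μ : ℕ} {Ω : Type} [Finite Ω] [Nonempty Ω]
    (F : Ω → Clause v d → SimpleGraph (Fin n) → Prop)
    (hF : OneSided k μ fun ω G => Sat fun cl => F ω cl G)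
    (hr : ∀ ω cl, Recognised l (2 ^ s) (F ω cl)) :
    N ^ 2 ≤ 4 ^ (4 * τ + 1) * (μ + (2 * v + 1) ^ d * ((4 * τ + 3) * s + 1)) := by
  rcases Nat.eq_zero_or_pos N with h0 | h0
  · rw [h0]
    simp
  · have : NeZero N := ⟨h0.ne'⟩
    obtain ⟨m, rfl⟩ : ∃ m, k = m + 4 := ⟨k - 4, by omega⟩
    obtain ⟨M, h1, h2⟩ := obl_manyone (N := N) (m := m) (by omega) l τ (by rwa [← sq]) F hF hr
    rw [sq]
    refine h1.trans (Nat.mul_le_mul_left _ ?_)
    have h4 : (2 ^ s) ^ (4 * τ + 3) + 1 ≤ 2 ^ (s * (4 * τ + 3) + 1) := by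
      rw [← pow_mul, pow_succ]
      have := Nat.one_le_two_pow (n := s * (4 * τ + 3))
      omega
    have h5 : 2 ^ M ≤ 2 ^ (μ + (s * (4 * τ + 3) + 1) * (2 * v + 1) ^ d) := by
      rw [pow_add, pow_mul]
      exact h2.trans (Nat.mul_le_mul_left _ (Nat.pow_le_pow_left h4 _))
    have h3 := (Nat.pow_le_pow_iff_right (by norm_num)).1 h5
    refine h3.trans (le_of_eq ?_)
    ring

end Core

end Pool.Agent.KS6_49.SR
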