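import Mathlib

/-!
A corruption lemma for set disjointness with linear exponent, after Razborov.
-/

set_option autoImplicit false

namespace Pool.Agent.KS6_49.SR.Raz

open Finset

variable {ι : Type} [Fintype ι] [DecidableEq ι]

/-- number of members of `C` below `z` -/
noncomputable def cnt (C : Finset (Finset ι)) (z : Finset ι) : ℝ :=
  ((C.filter fun x => x ⊆ z).card : ℝ)

/-- number of members of `C` below `z` which contain `i` -/
noncomputable def cnt1 (C : Finset (Finset ι)) (i : ι) (z : Finset ι) : ℝ :=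
  ((C.filter fun x => i ∈ x ∧ x ⊆ z).card : ℝ)

omit [Fintype ι] in
theorem cnt_nonneg (C : Finset (Finset ι)) (z : Finset ι) : 0 ≤ cnt C z := Nat.cast_nonneg _

omit [Fintype ι] in
theorem cnt1_nonneg (C : Finset (Finset ι)) (i : ι) (z : Finset ι) : 0 ≤ cnt1 C i z :=
  Nat.cast_nonneg _

omit [Fintype ι] in
theorem cnt_split (C : Finset (Finset ι)) (i : ι) (W : Finset ι) :
    cnt C W = cnt C (W.erase i) + cnt1 C i W := by
  unfold cnt cnt1
  rw [← Nat.cast_add, Nat.cast_inj, ← card_filter_add_card_filter_not (s := C.filter fun x => x ⊆ W)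
    (fun x => i ∉ x)]
  rw [filter_filter, filter_filter]
  congr 2
  · apply filter_congr
    intro x _
    rw [subset_erase]
  · apply filter_congr
    intro x _
    rw [not_not, and_comm]

omit [Fintype ι] in
theorem cnt_le (C : Finset (Finset ι)) (z : Finset ι) : cnt C z ≤ 2 ^ z.card := by
  unfold cnt
  have h : (C.filter fun x => x ⊆ z).card ≤ z.powerset.card :=
    card_le_card fun x hx => mem_powerset.2 (mem_filter.1 hx).2
  rw [card_powerset] at h
  exact_mod_cast h

omit [Fintype ι] in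
theorem cnt_mono (C : Finset (Finset ι)) {z z' : Finset ι} (h : z ⊆ z') : cnt C z ≤ cnt C z' := by
  unfold cnt
  have h1 : (C.filter fun x => x ⊆ z).card ≤ (C.filter fun x => x ⊆ z').card :=
    card_le_card fun x hx => mem_filter.2 ⟨(mem_filter.1 hx).1, (mem_filter.1 hx).2.trans h⟩
  exact_mod_cast h1

omit [Fintype ι] in
/-- concentration -/
theorem conc (W Bad : Finset ι) (hB : Bad ⊆ W) (F : Finset (Finset ι)) (hF : ∀ x ∈ F, x ⊆ W)
    (h : ∀ i ∈ Bad, 4 * (F.filter fun x => i ∈ x).card ≤ F.card) :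
    (F.card : ℝ) ≤ 2 ^ W.card * ((1 + Real.exp (-1)) / 2 * Real.exp (1 / 4)) ^ Bad.card := by
  have h1 : 4 * ∑ x ∈ F, (x ∩ Bad).card ≤ Bad.card * F.card := by
    have h2 : ∑ x ∈ F, (x ∩ Bad).card = ∑ i ∈ Bad, (F.filter fun x => i ∈ x).card := by
      simp_rw [card_filter]
      rw [sum_comm]
      refine sum_congr rfl fun x _ => ?_
      rw [← card_filter, filter_mem_eq_inter, inter_comm]
    rw [h2, mul_sum]
    calc ∑ i ∈ Bad, 4 * (F.filter fun x => i ∈ x).card ≤ ∑ _i ∈ Bad, F.card := sum_le_sum h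
      _ = _ := by rw [sum_const, smul_eq_mul]
  have h1' : 4 * ∑ x ∈ F, ((x ∩ Bad).card : ℝ) ≤ Bad.card * F.card := by
    exact_mod_cast h1
  have h3 : (F.card : ℝ) * Real.exp (-(Bad.card : ℝ) / 4) ≤
      ∑ x ∈ F, Real.exp (-((x ∩ Bad).card : ℝ)) := by
    have h4 : ∀ x ∈ F, Real.exp (-(Bad.card : ℝ) / 4) *
        (1 + ((Bad.card : ℝ) / 4 - (x ∩ Bad).card)) ≤ Real.exp (-((x ∩ Bad).card : ℝ)) := by
      intro x _
      have h5 := Real.add_one_le_exp ((Bad.card : ℝ) / 4 - (x ∩ Bad).card)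
      calc Real.exp (-(Bad.card : ℝ) / 4) * (1 + ((Bad.card : ℝ) / 4 - (x ∩ Bad).card))
          ≤ Real.exp (-(Bad.card : ℝ) / 4) * Real.exp ((Bad.card : ℝ) / 4 - (x ∩ Bad).card) := by
            gcongr
            linarith
        _ = _ := by
            rw [← Real.exp_add]
            congr 1
            ring
    refine le_trans ?_ (sum_le_sum h4)
    rw [← mul_sum, sum_add_distrib, sum_sub_distrib, sum_const, sum_const, nsmul_eq_mul,
      nsmul_eq_mul, mul_one, mul_comm]
    gcongr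
    linarith
  have h6 : ∑ x ∈ F, Real.exp (-((x ∩ Bad).card : ℝ)) ≤
      (1 + Real.exp (-1)) ^ Bad.card * 2 ^ (W.card - Bad.card) := by
    calc ∑ x ∈ F, Real.exp (-((x ∩ Bad).card : ℝ))
        ≤ ∑ x ∈ W.powerset, Real.exp (-((x ∩ Bad).card : ℝ)) :=
          sum_le_sum_of_subset_of_nonneg (fun x hx => mem_powerset.2 (hF x hx))
            fun _ _ _ => (Real.exp_pos _).le
      _ = ∑ x ∈ W.powerset, ∏ i ∈ x, (if i ∈ Bad then Real.exp (-1) else 1) := by
          refine sum_congr rfl fun x _ => ?_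
          rw [prod_ite, prod_const_one, mul_one, prod_const, filter_mem_eq_inter,
            ← Real.exp_nat_mul]
          congr 1
          ring
      _ = ∏ i ∈ W, (1 + if i ∈ Bad then Real.exp (-1) else 1) := (prod_one_add _).symm
      _ = ∏ i ∈ W, (if i ∈ Bad then 1 + Real.exp (-1) else 2) := by
          refine prod_congr rfl fun i _ => ?_
          split_ifs <;> norm_num
      _ = _ := by
          rw [prod_ite, prod_const, prod_const, filter_mem_eq_inter,
            inter_eq_right.2 hB, filter_not, filter_mem_eq_inter, inter_eq_right.2 hB,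
            card_sdiff_of_subset hB]
  have h7 := h3.trans h6
  have hexp : 0 < Real.exp (-(Bad.card : ℝ) / 4) := Real.exp_pos _
  have h8 : Real.exp (-(Bad.card : ℝ) / 4) * Real.exp (1 / 4) ^ Bad.card = 1 := by
    have h0 : -(Bad.card : ℝ) / 4 + (Bad.card : ℝ) * (1 / 4) = 0 := by ring
    rw [← Real.exp_nat_mul, ← Real.exp_add, h0, Real.exp_zero]
  have h9 : (2 : ℝ) ^ W.card = 2 ^ (W.card - Bad.card) * 2 ^ Bad.card := by
    rw [← pow_add]
    congr 1
    have := card_le_card hB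
    omega
  refine le_of_mul_le_mul_right ?_ hexp
  refine h7.trans (le_of_eq ?_)
  rw [h9, mul_pow, div_pow]
  have h10 : (2 : ℝ) ^ Bad.card ≠ 0 := by positivity
  have h11 : (2 : ℝ) ^ (W.card - Bad.card) * 2 ^ Bad.card *
      ((1 + Real.exp (-1)) ^ Bad.card / 2 ^ Bad.card * Real.exp (1 / 4) ^ Bad.card) *
      Real.exp (-(Bad.card : ℝ) / 4) = (1 + Real.exp (-1)) ^ Bad.card *
        2 ^ (W.card - Bad.card) * ((Real.exp (-(Bad.card : ℝ) / 4) * Real.exp (1 / 4) ^ Bad.card) *
          (2 ^ Bad.card / 2 ^ Bad.card)) := by ring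
  rw [h11, h8, div_self h10]
  ring

theorem kappa : (1 + Real.exp (-1)) / 2 * Real.exp (1 / 4) ≤ (0.994 : ℝ) ^ 20 := by
  have h1 := Real.exp_neg_one_lt_d9
  have h2 : Real.exp (1 / 4) ≤ 1.2841 := by
    have h3 : Real.exp (1 / 4) ^ 4 ≤ 1.2841 ^ 4 := by
      rw [← Real.exp_nat_mul]
      have h4 := Real.exp_one_lt_d9
      have h5 : ((4 : ℕ) : ℝ) * (1 / 4) = 1 := by norm_num
      rw [h5]
      refine h4.le.trans ?_
      norm_num
    exact le_of_pow_le_pow_left₀ (by norm_num) (by norm_num) h3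
  have h0 := Real.exp_pos (-1)
  calc (1 + Real.exp (-1)) / 2 * Real.exp (1 / 4) ≤ (1 + 0.3678794412) / 2 * 1.2841 := by gcongr
    _ ≤ _ := by norm_num

omit [Fintype ι] in
theorem few_bad (W Bad : Finset ι) (hB : Bad ⊆ W) (F : Finset (Finset ι)) (hF : ∀ x ∈ F, x ⊆ W)
    (h : ∀ i ∈ Bad, 4 * (F.filter fun x => i ∈ x).card ≤ F.card)
    (hbig : (2 * 0.994 : ℝ) ^ W.card < F.card) : 20 * Bad.card < W.card := by
  by_contra hcon
  push Not at hcon
  have h1 := conc W Bad hB F hF h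
  have h2 : ((1 + Real.exp (-1)) / 2 * Real.exp (1 / 4)) ^ Bad.card ≤ (0.994 : ℝ) ^ W.card := by
    have h0 := Real.exp_pos (-1)
    calc ((1 + Real.exp (-1)) / 2 * Real.exp (1 / 4)) ^ Bad.card ≤ ((0.994 : ℝ) ^ 20) ^ Bad.card := by
          gcongr
          exact kappa
      _ = (0.994 : ℝ) ^ (20 * Bad.card) := by rw [← pow_mul]
      _ ≤ _ := pow_le_pow_of_le_one (by norm_num) (by norm_num) hcon
  have h3 : (F.card : ℝ) ≤ (2 * 0.994 : ℝ) ^ W.card := by
    rw [mul_pow]
    exact h1.trans (by gcongr)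
  linarith

omit [Fintype ι] in
theorem few_bad' (W Bad : Finset ι) (hB : Bad ⊆ W) (F : Finset (Finset ι)) (hF : ∀ x ∈ F, x ⊆ W)
    (h : ∀ i ∈ Bad, 4 * (F.filter fun x => i ∉ x).card ≤ F.card)
    (hbig : (2 * 0.994 : ℝ) ^ W.card < F.card) : 20 * Bad.card < W.card := by
  have hinj : Set.InjOn (fun x => W \ x) (F : Set (Finset ι)) := by
    intro x hx y hy hxy
    have h1 : W \ (W \ x) = W \ (W \ y) := by
      beta_reduce at hxy
      rw [hxy]
    rwa [Finset.sdiff_sdiff_eq_self (hF x hx), Finset.sdiff_sdiff_eq_self (hF y hy)] at h1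
  have hcard : (F.image fun x => W \ x).card = F.card := card_image_of_injOn hinj
  refine few_bad W Bad hB (F.image fun x => W \ x) ?_ ?_ (by rwa [hcard])
  · intro x hx
    obtain ⟨y, -, rfl⟩ := mem_image.1 hx
    exact sdiff_subset
  · intro i hi
    rw [hcard]
    refine le_trans (Nat.mul_le_mul_left _ ?_) (h i hi)
    have h1 : ((F.image fun x => W \ x).filter fun x => i ∈ x) ⊆
        (F.filter fun x => i ∉ x).image fun x => W \ x := by
      intro x hx
      rw [mem_filter, mem_image] at hx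
      obtain ⟨⟨y, hy, rfl⟩, h2⟩ := hx
      exact mem_image_of_mem _ (mem_filter.2 ⟨hy, (mem_sdiff.1 h2).2⟩)
    exact (card_le_card h1).trans card_image_le

omit [Fintype ι] in
/-- few bad coordinates, with weights -/
theorem xbad (C : Finset (Finset ι)) (W : Finset ι) :
    ∑ i ∈ W, (if 4 * cnt1 C i W ≤ cnt C W then cnt C (W.erase i) else 0) ≤
      1 / 4 * ∑ i ∈ W, cnt C (W.erase i) + W.card * (2 * 0.994 : ℝ) ^ W.card := by
  set a := cnt C W with ha
  have ha0 : 0 ≤ a := cnt_nonneg C W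
  have hle : ∀ i, cnt C (W.erase i) ≤ a := fun i => cnt_mono C (erase_subset i W)
  have hS : 0 ≤ ∑ i ∈ W, cnt C (W.erase i) := sum_nonneg fun i _ => cnt_nonneg _ _
  by_cases hbig : (2 * 0.994 : ℝ) ^ W.card < a
  · set F := C.filter fun x => x ⊆ W with hF
    have hFW : ∀ x ∈ F, x ⊆ W := fun x hx => (mem_filter.1 hx).2
    have haF : a = F.card := rfl
    have hc1 : ∀ i, cnt1 C i W = ((F.filter fun x => i ∈ x).card : ℝ) := by
      intro i
      unfold cnt1
      rw [hF, filter_filter]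
      congr 2
      apply filter_congr
      intro x _
      exact and_comm
    have hc0 : ∀ i, cnt C (W.erase i) = ((F.filter fun x => i ∉ x).card : ℝ) := by
      intro i
      unfold cnt
      rw [hF, filter_filter]
      congr 2
      apply filter_congr
      intro x _
      rw [subset_erase]
    have h1 : 20 * (W.filter fun i => 4 * cnt1 C i W ≤ a).card < W.card := by
      refine few_bad W _ (filter_subset _ _) F hFW ?_ (by rwa [← haF])
      intro i hi
      have h2 := (mem_filter.1 hi).2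
      rw [hc1, haF] at h2
      exact_mod_cast h2
    have h1' : 20 * (W.filter fun i => 4 * cnt C (W.erase i) ≤ a).card < W.card := by
      refine few_bad' W _ (filter_subset _ _) F hFW ?_ (by rwa [← haF])
      intro i hi
      have h2 := (mem_filter.1 hi).2
      rw [hc0, haF] at h2
      exact_mod_cast h2
    have h3 : ∑ i ∈ W, (if 4 * cnt1 C i W ≤ a then cnt C (W.erase i) else 0) ≤ W.card / 20 * a := by
      rw [← sum_filter]
      refine (sum_le_sum fun i _ => hle i).trans ?_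
      rw [sum_const, nsmul_eq_mul]
      gcongr
      have h4 : (20 : ℝ) * ((W.filter fun i => 4 * cnt1 C i W ≤ a).card : ℝ) ≤ W.card := by
        exact_mod_cast h1.le
      linarith
    have h5 : (19 / 20 * (W.card : ℝ)) * (a / 4) ≤ ∑ i ∈ W, cnt C (W.erase i) := by
      calc (19 / 20 * (W.card : ℝ)) * (a / 4)
          ≤ ((W.filter fun i => ¬ 4 * cnt C (W.erase i) ≤ a).card : ℝ) * (a / 4) := by
            gcongr
            have h6 := card_filter_add_card_filter_not (s := W) (fun i => 4 * cnt C (W.erase i) ≤ a)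
            have h7 : ((W.filter fun i => 4 * cnt C (W.erase i) ≤ a).card : ℝ) +
                ((W.filter fun i => ¬ 4 * cnt C (W.erase i) ≤ a).card : ℝ) = W.card := by
              exact_mod_cast h6
            have h4 : (20 : ℝ) * ((W.filter fun i => 4 * cnt C (W.erase i) ≤ a).card : ℝ) ≤
                W.card := by
              exact_mod_cast h1'.le
            linarith
        _ = ∑ _i ∈ W.filter fun i => ¬ 4 * cnt C (W.erase i) ≤ a, a / 4 := by
            rw [sum_const, nsmul_eq_mul]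
        _ ≤ ∑ i ∈ W.filter fun i => ¬ 4 * cnt C (W.erase i) ≤ a, cnt C (W.erase i) := by
            refine sum_le_sum fun i hi => ?_
            have := (mem_filter.1 hi).2
            push Not at this
            linarith
        _ ≤ _ := sum_le_sum_of_subset_of_nonneg (filter_subset _ _)
            fun i _ _ => cnt_nonneg _ _
    have h8 : (0 : ℝ) ≤ W.card * (2 * 0.994 : ℝ) ^ W.card := by positivity
    have h9 : (0 : ℝ) ≤ W.card * a := by positivity
    linarith
  · have h1 : ∑ i ∈ W, (if 4 * cnt1 C i W ≤ a then cnt C (W.erase i) else 0) ≤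
        ∑ _i ∈ W, (2 * 0.994 : ℝ) ^ W.card := by
      refine sum_le_sum fun i _ => ?_
      split_ifs
      · exact (hle i).trans (not_lt.1 hbig)
      · positivity
    rw [sum_const, nsmul_eq_mul] at h1
    linarith

/-- the pairs `(i, W)` with `i ∈ W` -/
def P (ι : Type) [Fintype ι] [DecidableEq ι] : Finset (ι × Finset ι) :=
  univ.filter fun T => T.1 ∈ T.2

/-- weight on the disjoint pairs -/
noncomputable def S0 (C D : Finset (Finset ι)) : ℝ :=
  ∑ T ∈ P ι, cnt C (T.2.erase T.1) * cnt D T.2ᶜ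

/-- weight on the pairs with one common element -/
noncomputable def S1 (C D : Finset (Finset ι)) : ℝ :=
  ∑ T ∈ P ι, cnt1 C T.1 T.2 * cnt1 D T.1 (T.2.erase T.1)ᶜ

theorem sum_P (f : ι × Finset ι → ℝ) : ∑ T ∈ P ι, f T = ∑ W : Finset ι, ∑ i ∈ W, f (i, W) := by
  rw [P, sum_filter, ← univ_product_univ, sum_product_right]
  refine sum_congr rfl fun W _ => ?_
  rw [sum_ite_mem, univ_inter]

/-- the involution -/
def φ (T : ι × Finset ι) : ι × Finset ι := (T.1, (T.2.erase T.1)ᶜ)

theorem φ_mem {T : ι × Finset ι} : φ T ∈ P ι := by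
  rw [P, mem_filter]
  refine ⟨mem_univ _, ?_⟩
  unfold φ
  simp

theorem φ_erase {T : ι × Finset ι} (hT : T ∈ P ι) : (φ T).2.erase (φ T).1 = T.2ᶜ := by
  unfold φ
  have h := (mem_filter.1 hT).2
  ext j
  simp only [mem_erase, mem_compl, not_and]
  constructor
  · rintro ⟨h1, h2⟩
    exact h2 h1
  · intro h1
    refine ⟨?_, fun _ => h1⟩
    rintro rfl
    exact h1 h

theorem φ_φ {T : ι × Finset ι} (hT : T ∈ P ι) : φ (φ T) = T := by
  have h := φ_erase hT
  unfold φ at h ⊢
  simp only at h ⊢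
  rw [h, compl_compl]

theorem sum_φ (f : ι × Finset ι → ℝ) : ∑ T ∈ P ι, f (φ T) = ∑ T ∈ P ι, f T :=
  sum_nbij' φ φ (fun _ _ => φ_mem) (fun _ _ => φ_mem) (fun _ h => φ_φ h) (fun _ h => φ_φ h)
    fun _ _ => rfl

theorem badsum (C D : Finset (Finset ι)) :
    ∑ T ∈ P ι, (if 4 * cnt1 C T.1 T.2 ≤ cnt C T.2 then cnt C (T.2.erase T.1) * cnt D T.2ᶜ else 0) ≤
      1 / 4 * S0 C D + Fintype.card ι * (3.988 : ℝ) ^ Fintype.card ι := by
  unfold S0
  rw [sum_P, sum_P]
  simp only
  have h1 : ∀ W : Finset ι, ∑ i ∈ W,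
      (if 4 * cnt1 C i W ≤ cnt C W then cnt C (W.erase i) * cnt D Wᶜ else 0) ≤
      1 / 4 * ∑ i ∈ W, cnt C (W.erase i) * cnt D Wᶜ +
        Fintype.card ι * ((2 * 0.994 : ℝ) ^ W.card * 2 ^ (Fintype.card ι - W.card)) := by
    intro W
    have h2 := xbad C W
    have h3 : ∑ i ∈ W, (if 4 * cnt1 C i W ≤ cnt C W then cnt C (W.erase i) * cnt D Wᶜ else 0) =
        (∑ i ∈ W, (if 4 * cnt1 C i W ≤ cnt C W then cnt C (W.erase i) else 0)) * cnt D Wᶜ := by
      rw [sum_mul]
      refine sum_congr rfl fun i _ => ?_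
      rw [ite_mul, zero_mul]
    rw [h3, ← sum_mul]
    have h4 : cnt D Wᶜ ≤ 2 ^ (Fintype.card ι - W.card) := by
      rw [← card_compl]
      exact cnt_le D Wᶜ
    have h5 : (W.card : ℝ) ≤ Fintype.card ι := by exact_mod_cast card_le_univ W
    have h6 := cnt_nonneg D Wᶜ
    calc (∑ i ∈ W, (if 4 * cnt1 C i W ≤ cnt C W then cnt C (W.erase i) else 0)) * cnt D Wᶜ
        ≤ (1 / 4 * ∑ i ∈ W, cnt C (W.erase i) + W.card * (2 * 0.994 : ℝ) ^ W.card) * cnt D Wᶜ := by
          gcongr
      _ = 1 / 4 * ((∑ i ∈ W, cnt C (W.erase i)) * cnt D Wᶜ) +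
          W.card * ((2 * 0.994 : ℝ) ^ W.card * cnt D Wᶜ) := by ring
      _ ≤ _ := by gcongr
  refine (sum_le_sum fun W _ => h1 W).trans (le_of_eq ?_)
  rw [sum_add_distrib, ← mul_sum, ← mul_sum, Fintype.sum_pow_mul_eq_add_pow]
  norm_num

/-- **Corruption for disjointness.** -/
theorem corr (C D : Finset (Finset ι)) :
    S0 C D ≤ 32 * S1 C D + 4 * (Fintype.card ι * (3.988 : ℝ) ^ Fintype.card ι) := by
  set err : ℝ := Fintype.card ι * (3.988 : ℝ) ^ Fintype.card ι with herr
  have hx := badsum C D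
  have hy := badsum D C
  have hswap : S0 D C = S0 C D := by
    unfold S0
    rw [← sum_φ]
    refine sum_congr rfl fun T hT => ?_
    rw [φ_erase hT]
    unfold φ
    simp only [compl_compl]
    ring
  have hy' : ∑ T ∈ P ι, (if 4 * cnt1 D T.1 (T.2.erase T.1)ᶜ ≤ cnt D (T.2.erase T.1)ᶜ then
      cnt C (T.2.erase T.1) * cnt D T.2ᶜ else 0) ≤ 1 / 4 * S0 C D + err := by
    rw [← hswap]
    refine le_trans (le_of_eq ?_) hy
    rw [← sum_φ]
    refine sum_congr rfl fun T hT => ?_
    rw [φ_erase hT]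
    unfold φ
    simp only [compl_compl]
    rw [mul_comm (cnt C T.2ᶜ)]
  have hterm : ∀ T ∈ P ι, cnt C (T.2.erase T.1) * cnt D T.2ᶜ ≤
      16 * (cnt1 C T.1 T.2 * cnt1 D T.1 (T.2.erase T.1)ᶜ) +
      ((if 4 * cnt1 C T.1 T.2 ≤ cnt C T.2 then cnt C (T.2.erase T.1) * cnt D T.2ᶜ else 0) +
      (if 4 * cnt1 D T.1 (T.2.erase T.1)ᶜ ≤ cnt D (T.2.erase T.1)ᶜ then
        cnt C (T.2.erase T.1) * cnt D T.2ᶜ else 0)) := by
    intro T hT
    have n1 := cnt_nonneg C (T.2.erase T.1)
    have n2 := cnt_nonneg D T.2ᶜ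
    have n3 := cnt1_nonneg C T.1 T.2
    have n4 := cnt1_nonneg D T.1 (T.2.erase T.1)ᶜ
    have n5 : 0 ≤ cnt C (T.2.erase T.1) * cnt D T.2ᶜ := mul_nonneg n1 n2
    have n6 : 0 ≤ cnt1 C T.1 T.2 * cnt1 D T.1 (T.2.erase T.1)ᶜ := mul_nonneg n3 n4
    by_cases b1 : 4 * cnt1 C T.1 T.2 ≤ cnt C T.2
    · rw [if_pos b1]
      split_ifs <;> linarith
    · by_cases b2 : 4 * cnt1 D T.1 (T.2.erase T.1)ᶜ ≤ cnt D (T.2.erase T.1)ᶜ
      · rw [if_pos b2, if_neg b1]
        linarith
      · rw [if_neg b1, if_neg b2]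
        push Not at b1 b2
        have e1 : cnt C (T.2.erase T.1) ≤ 4 * cnt1 C T.1 T.2 :=
          (cnt_mono C (erase_subset _ _)).trans b1.le
        have e2 : cnt D T.2ᶜ ≤ 4 * cnt1 D T.1 (T.2.erase T.1)ᶜ :=
          (cnt_mono D (compl_subset_compl.2 (erase_subset _ _))).trans b2.le
        have e3 := mul_le_mul e1 e2 n2 (by positivity)
        linarith
  have hsum := sum_le_sum hterm
  rw [sum_add_distrib, sum_add_distrib, ← mul_sum] at hsum
  change S0 C D ≤ 16 * S1 C D + _ at hsum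
  linarith

end Pool.Agent.KS6_49.SR.Raz
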