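import Pool.Agent.KS6_49.SR.Raz

/-!
Two-sided error: protocols for disjointness.
-/

set_option autoImplicit false

namespace Pool.Agent.KS6_49.SR.Raz

open Finset

variable {ι : Type} [Fintype ι] [DecidableEq ι]

/-- weight of a pair of disjoint sets -/
noncomputable def w0 (p : Finset ι × Finset ι) : ℝ :=
  ∑ T ∈ P ι, (if p.1 ⊆ T.2.erase T.1 then (1 : ℝ) else 0) * (if p.2 ⊆ T.2ᶜ then (1 : ℝ) else 0)

/-- weight of a pair of sets with one common element -/
noncomputable def w1 (p : Finset ι × Finset ι) : ℝ :=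
  ∑ T ∈ P ι, (if T.1 ∈ p.1 ∧ p.1 ⊆ T.2 then (1 : ℝ) else 0) *
    (if T.1 ∈ p.2 ∧ p.2 ⊆ (T.2.erase T.1)ᶜ then (1 : ℝ) else 0)

theorem w0_nonneg (p : Finset ι × Finset ι) : 0 ≤ w0 p :=
  sum_nonneg fun T _ => by
    apply mul_nonneg <;> split_ifs <;> norm_num

theorem w1_nonneg (p : Finset ι × Finset ι) : 0 ≤ w1 p :=
  sum_nonneg fun T _ => by
    apply mul_nonneg <;> split_ifs <;> norm_num

theorem w0_zero {p : Finset ι × Finset ι} (h : ¬ Disjoint p.1 p.2) : w0 p = 0 := by
  apply sum_eq_zero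
  intro T _
  by_cases h1 : p.1 ⊆ T.2.erase T.1
  · by_cases h2 : p.2 ⊆ T.2ᶜ
    · exfalso
      apply h
      rw [disjoint_left]
      intro j hj hj'
      exact mem_compl.1 (h2 hj') (mem_of_mem_erase (h1 hj))
    · rw [if_neg h2, mul_zero]
  · rw [if_neg h1, zero_mul]

theorem w1_zero {p : Finset ι × Finset ι} (h : Disjoint p.1 p.2) : w1 p = 0 := by
  apply sum_eq_zero
  intro T _
  by_cases h1 : T.1 ∈ p.1 ∧ p.1 ⊆ T.2
  · by_cases h2 : T.1 ∈ p.2 ∧ p.2 ⊆ (T.2.erase T.1)ᶜ
    · exact absurd h2.1 (disjoint_left.1 h h1.1)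
    · rw [if_neg h2, mul_zero]
  · rw [if_neg h1, zero_mul]

omit [Fintype ι] in
theorem cnt_eq (C : Finset (Finset ι)) (z : Finset ι) :
    cnt C z = ∑ x ∈ C, (if x ⊆ z then (1 : ℝ) else 0) := by
  unfold cnt
  rw [sum_boole]

omit [Fintype ι] in
theorem cnt1_eq (C : Finset (Finset ι)) (i : ι) (z : Finset ι) :
    cnt1 C i z = ∑ x ∈ C, (if i ∈ x ∧ x ⊆ z then (1 : ℝ) else 0) := by
  unfold cnt1
  rw [sum_boole]

theorem S0_eq (C D : Finset (Finset ι)) : ∑ p ∈ C ×ˢ D, w0 p = S0 C D := by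
  unfold w0 S0
  rw [sum_comm]
  refine sum_congr rfl fun T _ => ?_
  rw [sum_product, cnt_eq, cnt_eq, sum_mul_sum]

theorem S1_eq (C D : Finset (Finset ι)) : ∑ p ∈ C ×ˢ D, w1 p = S1 C D := by
  unfold w1 S1
  rw [sum_comm]
  refine sum_congr rfl fun T _ => ?_
  rw [sum_product, cnt1_eq, cnt1_eq, sum_mul_sum]

theorem cnt_univ (z : Finset ι) : cnt univ z = 2 ^ z.card := by
  unfold cnt
  have h : ((univ : Finset (Finset ι)).filter fun x => x ⊆ z) = z.powerset := by
    ext x
    simp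
  rw [h, card_powerset]
  norm_num

theorem cnt1_univ {i : ι} {z : Finset ι} (hi : i ∈ z) : cnt1 univ i z = 2 ^ (z.card - 1) := by
  have h := cnt_split univ i z
  rw [cnt_univ, cnt_univ, card_erase_of_mem hi] at h
  have h1 : 1 ≤ z.card := card_pos.2 ⟨i, hi⟩
  have h2 : (2 : ℝ) ^ z.card = 2 * 2 ^ (z.card - 1) := by
    rw [← pow_succ']
    congr 1
    omega
  linarith

theorem card_P : 2 * ∑ _T ∈ P ι, (1 : ℝ) = Fintype.card ι * 2 ^ Fintype.card ι := by
  rw [sum_P]
  have h1 : ∑ W : Finset ι, ∑ _i ∈ W, (1 : ℝ) = ∑ W : Finset ι, (W.card : ℝ) :=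
    sum_congr rfl fun W _ => by simp
  have h2 : ∑ W : Finset ι, ((Wᶜ).card : ℝ) = ∑ W : Finset ι, (W.card : ℝ) :=
    (compl_involutive.bijective).sum_comp fun W : Finset ι => (W.card : ℝ)
  have h3 : ∑ W : Finset ι, ((Wᶜ).card : ℝ) + ∑ W : Finset ι, (W.card : ℝ) =
      Fintype.card ι * 2 ^ Fintype.card ι := by
    rw [← sum_add_distrib]
    have h4 : ∀ W : Finset ι, ((Wᶜ).card : ℝ) + (W.card : ℝ) = Fintype.card ι := by
      intro W
      have := card_compl_add_card W
      exact_mod_cast this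
    rw [sum_congr rfl fun W _ => h4 W, sum_const, card_univ, Fintype.card_finset, nsmul_eq_mul]
    push_cast
    ring
  linarith

theorem total0 [Nonempty ι] : 4 * S0 (univ : Finset (Finset ι)) univ =
    Fintype.card ι * 4 ^ Fintype.card ι := by
  have hK : 1 ≤ Fintype.card ι := Fintype.card_pos
  have h1 : S0 (univ : Finset (Finset ι)) univ = ∑ _T ∈ P ι, (2 : ℝ) ^ (Fintype.card ι - 1) := by
    unfold S0
    refine sum_congr rfl fun T hT => ?_
    have hi := (mem_filter.1 hT).2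
    have h2 : 1 ≤ T.2.card := card_pos.2 ⟨T.1, hi⟩
    have h3 := card_le_univ T.2
    rw [cnt_univ, cnt_univ, card_erase_of_mem hi, card_compl, ← pow_add]
    congr 1
    omega
  have h2 := card_P (ι := ι)
  have h3 : (4 : ℝ) ^ Fintype.card ι = 2 ^ Fintype.card ι * (2 * 2 ^ (Fintype.card ι - 1)) := by
    rw [← pow_succ', show Fintype.card ι - 1 + 1 = Fintype.card ι by omega, ← mul_pow]
    norm_num
  rw [sum_const, nsmul_eq_mul, mul_one] at h2
  rw [h1, sum_const, nsmul_eq_mul, h3]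
  linear_combination (2 * 2 ^ (Fintype.card ι - 1)) * h2

theorem total1 : S1 (univ : Finset (Finset ι)) univ = S0 (univ : Finset (Finset ι)) univ := by
  unfold S0 S1
  refine sum_congr rfl fun T hT => ?_
  have hi := (mem_filter.1 hT).2
  have hi' : T.1 ∈ (T.2.erase T.1)ᶜ := by simp
  have h2 : 1 ≤ T.2.card := card_pos.2 ⟨T.1, hi⟩
  have h3 := card_le_univ T.2
  rw [cnt_univ, cnt_univ, cnt1_univ hi, cnt1_univ hi', card_compl, card_erase_of_mem hi, card_compl]
  congr 2
  omega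

open Classical in
/-- rejected pairs, one random choice -/
theorem rejected {D : Type} [Fintype D] (dat : Finset ι → Finset ι → D)
    (hrect : ∀ x y x' y', dat x y = dat x' y' → dat x y' = dat x y) (Rej : D → Prop) :
    ∑ p ∈ univ.filter (fun p : Finset ι × Finset ι => Rej (dat p.1 p.2)), w0 p ≤
      32 * ∑ p ∈ univ.filter (fun p : Finset ι × Finset ι => Rej (dat p.1 p.2)), w1 p +
      Fintype.card D * (4 * (Fintype.card ι * (3.988 : ℝ) ^ Fintype.card ι)) := by
  set A : D → Finset (Finset ι) := fun δ => univ.filter fun x => ∃ y, dat x y = δ with hA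
  set B : D → Finset (Finset ι) := fun δ => univ.filter fun y => ∃ x, dat x y = δ with hB
  have hclass : ∀ δ : D, (univ.filter fun p : Finset ι × Finset ι => dat p.1 p.2 = δ) =
      A δ ×ˢ B δ := by
    intro δ
    ext p
    rw [mem_filter, mem_product, hA, hB]
    simp only [mem_filter, mem_univ, true_and]
    constructor
    · intro h
      exact ⟨⟨p.2, h⟩, ⟨p.1, h⟩⟩
    · rintro ⟨⟨y', h1⟩, ⟨x', h2⟩⟩
      rw [hrect p.1 y' x' p.2 (by rw [h1, h2]), h1]
  have hfib : ∀ f : Finset ι × Finset ι → ℝ,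
      ∑ p ∈ univ.filter (fun p : Finset ι × Finset ι => Rej (dat p.1 p.2)), f p =
        ∑ δ ∈ univ.filter Rej, ∑ p ∈ A δ ×ˢ B δ, f p := by
    intro f
    rw [← sum_fiberwise_of_maps_to (g := fun p : Finset ι × Finset ι => dat p.1 p.2)
      (t := univ.filter Rej)]
    · refine sum_congr rfl fun δ hδ => ?_
      rw [← hclass, filter_filter]
      refine sum_congr ?_ fun _ _ => rfl
      apply filter_congr
      intro p _
      constructor
      · exact fun h => h.2
      · intro h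
        refine ⟨?_, h⟩
        rw [h]
        exact (mem_filter.1 hδ).2
    · intro p hp
      rw [mem_filter] at hp ⊢
      exact ⟨mem_univ _, hp.2⟩
  rw [hfib, hfib, mul_sum]
  calc ∑ δ ∈ univ.filter Rej, ∑ p ∈ A δ ×ˢ B δ, w0 p
      ≤ ∑ δ ∈ univ.filter Rej, (32 * ∑ p ∈ A δ ×ˢ B δ, w1 p +
        4 * (Fintype.card ι * (3.988 : ℝ) ^ Fintype.card ι)) := by
        refine sum_le_sum fun δ _ => ?_
        rw [S0_eq, S1_eq]
        exact corr _ _
    _ = ∑ δ ∈ univ.filter Rej, 32 * ∑ p ∈ A δ ×ˢ B δ, w1 p +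
        (univ.filter Rej).card * (4 * (Fintype.card ι * (3.988 : ℝ) ^ Fintype.card ι)) := by
        rw [sum_add_distrib, sum_const, nsmul_eq_mul]
    _ ≤ _ := by
        gcongr
        have : (univ.filter Rej).card ≤ Fintype.card D := card_le_univ _
        exact_mod_cast this

open Classical in
/-- averaging over the random choices -/
theorem average {D Ω : Type} [Fintype D] [Fintype Ω] [Nonempty Ω]
    (dat : Ω → Finset ι → Finset ι → D)
    (hrect : ∀ ω x y x' y', dat ω x y = dat ω x' y' → dat ω x y' = dat ω x y)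
    (Rej : Ω → D → Prop)
    (h1 : ∀ x y, ¬ Disjoint x y → 100 * Nat.card {ω // Rej ω (dat ω x y)} ≤ Nat.card Ω)
    (h2 : ∀ x y, Disjoint x y → 100 * Nat.card {ω // ¬ Rej ω (dat ω x y)} ≤ Nat.card Ω) :
    (1.003 : ℝ) ^ Fintype.card ι ≤ 24 * Fintype.card D := by
  simp only [Nat.card_eq_fintype_card, Fintype.card_subtype] at h1 h2
  have hD : (1 : ℝ) ≤ Fintype.card D := by
    have : Nonempty D := ⟨dat (Classical.arbitrary Ω) ∅ ∅⟩
    have h3 : 1 ≤ Fintype.card D := Fintype.card_pos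
    exact_mod_cast h3
  rcases isEmpty_or_nonempty ι with hι | hι
  · rw [Fintype.card_eq_zero, pow_zero]
    linarith
  set Z : ℝ := S0 (univ : Finset (Finset ι)) univ with hZ
  set W : ℝ := (Fintype.card Ω : ℝ) with hW
  set K : ℕ := Fintype.card ι with hK
  have hKpos : (0 : ℝ) < K := by
    have : 0 < Fintype.card ι := Fintype.card_pos
    exact_mod_cast this
  have hW0 : 0 < W := by
    have : 0 < Fintype.card Ω := Fintype.card_pos
    rw [hW]
    exact_mod_cast this
  have hZ4 : 4 * Z = K * 4 ^ K := total0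
  have hZ1 : S1 (univ : Finset (Finset ι)) univ = Z := total1
  have e0 : ∀ f : Finset ι × Finset ι → ℝ,
      ∑ ω : Ω, ∑ p ∈ univ.filter (fun p : Finset ι × Finset ι => Rej ω (dat ω p.1 p.2)), f p =
      ∑ p : Finset ι × Finset ι, f p * ((univ.filter fun ω => Rej ω (dat ω p.1 p.2)).card : ℝ) := by
    intro f
    simp_rw [sum_filter]
    rw [sum_comm]
    refine sum_congr rfl fun p _ => ?_
    rw [← sum_filter, sum_const, nsmul_eq_mul, mul_comm]
  have u1 : 99 / 100 * W * Z ≤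
      ∑ ω : Ω, ∑ p ∈ univ.filter (fun p : Finset ι × Finset ι => Rej ω (dat ω p.1 p.2)), w0 p := by
    rw [e0, hZ, ← S0_eq, univ_product_univ, mul_sum]
    refine sum_le_sum fun p _ => ?_
    by_cases hp : Disjoint p.1 p.2
    · have h4 := h2 p.1 p.2 hp
      have h5 : (100 : ℝ) * ((univ.filter fun ω => ¬ Rej ω (dat ω p.1 p.2)).card : ℝ) ≤ W := by
        rw [hW]
        exact_mod_cast h4
      have h6 : ((univ.filter fun ω => Rej ω (dat ω p.1 p.2)).card : ℝ) +
          ((univ.filter fun ω => ¬ Rej ω (dat ω p.1 p.2)).card : ℝ) = W := by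
        rw [hW]
        have := card_filter_add_card_filter_not (s := (univ : Finset Ω))
          (fun ω => Rej ω (dat ω p.1 p.2))
        rw [card_univ] at this
        exact_mod_cast this
      have h7 : 99 / 100 * W ≤ ((univ.filter fun ω => Rej ω (dat ω p.1 p.2)).card : ℝ) := by
        linarith
      have h8 := mul_le_mul_of_nonneg_left h7 (w0_nonneg p)
      linarith
    · rw [w0_zero hp]
      simp
  have u2 : ∑ ω : Ω, ∑ p ∈ univ.filter (fun p : Finset ι × Finset ι => Rej ω (dat ω p.1 p.2)),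
      w1 p ≤ 1 / 100 * W * Z := by
    rw [e0, ← hZ1, ← S1_eq, univ_product_univ, mul_sum]
    refine sum_le_sum fun p _ => ?_
    by_cases hp : Disjoint p.1 p.2
    · rw [w1_zero hp]
      simp
    · have h4 := h1 p.1 p.2 hp
      have h5 : (100 : ℝ) * ((univ.filter fun ω => Rej ω (dat ω p.1 p.2)).card : ℝ) ≤ W := by
        rw [hW]
        exact_mod_cast h4
      have h7 : ((univ.filter fun ω => Rej ω (dat ω p.1 p.2)).card : ℝ) ≤ 1 / 100 * W := by
        linarith
      have h8 := mul_le_mul_of_nonneg_left h7 (w1_nonneg p)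
      linarith
  have u3 : ∑ ω : Ω, ∑ p ∈ univ.filter (fun p : Finset ι × Finset ι => Rej ω (dat ω p.1 p.2)),
      w0 p ≤ 32 * ∑ ω : Ω, ∑ p ∈ univ.filter
        (fun p : Finset ι × Finset ι => Rej ω (dat ω p.1 p.2)), w1 p +
        W * (Fintype.card D * (4 * (K * (3.988 : ℝ) ^ K))) := by
    refine (sum_le_sum fun ω _ => rejected (dat ω) (hrect ω) (Rej ω)).trans (le_of_eq ?_)
    rw [sum_add_distrib, sum_const, nsmul_eq_mul, card_univ, ← mul_sum]
  have u4 : W * (K * (67 * (4 : ℝ) ^ K)) ≤ W * (K * (1600 * Fintype.card D * (3.988 : ℝ) ^ K)) := by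
    have h9 : W * (K * (67 * (4 : ℝ) ^ K)) = 268 * (W * Z) := by
      linear_combination (-67 * W) * hZ4
    rw [h9]
    linarith
  have u5 : 67 * (4 : ℝ) ^ K ≤ 1600 * Fintype.card D * (3.988 : ℝ) ^ K :=
    le_of_mul_le_mul_left (le_of_mul_le_mul_left u4 hW0) hKpos
  have u6 : (1.003 : ℝ) ^ K * (3.988 : ℝ) ^ K ≤ 4 ^ K := by
    rw [← mul_pow]
    exact pow_le_pow_left₀ (by norm_num) (by norm_num) K
  have u7 : (67 * (1.003 : ℝ) ^ K) * (3.988 : ℝ) ^ K ≤
      (1600 * Fintype.card D) * (3.988 : ℝ) ^ K := by linarith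
  have u8 := le_of_mul_le_mul_right u7 (by positivity)
  linarith

end Pool.Agent.KS6_49.SR.Raz
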