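import Pool.Agent.KS6_49.SR.Obl2

/-!
Arbitrary partitions of the pairs of vertices.
-/

set_option autoImplicit false

namespace Pool.Agent.KS6_49.SR

open Finset

section Core

variable {N m n q v d : ℕ} [NeZero N]

theorem structure4 (h : 4 * N + m ≤ n) (P : Finset (Sym2 (Fin n))) :
    ∃ (I : Finset (ZMod N × ZMod N)) (σ : ZMod N × ZMod N),
      (univ.filter fun x => posA (m := m) h x ∈ P).card *
        (univ.filter fun x => posB (m := m) h x ∉ P).card ≤ N * N * I.card ∧
      ∀ U ⊆ I, ∀ V ⊆ I, ∀ U' ⊆ I, ∀ V' ⊆ I,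
        Mix P Pᶜ (big (m := m) h σ U Vᶜ) (big h σ U' V'ᶜ) (big h σ U V'ᶜ) := by
  classical
  set X : Finset (ZMod N × ZMod N) := univ.filter fun x => posA (m := m) h x ∈ P with hX
  set Y : Finset (ZMod N × ZMod N) := univ.filter fun x => posB (m := m) h x ∉ P with hY
  obtain ⟨σ, hσ⟩ := shift X Y
  refine ⟨X.filter fun x => x + σ ∈ Y, σ, hσ, ?_⟩
  set I := X.filter fun x => x + σ ∈ Y with hI
  intro U hU V hV U' hU' V' hV'
  have hb : ∀ W W' : Finset (ZMod N × ZMod N), W ⊆ I → ∀ e : Sym2 (Fin n), e ∉ Pᶜ →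
      ∀ x : ZMod N × ZMod N, e = posB (m := m) h x → (x.1 - σ.1, x.2 - σ.2) ∉ Wᶜ →
        (x.1 - σ.1, x.2 - σ.2) ∉ W'ᶜ := by
    intro W W' hW e he x hx hV
    exfalso
    rw [mem_compl, not_not] at hV he
    have h1 := (mem_filter.1 (hW hV)).2
    have h2 : (x.1 - σ.1, x.2 - σ.2) + σ = x := by
      ext <;> simp
    rw [h2] at h1
    apply (mem_filter.1 h1).2
    rw [← hx]
    exact he
  have ha : ∀ W W' : Finset (ZMod N × ZMod N), W ⊆ I → ∀ e : Sym2 (Fin n), e ∉ P →
      ∀ x : ZMod N × ZMod N, e = posA (m := m) h x → x ∈ W → x ∈ W' := by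
    intro W W' hWI e he x hx hV
    exfalso
    have h1 := (mem_filter.1 (hWI hV)).1
    apply he
    rw [hx]
    exact (mem_filter.1 h1).2
  refine ⟨fun e he => ⟨?_, ?_⟩, fun e he => ⟨?_, ?_⟩⟩
  · exact big_sub h σ _ _ _ _ e (fun _ _ hx => hx) (hb V' V hV' e he)
  · exact big_sub h σ _ _ _ _ e (fun _ _ hx => hx) (hb V V' hV e he)
  · exact big_sub h σ _ _ _ _ e (ha U U' hU e he) (fun _ _ hx => hx)
  · exact big_sub h σ _ _ _ _ e (ha U' U hU' e he) (fun _ _ hx => hx)

theorem core_of_mix (h : 4 * N + m ≤ n) {A B : Finset (Sym2 (Fin n))}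
    {I : Finset (ZMod N × ZMod N)} {σ : ZMod N × ZMod N}
    (hmix : ∀ U ⊆ I, ∀ V ⊆ I, ∀ U' ⊆ I, ∀ V' ⊆ I,
        Mix A B (big (m := m) h σ U Vᶜ) (big h σ U' V'ᶜ) (big h σ U V'ᶜ))
    {r : ℕ} {Ω : Type} [Finite Ω] [Nonempty Ω] (R : Ω → Reduction n q v d)
    (hR : TwoSided (m + 4) fun ω => (R ω).Accepts)
    (hdet : ∀ ω hist cl, Det A B r ((R ω).clause hist cl)) :
    (1.003 : ℝ) ^ I.card ≤ 24 * ((r ^ (q * (2 * v + 1) ^ d) : ℕ) : ℝ) ^ 80 := by
  classical
  have hdat := fun ω => red_det (hdet ω)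
  choose dat hacc hmx using hdat
  let U : Finset I → Finset (ZMod N × ZMod N) := fun x => x.map (Function.Embedding.subtype _)
  have hU : ∀ x : Finset I, U x ⊆ I := by
    intro x e he
    obtain ⟨a, -, rfl⟩ := mem_map.1 he
    exact a.2
  let G : Finset I → Finset I → SimpleGraph (Fin n) := fun x y => big (m := m) h σ (U x) (U y)ᶜ
  have hcl : ∀ x y, HasClique (m + 4) (G x y) ↔ ¬ Disjoint x y := by
    intro x y
    change HasClique (m + 4) (big (m := m) h σ (U x) (U y)ᶜ) ↔ _
    rw [big_clique, not_iff_not, subset_compl_iff_disjoint_right]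
    exact disjoint_map _
  have hrej : ∀ ω x y, (∃ G', dat ω G' = dat ω (G x y) ∧ ¬ (R ω).Accepts G') ↔
      ¬ (R ω).Accepts (G x y) := by
    intro ω x y
    constructor
    · rintro ⟨G', h1, h2⟩ h3
      exact h2 ((hacc ω _ _ h1).2 h3)
    · intro h1
      exact ⟨_, rfl, h1⟩
  have key := Raz.average3 (ι := I) (D := Fin q → Clause v d → Fin r)
    (fun ω x y => dat ω (G x y))
    (by
      intro ω x y x' y' he
      exact hmx ω _ _ _ (hmix _ (hU x) _ (hU y) _ (hU x') _ (hU y')) he)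
    (fun ω δ => ∃ G', dat ω G' = δ ∧ ¬ (R ω).Accepts G')
    (by
      intro x y hxy
      have h3 := hR.1 (G x y) ((hcl x y).2 hxy)
      rwa [← Nat.card_congr (Equiv.subtypeEquivRight fun ω => hrej ω x y)] at h3)
    (by
      intro x y hxy
      have h3 := hR.2 (G x y) (fun h4 => (hcl x y).1 h4 hxy)
      have h5 : ∀ ω, (¬ ∃ G', dat ω G' = dat ω (G x y) ∧ ¬ (R ω).Accepts G') ↔
          (R ω).Accepts (G x y) := by
        intro ω
        rw [hrej, not_not]
      rwa [← Nat.card_congr (Equiv.subtypeEquivRight h5)] at h3)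
  rw [Fintype.card_fun, Fintype.card_fun, Fintype.card_fin, Fintype.card_fin,
    card_clause, ← pow_mul, mul_comm _ q, Fintype.card_coe] at key
  exact key

end Core

section Pull

variable {n q v d : ℕ}

/-- renaming the vertices -/
def Reduction.pull (R : Reduction n q v d) (π : Equiv.Perm (Fin n)) : Reduction n q v d :=
  ⟨fun h cl G => R.clause h cl (G.map π.toEmbedding), R.accept⟩

theorem pull_answers (R : Reduction n q v d) (π : Equiv.Perm (Fin n)) (G : SimpleGraph (Fin n))
    (i : ℕ) : (R.pull π).answers G i = R.answers (G.map π.toEmbedding) i := by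
  induction i with
  | zero => rfl
  | succ i ih =>
    rw [Reduction.answers, Reduction.answers, ih]
    rfl

theorem pull_accepts (R : Reduction n q v d) (π : Equiv.Perm (Fin n)) (G : SimpleGraph (Fin n)) :
    (R.pull π).Accepts G ↔ R.Accepts (G.map π.toEmbedding) := by
  unfold Reduction.Accepts
  rw [pull_answers]
  rfl

theorem mem_map_edge (π : Equiv.Perm (Fin n)) (G : SimpleGraph (Fin n)) (e : Sym2 (Fin n)) :
    e ∈ (G.map π.toEmbedding).edgeSet ↔ Sym2.map π.symm e ∈ G.edgeSet := by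
  induction e with
  | h x y =>
  rw [SimpleGraph.mem_edgeSet, SimpleGraph.map_adj, Sym2.map_mk, SimpleGraph.mem_edgeSet]
  constructor
  · rintro ⟨a, b, hab, rfl, rfl⟩
    simpa using hab
  · intro hab
    exact ⟨_, _, hab, by simp, by simp⟩

/-- the renamed set of pairs -/
def pre (π : Equiv.Perm (Fin n)) (P : Finset (Sym2 (Fin n))) : Finset (Sym2 (Fin n)) :=
  univ.filter fun e => Sym2.map π e ∈ P

theorem map_map_symm (π : Equiv.Perm (Fin n)) (e : Sym2 (Fin n)) :
    Sym2.map π (Sym2.map π.symm e) = e := by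
  rw [Sym2.map_map]
  simp

theorem Det.pull {P : Finset (Sym2 (Fin n))} {r : ℕ} {f : SimpleGraph (Fin n) → Prop}
    (hf : Det P Pᶜ r f) (π : Equiv.Perm (Fin n)) :
    Det (pre π P) (pre π P)ᶜ r fun G => f (G.map π.toEmbedding) := by
  obtain ⟨tr, dec, h1, h2⟩ := hf
  refine ⟨fun G => tr (G.map π.toEmbedding), dec, fun G => h1 _, ?_⟩
  intro G G' H hm he
  refine h2 _ _ _ ⟨fun e he => ?_, fun e he => ?_⟩ he
  · rw [mem_map_edge, mem_map_edge]
    apply hm.1
    rw [mem_compl, not_not] at he ⊢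
    exact mem_filter.2 ⟨mem_univ _, by rwa [map_map_symm]⟩
  · rw [mem_map_edge, mem_map_edge]
    apply hm.2
    intro h3
    have h4 := (mem_filter.1 h3).2
    rw [map_map_symm] at h4
    exact he h4

theorem hasClique_map {k : ℕ} (hk : 1 < k) (π : Equiv.Perm (Fin n)) (G : SimpleGraph (Fin n)) :
    HasClique k (G.map π.toEmbedding) ↔ HasClique k G := by
  unfold HasClique
  constructor
  · rintro ⟨s, hs⟩
    rw [SimpleGraph.isNClique_map_iff hk] at hs
    obtain ⟨t, ht, -⟩ := hs
    exact ⟨t, ht⟩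
  · rintro ⟨s, hs⟩
    exact ⟨_, hs.map⟩

end Pull

section Average

variable {n : ℕ}

theorem exists_perm (t t' : Fin 4 ↪ Fin n) : ∃ ρ : Equiv.Perm (Fin n), t.trans ρ.toEmbedding = t' := by
  have h := Equiv.Perm.isMultiplyPretransitive (Fin n) 4
  obtain ⟨ρ, hρ⟩ := h.exists_smul_eq t t'
  refine ⟨ρ, ?_⟩
  rw [← hρ]
  ext i
  rfl

/-- a set of quadruples is hit by the images of a fixed one as often as expected -/
theorem hit (t₀ : Fin 4 ↪ Fin n) (Good : Finset (Fin 4 ↪ Fin n)) :
    Fintype.card (Equiv.Perm (Fin n)) * Good.card ≤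
      n ^ 4 * (univ.filter fun π : Equiv.Perm (Fin n) => t₀.trans π.toEmbedding ∈ Good).card := by
  classical
  set c : (Fin 4 ↪ Fin n) → ℕ := fun t =>
    (univ.filter fun π : Equiv.Perm (Fin n) => t₀.trans π.toEmbedding = t).card with hc
  have hconst : ∀ t, c t = c t₀ := by
    intro t
    obtain ⟨ρ, hρ⟩ := exists_perm t₀ t
    symm
    refine card_bij (fun π _ => ρ * π) ?_ ?_ ?_
    · intro π hπ
      rw [mem_filter] at hπ ⊢
      refine ⟨mem_univ _, ?_⟩
      rw [← hρ]
      ext i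
      have h1 := congrArg (fun e : Fin 4 ↪ Fin n => e i) hπ.2
      simp only [Function.Embedding.trans_apply, Equiv.coe_toEmbedding, Equiv.Perm.mul_apply] at h1 ⊢
      rw [h1]
    · intro π _ π' _ h
      exact mul_left_cancel h
    · intro π hπ
      refine ⟨ρ⁻¹ * π, ?_, by simp⟩
      rw [mem_filter] at hπ ⊢
      refine ⟨mem_univ _, ?_⟩
      ext i
      have h1 := congrArg (fun e : Fin 4 ↪ Fin n => e i) (hπ.2.trans hρ.symm)
      simp only [Function.Embedding.trans_apply, Equiv.coe_toEmbedding, Equiv.Perm.mul_apply] at h1 ⊢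
      rw [h1]
      simp
  have h1 : ∀ S : Finset (Fin 4 ↪ Fin n),
      (univ.filter fun π : Equiv.Perm (Fin n) => t₀.trans π.toEmbedding ∈ S).card = S.card * c t₀ := by
    intro S
    rw [card_eq_sum_card_fiberwise (f := fun π : Equiv.Perm (Fin n) => t₀.trans π.toEmbedding)
      (t := S)]
    · rw [← smul_eq_mul, ← sum_const]
      refine sum_congr rfl fun t ht => ?_
      rw [← hconst t, hc, filter_filter]
      congr 1
      apply filter_congr
      intro π _
      constructor
      · exact fun h => h.2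
      · intro h
        exact ⟨by rw [h]; exact ht, h⟩
    · intro π hπ
      exact (mem_filter.1 (mem_coe.1 hπ)).2
  have h2 := h1 univ
  have h3 : (univ.filter fun π : Equiv.Perm (Fin n) => t₀.trans π.toEmbedding ∈
      (univ : Finset (Fin 4 ↪ Fin n))).card = Fintype.card (Equiv.Perm (Fin n)) := by
    rw [filter_true_of_mem (fun _ _ => mem_univ _), card_univ]
  rw [h3] at h2
  rw [h1 Good, h2]
  have h4 : (univ : Finset (Fin 4 ↪ Fin n)).card ≤ n ^ 4 := by
    rw [card_univ]
    have h5 := Fintype.card_le_of_injective (fun t : Fin 4 ↪ Fin n => (t : Fin 4 → Fin n))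
      Function.Embedding.coe_injective
    rwa [Fintype.card_fun, Fintype.card_fin, Fintype.card_fin] at h5
  calc (univ : Finset (Fin 4 ↪ Fin n)).card * c t₀ * Good.card
      ≤ n ^ 4 * c t₀ * Good.card := by gcongr
    _ = _ := by ring

/-- the quadruples with the first pair in `P` and the second one outside -/
noncomputable def good (P : Finset (Sym2 (Fin n))) : Finset (Fin 4 ↪ Fin n) := by
  classical
  exact univ.filter fun t => s(t 0, t 1) ∈ P ∧ s(t 2, t 3) ∉ P

theorem exists_placement {N m : ℕ} [NeZero N] (h : 4 * N + m ≤ n) (P : Finset (Sym2 (Fin n))) :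
    ∃ π : Equiv.Perm (Fin n), N ^ 4 * (good P).card ≤ n ^ 4 *
      ((univ.filter fun x => posA (N := N) (m := m) h x ∈ pre π P).card *
        (univ.filter fun x => posB (N := N) (m := m) h x ∉ pre π P).card) := by
  classical
  by_contra hcon
  push Not at hcon
  have hne : (univ : Finset (Equiv.Perm (Fin n))).Nonempty := ⟨1, mem_univ _⟩
  have h1 := sum_lt_sum_of_nonempty hne fun π _ => hcon π
  rw [sum_const, card_univ, smul_eq_mul, ← mul_sum] at h1
  have h2 : ∑ π : Equiv.Perm (Fin n),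
      (univ.filter fun x => posA (N := N) (m := m) h x ∈ pre π P).card *
        (univ.filter fun x => posB (N := N) (m := m) h x ∉ pre π P).card =
      ∑ z : (ZMod N × ZMod N) × (ZMod N × ZMod N), (univ.filter fun π : Equiv.Perm (Fin n) =>
        posA (N := N) (m := m) h z.1 ∈ pre π P ∧ posB (N := N) (m := m) h z.2 ∉ pre π P).card := by
    simp_rw [← card_product, ← filter_product, univ_product_univ, card_filter]
    rw [sum_comm]
  rw [h2] at h1
  have h3 : ∀ z : (ZMod N × ZMod N) × (ZMod N × ZMod N),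
      Fintype.card (Equiv.Perm (Fin n)) * (good P).card ≤ n ^ 4 *
        (univ.filter fun π : Equiv.Perm (Fin n) =>
        posA (N := N) (m := m) h z.1 ∈ pre π P ∧ posB (N := N) (m := m) h z.2 ∉ pre π P).card := by
    intro z
    let w : Fin 4 → Vx N m := ![.A z.1.1, .B z.1.2, .C z.2.1, .D z.2.2]
    have hw : Function.Injective w := by
      intro i j hij
      fin_cases i <;> fin_cases j <;> simp_all [w]
    let t₀ : Fin 4 ↪ Fin n := ⟨fun i => emb h (w i), (emb_inj h).comp hw⟩
    refine (hit t₀ (good P)).trans (Nat.mul_le_mul_left _ (card_le_card ?_))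
    intro π hπ
    rw [mem_filter] at hπ ⊢
    refine ⟨mem_univ _, ?_⟩
    have h4 := (mem_filter.1 hπ.2).2
    refine ⟨mem_filter.2 ⟨mem_univ _, h4.1⟩, fun h5 => h4.2 (mem_filter.1 h5).2⟩
  have h4 := sum_le_sum fun z (_ : z ∈ (univ : Finset ((ZMod N × ZMod N) × (ZMod N × ZMod N)))) => h3 z
  rw [sum_const, card_univ, Fintype.card_prod, Fintype.card_prod, ZMod.card, smul_eq_mul,
    ← mul_sum] at h4
  have h5 : N * N * (N * N) * (Fintype.card (Equiv.Perm (Fin n)) * (good P).card) =
      Fintype.card (Equiv.Perm (Fin n)) * (N ^ 4 * (good P).card) := by ring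
  rw [h5] at h4
  exact absurd (lt_of_lt_of_le h1 h4) (lt_irrefl _)

end Average

end Pool.Agent.KS6_49.SR
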