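import Pool.Agent.KS6_49.SR.Split
import Pool.Agent.KS6_49.SR.Asym3

/-!
Arbitrary partitions of the pairs of vertices: the bounds.
-/

set_option autoImplicit false

namespace Pool.Agent.KS6_49.SR

open Finset Filter

/-- The property `f` of graphs has a partition of the graphs into `r` rectangles, for one player who
knows the bits of the pairs in `P` and one who knows the bits of the other pairs: `f G` depends only on
`tr G`, and if `tr G = tr G'` then `tr` has the same value for each graph that agrees with `G` on `P`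
and with `G'` outside `P`. The transcripts of a deterministic protocol are an example. -/
def SplitInto {n : ℕ} (P : Finset (Sym2 (Fin n))) (r : ℕ) (f : SimpleGraph (Fin n) → Prop) : Prop :=
  ∃ (tr : SimpleGraph (Fin n) → Fin r) (dec : Fin r → Prop), (∀ G, f G ↔ dec (tr G)) ∧
    ∀ G G' H : SimpleGraph (Fin n), (∀ e ∈ P, (e ∈ H.edgeSet ↔ e ∈ G.edgeSet)) →
      (∀ e ∉ P, (e ∈ H.edgeSet ↔ e ∈ G'.edgeSet)) → tr G = tr G' → tr H = tr G

theorem SplitInto.det {n : ℕ} {P : Finset (Sym2 (Fin n))} {r : ℕ} {f : SimpleGraph (Fin n) → Prop}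
    (h : SplitInto P r f) : Det P Pᶜ r f := by
  obtain ⟨tr, dec, h1, h2⟩ := h
  refine ⟨tr, dec, h1, fun G G' H hm he => h2 G G' H (fun e he => ?_) hm.2 he⟩
  apply hm.1
  rw [Finset.mem_compl, not_not]
  exact he

section Bound

variable {n q v d : ℕ}

open Classical in
/-- the number of ordered pairs of different vertices with the pair in `P` -/
noncomputable def inside (P : Finset (Sym2 (Fin n))) : Finset (Fin n × Fin n) :=
  univ.filter fun x => x.1 ≠ x.2 ∧ s(x.1, x.2) ∈ P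

open Classical in
/-- the number of ordered pairs of different vertices with the pair outside `P` -/
noncomputable def outside (P : Finset (Sym2 (Fin n))) : Finset (Fin n × Fin n) :=
  univ.filter fun x => x.1 ≠ x.2 ∧ s(x.1, x.2) ∉ P

theorem good_large (P : Finset (Sym2 (Fin n))) :
    (inside P).card * (outside P).card ≤ (good P).card + 4 * n * (inside P).card := by
  classical
  set bad : Fin n × Fin n → Fin n × Fin n → Prop := fun x y =>
    y.1 = x.1 ∨ y.1 = x.2 ∨ y.2 = x.1 ∨ y.2 = x.2 with hbad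
  rw [← card_product, ← card_filter_add_card_filter_not
    (s := inside P ×ˢ outside P) (fun z => ¬ bad z.1 z.2)]
  apply Nat.add_le_add
  · have h1 : ((inside P ×ˢ outside P).filter fun z => ¬ bad z.1 z.2) ⊆
        (good P).image fun t => ((t 0, t 1), (t 2, t 3)) := by
      rintro ⟨⟨a, b⟩, ⟨c, e⟩⟩ hz
      rw [mem_filter, mem_product] at hz
      obtain ⟨⟨h1, h2⟩, h3⟩ := hz
      have h1 := (mem_filter.1 h1).2
      have h2 := (mem_filter.1 h2).2
      simp only [hbad, not_or] at h3 h1 h2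
      obtain ⟨k1, k2, k3, k4⟩ := h3
      have hinj : Function.Injective (![a, b, c, e] : Fin 4 → Fin n) := by
        intro i j hij
        have e1 := h1.1
        have e2 := h2.1
        have e1' := Ne.symm e1
        have e2' := Ne.symm e2
        have k1' := Ne.symm k1
        have k2' := Ne.symm k2
        have k3' := Ne.symm k3
        have k4' := Ne.symm k4
        fin_cases i <;> fin_cases j <;> simp_all
      refine mem_image.2 ⟨⟨![a, b, c, e], hinj⟩, ?_, rfl⟩
      exact mem_filter.2 ⟨mem_univ _, h1.2, h2.2⟩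
    exact (card_le_card h1).trans card_image_le
  · have h2 : ((inside P ×ˢ outside P).filter fun z => ¬ ¬ bad z.1 z.2).card =
        ∑ x ∈ inside P, ((outside P).filter fun y => bad x y).card := by
      rw [card_filter, sum_product]
      refine sum_congr rfl fun x _ => ?_
      rw [card_filter]
      simp only [not_not]
    rw [h2]
    have h3 : ∀ x ∈ inside P, ((outside P).filter fun y => bad x y).card ≤ 4 * n := by
      intro x _
      have h4 : ((outside P).filter fun y => bad x y) ⊆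
          (({x.1} ×ˢ univ) ∪ ({x.2} ×ˢ univ)) ∪ ((univ ×ˢ {x.1}) ∪ (univ ×ˢ {x.2})) := by
        intro y hy
        have h5 := (mem_filter.1 hy).2
        simp only [Finset.mem_union, Finset.mem_product, Finset.mem_singleton, Finset.mem_univ,
          and_true, true_and]
        rcases h5 with h | h | h | h
        · exact Or.inl (Or.inl h)
        · exact Or.inl (Or.inr h)
        · exact Or.inr (Or.inl h)
        · exact Or.inr (Or.inr h)
      refine (card_le_card h4).trans ?_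
      refine (card_union_le _ _).trans ?_
      have h6 := card_union_le (({x.1} : Finset (Fin n)) ×ˢ (univ : Finset (Fin n)))
        (({x.2} : Finset (Fin n)) ×ˢ (univ : Finset (Fin n)))
      have h7 := card_union_le ((univ : Finset (Fin n)) ×ˢ ({x.1} : Finset (Fin n)))
        ((univ : Finset (Fin n)) ×ˢ ({x.2} : Finset (Fin n)))
      simp only [card_product, card_singleton, card_univ, Fintype.card_fin] at h6 h7
      omega
    refine (sum_le_sum h3).trans ?_
    rw [sum_const, smul_eq_mul, mul_comm]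

theorem split_bound {N k : ℕ} (hk : 4 ≤ k) (h : 4 * N + (k - 4) ≤ n) (P : Finset (Sym2 (Fin n)))
    {c : ℕ} {Ω : Type} [Finite Ω] [Nonempty Ω] (R : Ω → Reduction n q v d)
    (hR : TwoSided k fun ω => (R ω).Accepts)
    (hdet : ∀ ω hist cl, SplitInto P (2 ^ c) ((R ω).clause hist cl)) :
    N ^ 2 * (good P).card ≤ n ^ 4 * (1250 + 20000 * (q * (2 * v + 1) ^ d * c)) := by
  rcases Nat.eq_zero_or_pos N with h0 | h0
  · rw [h0]
    simp
  have : NeZero N := ⟨h0.ne'⟩
  obtain ⟨m, rfl⟩ : ∃ m, k = m + 4 := ⟨k - 4, by omega⟩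
  have h' : 4 * N + m ≤ n := by omega
  obtain ⟨π, hπ⟩ := exists_placement (N := N) (m := m) h' P
  obtain ⟨I, σ, hI, hmix⟩ := structure4 (N := N) (m := m) h' (pre π P)
  have hR' : TwoSided (m + 4) fun ω => ((R ω).pull π).Accepts := by
    refine ⟨fun G hG => ?_, fun G hG => ?_⟩
    · have h1 := hR.1 (G.map π.toEmbedding) ((hasClique_map (by omega) π G).2 hG)
      have h2 : ∀ ω, ¬ ((R ω).pull π).Accepts G ↔ ¬ (R ω).Accepts (G.map π.toEmbedding) :=
        fun ω => not_congr (pull_accepts _ _ _)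
      rwa [← Nat.card_congr (Equiv.subtypeEquivRight h2)] at h1
    · have h1 := hR.2 (G.map π.toEmbedding) fun h3 => hG ((hasClique_map (by omega) π G).1 h3)
      have h2 : ∀ ω, ((R ω).pull π).Accepts G ↔ (R ω).Accepts (G.map π.toEmbedding) :=
        fun ω => pull_accepts _ _ _
      rwa [← Nat.card_congr (Equiv.subtypeEquivRight h2)] at h1
  have key := core_of_mix h' hmix (fun ω => (R ω).pull π) hR'
    (fun ω hist cl => (hdet ω hist cl).det.pull π)
  set X := q * (2 * v + 1) ^ d * c with hX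
  have hK : I.card ≤ 1250 + 20000 * X := by
    by_contra hcon
    push Not at hcon
    have e1 : ((2 ^ c) ^ (q * (2 * v + 1) ^ d) : ℕ) = 2 ^ X := by
      rw [← pow_mul, hX]
      congr 1
      ring
    rw [e1] at key
    have h3 : (2 : ℝ) ^ (5 + 80 * X) ≤ (1.003 : ℝ) ^ I.card := by
      calc (2 : ℝ) ^ (5 + 80 * X) ≤ ((1.003 : ℝ) ^ 250) ^ (5 + 80 * X) := by
            apply pow_le_pow_left₀ (by norm_num)
            norm_num
        _ = (1.003 : ℝ) ^ (1250 + 20000 * X) := by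
            rw [← pow_mul]
            congr 1
            ring
        _ ≤ _ := pow_le_pow_right₀ (by norm_num) hcon.le
    have h4 : (24 : ℝ) * (((2 : ℕ) ^ X : ℕ) : ℝ) ^ 80 < 2 ^ (5 + 80 * X) := by
      push_cast
      rw [← pow_mul, pow_add, show X * 80 = 80 * X by ring]
      have : (0 : ℝ) < 2 ^ (80 * X) := by positivity
      nlinarith
    linarith
  have hN2 : 0 < N ^ 2 := by positivity
  refine Nat.le_of_mul_le_mul_left ?_ hN2
  calc N ^ 2 * (N ^ 2 * (good P).card) = N ^ 4 * (good P).card := by ring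
    _ ≤ _ := hπ
    _ ≤ n ^ 4 * (N * N * I.card) := Nat.mul_le_mul_left _ hI
    _ ≤ n ^ 4 * (N * N * (1250 + 20000 * X)) := by gcongr
    _ = _ := by ring

end Bound

theorem asym4 (f g : ℕ → ℕ) (c d k : ℕ) (ε α : ℝ) (hε : 0 < ε) (hα : 0 < α) :
    ∃ n0 : ℕ, ∀ n ≥ n0, 4 * (n / 8) + (k - 4) ≤ n ∧
      ∀ v : ℕ, (v : ℝ) ≤ g k * (Real.logb 2 (f k * (n : ℝ) ^ c) + 1) → ∀ q b A B G : ℕ,
        α * (n : ℝ) ^ 2 ≤ A → α * (n : ℝ) ^ 2 ≤ B → A * B ≤ G + 4 * n * A →
        (n / 8) ^ 2 * G ≤ n ^ 4 * (1250 + 20000 * (q * (2 * v + 1) ^ d * b)) →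
        (n : ℝ) ^ (2 - ε) ≤ 1 + q * b := by
  set B' : ℝ := |Real.logb 2 (f k)| with hB
  set C : ℝ := 2 * g k * (B' + c / Real.log 2 + 1) + 1 with hC
  have hl2 : 0 < Real.log 2 := Real.log_pos (by norm_num)
  have hB0 : 0 ≤ B' := abs_nonneg _
  have hC0 : 0 ≤ C := by positivity
  have ht : Tendsto (fun n : ℕ => (n : ℝ) ^ (ε / 2)) atTop atTop :=
    (tendsto_rpow_atTop (by positivity)).comp tendsto_natCast_atTop_atTop
  have ht1 : ∀ᶠ n : ℕ in atTop, 1 / α ^ 2 ≤ (n : ℝ) ^ (ε / 2) := ht.eventually_ge_atTop _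
  have ht2 : ∀ᶠ n : ℕ in atTop, 8 / α ≤ (n : ℝ) :=
    (tendsto_natCast_atTop_atTop (R := ℝ)).eventually_ge_atTop _
  obtain ⟨n1, hn1⟩ := eventually_atTop.1
    ((log_bound2 C (ε / 2) hC0 (by positivity) d).and (ht1.and ht2))
  refine ⟨max n1 (max 16 (2 * k)), ?_⟩
  intro n hn
  have hn1' : n1 ≤ n := le_trans (le_max_left _ _) hn
  have hn8 : 16 ≤ n := le_trans (le_trans (le_max_left _ _) (le_max_right _ _)) hn
  have hn4 : 2 * k ≤ n := le_trans (le_trans (le_max_right _ _) (le_max_right _ _)) hn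
  obtain ⟨w1, w2, w3⟩ := hn1 n hn1'
  refine ⟨by omega, ?_⟩
  intro v hv q b A B G hA hB' hG h1
  have hnR : (16 : ℝ) ≤ n := by exact_mod_cast hn8
  have hn0 : (0 : ℝ) < n := by linarith
  have hNR : (n : ℝ) / 16 ≤ ((n / 8 : ℕ) : ℝ) := by
    have h2 : n ≤ 16 * (n / 8) := by omega
    have h3 : (n : ℝ) ≤ 16 * ((n / 8 : ℕ) : ℝ) := by exact_mod_cast h2
    linarith
  have hN2 : (n : ℝ) ^ 2 / 256 ≤ ((n / 8 : ℕ) : ℝ) ^ 2 := by
    calc (n : ℝ) ^ 2 / 256 = (n / 16) ^ 2 := by ring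
      _ ≤ ((n / 8 : ℕ) : ℝ) ^ 2 := by gcongr
  have hlog1 : 1 ≤ Real.log n := by
    rw [Real.le_log_iff_exp_le hn0]
    have := Real.exp_one_lt_d9
    linarith
  have hlogb : Real.logb 2 (f k * (n : ℝ) ^ c) ≤ (B' + c / Real.log 2) * Real.log n := by
    rcases Nat.eq_zero_or_pos (f k) with h0 | h0
    · rw [h0]
      simp only [Nat.cast_zero, zero_mul, Real.logb_zero]
      positivity
    · have hf0 : ((f k : ℕ) : ℝ) ≠ 0 := by
        exact_mod_cast h0.ne'
      rw [Real.logb_mul hf0 (by positivity), Real.logb_pow]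
      have h2 : Real.logb 2 (f k) ≤ B' := le_abs_self _
      have h3 : Real.logb 2 (n : ℝ) = Real.log n / Real.log 2 := rfl
      rw [h3]
      have h4 : B' ≤ B' * Real.log n := by nlinarith
      have h5 : (c : ℝ) * (Real.log n / Real.log 2) = c / Real.log 2 * Real.log n := by ring
      rw [h5]
      nlinarith
  have hv2 : 2 * (v : ℝ) + 1 ≤ C * Real.log n := by
    have h2 : (v : ℝ) ≤ g k * ((B' + c / Real.log 2 + 1) * Real.log n) := by
      refine hv.trans ?_
      gcongr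
      linarith
    calc 2 * (v : ℝ) + 1 ≤ 2 * (g k * ((B' + c / Real.log 2 + 1) * Real.log n)) + Real.log n := by
          linarith
      _ = C * Real.log n := by
          rw [hC]
          ring
  have hvd : (2 * (v : ℝ) + 1) ^ d ≤ (n : ℝ) ^ (ε / 2) / 16777216 := by
    refine le_trans ?_ w1
    gcongr
  have hone : (1 : ℝ) ≤ (2 * (v : ℝ) + 1) ^ d := by
    apply one_le_pow₀
    have : (0 : ℝ) ≤ v := Nat.cast_nonneg v
    linarith
  have hα8 : 8 ≤ α * n := by
    rw [div_le_iff₀ hα] at w3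
    linarith
  -- many good quadruples
  have hGR : (A : ℝ) * B ≤ G + 4 * n * A := by exact_mod_cast hG
  have hA0 : (0 : ℝ) ≤ α * (n : ℝ) ^ 2 := by positivity
  have hG2 : α ^ 2 * (n : ℝ) ^ 4 / 2 ≤ G := by
    have e1 : 4 * (n : ℝ) ≤ α * (n : ℝ) ^ 2 / 2 := by nlinarith
    have e2 : α * (n : ℝ) ^ 2 / 2 ≤ (B : ℝ) - 4 * n := by linarith
    have e3 : (α * (n : ℝ) ^ 2) * (α * (n : ℝ) ^ 2 / 2) ≤ A * ((B : ℝ) - 4 * n) :=
      mul_le_mul hA e2 (by positivity) (Nat.cast_nonneg _)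
    have e4 : (A : ℝ) * ((B : ℝ) - 4 * n) ≤ G := by linarith
    have e5 : (α * (n : ℝ) ^ 2) * (α * (n : ℝ) ^ 2 / 2) = α ^ 2 * (n : ℝ) ^ 4 / 2 := by ring
    linarith
  have h6 : ((n / 8 : ℕ) : ℝ) ^ 2 * G ≤
      (n : ℝ) ^ 4 * (1250 + 20000 * (q * (2 * (v : ℝ) + 1) ^ d * b)) := by
    exact_mod_cast h1
  set V : ℝ := (2 * (v : ℝ) + 1) ^ d with hV
  set E : ℝ := (n : ℝ) ^ (ε / 2) with hE
  set Q : ℝ := (q : ℝ) * b with hQ
  have hQ0 : 0 ≤ Q := by positivity
  have hE0 : 0 < E := by positivity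
  have h7 : (n : ℝ) ^ 4 * ((n : ℝ) ^ 2 * α ^ 2) ≤ (n : ℝ) ^ 4 * (10240000 * (V * (1 + Q))) := by
    have e1 : (n : ℝ) ^ 2 / 256 * (α ^ 2 * (n : ℝ) ^ 4 / 2) ≤ ((n / 8 : ℕ) : ℝ) ^ 2 * G :=
      mul_le_mul hN2 hG2 (by positivity) (by positivity)
    have e2 : (1250 : ℝ) + 20000 * (q * V * b) ≤ 20000 * (V * (1 + Q)) := by
      have e3 : (q : ℝ) * V * b = V * Q := by
        rw [hQ]
        ring
      rw [e3]
      nlinarith
    have e4 : (n : ℝ) ^ 4 * (1250 + 20000 * (q * V * b)) ≤ (n : ℝ) ^ 4 * (20000 * (V * (1 + Q))) := by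
      gcongr
    have e5 := e1.trans (h6.trans e4)
    have e6 : (n : ℝ) ^ 2 / 256 * (α ^ 2 * (n : ℝ) ^ 4 / 2) =
        (n : ℝ) ^ 4 * ((n : ℝ) ^ 2 * α ^ 2) / 512 := by ring
    rw [e6] at e5
    have e7 : (n : ℝ) ^ 4 * (10240000 * (V * (1 + Q))) =
        512 * ((n : ℝ) ^ 4 * (20000 * (V * (1 + Q)))) := by ring
    rw [e7]
    linarith
  have h8 : (n : ℝ) ^ 2 * α ^ 2 ≤ 10240000 * (V * (1 + Q)) :=
    le_of_mul_le_mul_left h7 (by positivity)
  have h9 : (n : ℝ) ^ 2 * α ^ 2 ≤ E * (1 + Q) := by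
    have e1 : V * (1 + Q) ≤ E / 16777216 * (1 + Q) := by gcongr
    have e2 : 0 ≤ E * (1 + Q) := by positivity
    have e3 : E / 16777216 * (1 + Q) = E * (1 + Q) / 16777216 := by ring
    rw [e3] at e1
    linarith
  have h10 : (n : ℝ) ^ 2 ≤ (n : ℝ) ^ ε * (1 + Q) := by
    have e1 : (n : ℝ) ^ ε = E * E := by
      rw [hE, ← Real.rpow_add hn0]
      congr 1
      ring
    have hα2 : 0 < α ^ 2 := by positivity
    have e2 : 1 ≤ E * α ^ 2 := by
      rwa [div_le_iff₀ hα2] at w2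
    rw [e1]
    have e3 : (n : ℝ) ^ 2 * α ^ 2 ≤ (E * E * (1 + Q)) * α ^ 2 := by
      calc (n : ℝ) ^ 2 * α ^ 2 ≤ E * (1 + Q) := h9
        _ = 1 * (E * (1 + Q)) := by ring
        _ ≤ (E * α ^ 2) * (E * (1 + Q)) := by gcongr
        _ = _ := by ring
    exact le_of_mul_le_mul_right e3 hα2
  rw [Real.rpow_sub hn0, div_le_iff₀ (by positivity), Real.rpow_two]
  linarith

end Pool.Agent.KS6_49.SR
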