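import Pool.Agent.KS6_49.SR.Main

/-!
Two-sided error, deterministic machines: the structure, and transcripts.
-/

set_option autoImplicit false

namespace Pool.Agent.KS6_49.SR

open Finset

/-- `runD step G t l a` is the last state of a deterministic machine that starts in the state `a` at
time `t` and reads the pairs in the list `l` one after the other. At time `t` the machine gets the bit
`β` that says whether the pair is an edge of `G`, and goes from the state `a` to `step t a β`. -/
def runD {n w : ℕ} (step : ℕ → Fin w → Prop → Fin w) (G : SimpleGraph (Fin n)) :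
    ℕ → List (Sym2 (Fin n)) → Fin w → Fin w
  | _, [], a => a
  | t, e :: l, a => runD step G (t + 1) l (step t a (e ∈ G.edgeSet))

/-- The property `f` of graphs is decided by a deterministic machine with `w` states that reads the
pairs in the order of the list `l`. -/
def Decided {n : ℕ} (l : List (Sym2 (Fin n))) (w : ℕ) (f : SimpleGraph (Fin n) → Prop) : Prop :=
  ∃ (step : ℕ → Fin w → Prop → Fin w) (start : Fin w) (acc : Set (Fin w)),
    ∀ G, f G ↔ runD step G 0 l start ∈ acc

/-- The random test `acc` for cliques with `k` vertices has two-sided error: each graph is classified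
correctly with probability at least `2 / 3`. -/
def TwoSided {n : ℕ} {Ω : Type} (k : ℕ) (acc : Ω → SimpleGraph (Fin n) → Prop) : Prop :=
  (∀ G, HasClique k G → 3 * Nat.card {ω // ¬ acc ω G} ≤ Nat.card Ω) ∧
    ∀ G, ¬ HasClique k G → 3 * Nat.card {ω // acc ω G} ≤ Nat.card Ω

section Structure

variable {N m n : ℕ} [NeZero N]

/-- the structure, for two independent sets -/
theorem structure2 (h : 4 * N + m ≤ n) (os ps : List (List (Sym2 (Fin n))))
    (hos : ∀ l ∈ os, l.Nodup) (hps : ∀ l ∈ ps, l ∈ os) :
    ∃ (A B : Finset (Sym2 (Fin n))) (segs : List (List (Sym2 (Fin n))))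
      (I : Finset (ZMod N × ZMod N)) (σ : ZMod N × ZMod N),
      segs.flatten = ps.flatten ∧ segs.length = 2 * ps.length ∧
      (∀ s ∈ segs, Avoids s B ∨ Avoids s A) ∧ N * N ≤ 4 ^ os.length * I.card ∧
      ∀ U ⊆ I, ∀ V ⊆ I, ∀ U' ⊆ I, ∀ V' ⊆ I,
        Mix A B (big (m := m) h σ U Vᶜ) (big h σ U' V'ᶜ) (big h σ U V'ᶜ) := by
  classical
  have hdis : Disjoint (univ.image (posA (N := N) (m := m) h)) (univ.image (posB (m := m) h)) := by
    rw [disjoint_left]
    intro e he he'
    obtain ⟨x, -, rfl⟩ := mem_image.1 he
    obtain ⟨y, -, hy⟩ := mem_image.1 he'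
    exact pos_ne h x y hy.symm
  obtain ⟨A, B, hA, hB, hcA, hcB, hdiv⟩ := cuts os hos _ _ hdis
  obtain ⟨segs, hs1, hs2, hs3⟩ := segments ps fun l hl => hdiv l (hps l hl)
  have hcardA : (univ.image (posA (N := N) (m := m) h)).card = N * N := by
    rw [card_image_of_injective _ (posA_inj h), card_univ, Fintype.card_prod, ZMod.card]
  have hcardB : (univ.image (posB (N := N) (m := m) h)).card = N * N := by
    rw [card_image_of_injective _ (posB_inj h), card_univ, Fintype.card_prod, ZMod.card]
  rw [hcardA] at hcA
  rw [hcardB] at hcB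
  set X : Finset (ZMod N × ZMod N) := univ.filter fun x => posA (m := m) h x ∈ A with hX
  set Y : Finset (ZMod N × ZMod N) := univ.filter fun x => posB (m := m) h x ∈ B with hY
  have hXA : A.card ≤ X.card := by
    have : A ⊆ X.image (posA h) := by
      intro e he
      obtain ⟨x, -, rfl⟩ := mem_image.1 (hA he)
      exact mem_image_of_mem _ (mem_filter.2 ⟨mem_univ _, he⟩)
    exact (card_le_card this).trans card_image_le
  have hYB : B.card ≤ Y.card := by
    have : B ⊆ Y.image (posB h) := by
      intro e he
      obtain ⟨x, -, rfl⟩ := mem_image.1 (hB he)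
      exact mem_image_of_mem _ (mem_filter.2 ⟨mem_univ _, he⟩)
    exact (card_le_card this).trans card_image_le
  obtain ⟨σ, hσ⟩ := shift X Y
  refine ⟨A, B, segs, X.filter fun x => x + σ ∈ Y, σ, hs1, hs2, hs3, ?_, ?_⟩
  · have hN : 0 < N * N := Nat.mul_pos (NeZero.pos N) (NeZero.pos N)
    refine Nat.le_of_mul_le_mul_left ?_ hN
    have h4 : (4 : ℕ) ^ os.length = 2 ^ os.length * 2 ^ os.length := by
      rw [← mul_pow]
      norm_num
    calc N * N * (N * N) ≤ (2 ^ os.length * A.card) * (2 ^ os.length * B.card) :=
          Nat.mul_le_mul hcA hcB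
      _ ≤ (2 ^ os.length * X.card) * (2 ^ os.length * Y.card) :=
          Nat.mul_le_mul (Nat.mul_le_mul_left _ hXA) (Nat.mul_le_mul_left _ hYB)
      _ = 4 ^ os.length * (X.card * Y.card) := by
          rw [h4]
          ring
      _ ≤ 4 ^ os.length * (N * N * (X.filter fun x => x + σ ∈ Y).card) :=
          Nat.mul_le_mul_left _ hσ
      _ = _ := by ring
  · set I := X.filter fun x => x + σ ∈ Y with hI
    intro U hU V hV U' hU' V' hV'
    have hb : ∀ W W' : Finset (ZMod N × ZMod N), W ⊆ I → ∀ e : Sym2 (Fin n), e ∉ B →
        ∀ x : ZMod N × ZMod N, e = posB (m := m) h x → (x.1 - σ.1, x.2 - σ.2) ∉ Wᶜ →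
          (x.1 - σ.1, x.2 - σ.2) ∉ W'ᶜ := by
      intro W W' hW e he x hx hV
      exfalso
      rw [mem_compl, not_not] at hV
      have h1 := (mem_filter.1 (hW hV)).2
      have h2 : (x.1 - σ.1, x.2 - σ.2) + σ = x := by
        ext <;> simp
      rw [h2] at h1
      apply he
      rw [hx]
      exact (mem_filter.1 h1).2
    have ha : ∀ W W' : Finset (ZMod N × ZMod N), W ⊆ I → ∀ e : Sym2 (Fin n), e ∉ A →
        ∀ x : ZMod N × ZMod N, e = posA (m := m) h x → x ∈ W → x ∈ W' := by
      intro W W' hWI e he x hx hV
      exfalso
      have h1 := (mem_filter.1 (hWI hV)).1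
      apply he
      rw [hx]
      exact (mem_filter.1 h1).2
    refine ⟨fun e he => ⟨?_, ?_⟩, fun e he => ⟨?_, ?_⟩⟩
    · exact big_sub h σ _ _ _ _ e (fun _ _ hx => hx) (hb V' V hV' e he)
    · exact big_sub h σ _ _ _ _ e (fun _ _ hx => hx) (hb V V' hV e he)
    · exact big_sub h σ _ _ _ _ e (ha U U' hU e he) (fun _ _ hx => hx)
    · exact big_sub h σ _ _ _ _ e (ha U' U hU' e he) (fun _ _ hx => hx)

end Structure

section Transcript

variable {n w : ℕ}

/-- a function of a transcript which behaves well under mixing -/
def Det (A B : Finset (Sym2 (Fin n))) (r : ℕ) (f : SimpleGraph (Fin n) → Prop) : Prop :=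
  ∃ (tr : SimpleGraph (Fin n) → Fin r) (dec : Fin r → Prop), (∀ G, f G ↔ dec (tr G)) ∧
    ∀ G G' H, Mix A B G G' H → tr G = tr G' → tr H = tr G

theorem runD_congr (step : ℕ → Fin w → Prop → Fin w) {G H : SimpleGraph (Fin n)}
    (l : List (Sym2 (Fin n))) : (∀ e ∈ l, (e ∈ H.edgeSet ↔ e ∈ G.edgeSet)) → ∀ (t : ℕ) (a : Fin w),
    runD step H t l a = runD step G t l a := by
  induction l with
  | nil =>
    intro _ t a
    rfl
  | cons e l ih =>
    intro he t a
    simp only [runD]
    rw [propext (he e (by simp))]
    exact ih (fun e' he' => he e' (by simp [he'])) _ _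

theorem runD_append (step : ℕ → Fin w → Prop → Fin w) (G : SimpleGraph (Fin n))
    (l l' : List (Sym2 (Fin n))) : ∀ (t : ℕ) (a : Fin w),
    runD step G t (l ++ l') a = runD step G (t + l.length) l' (runD step G t l a) := by
  induction l with
  | nil =>
    intro t a
    simp [runD]
  | cons e l ih =>
    intro t a
    simp only [List.cons_append, runD, ih, List.length_cons]
    rw [show t + (l.length + 1) = t + 1 + l.length by ring]

theorem segs_tr (step : ℕ → Fin w → Prop → Fin w) {A B : Finset (Sym2 (Fin n))}
    (segs : List (List (Sym2 (Fin n)))) : (∀ s ∈ segs, Avoids s B ∨ Avoids s A) → ∀ t : ℕ,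
    ∃ (J : Type) (_ : Fintype J), Fintype.card J = w ^ segs.length ∧
      ∀ a : Fin w, ∃ (tr : SimpleGraph (Fin n) → J) (last : J → Fin w),
        (∀ G, last (tr G) = runD step G t segs.flatten a) ∧
        ∀ G G' H, Mix A B G G' H → tr G = tr G' → tr H = tr G := by
  induction segs with
  | nil =>
    intro _ t
    exact ⟨Unit, inferInstance, by simp, fun a => ⟨fun _ => (), fun _ => a, fun G => rfl,
      fun _ _ _ _ _ => rfl⟩⟩
  | cons s segs ih =>
    intro hs t
    obtain ⟨J, hJ, hcard, hcov⟩ := ih (fun s' hs' => hs s' (by simp [hs'])) (t + s.length)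
    choose tr last h1 h2 using hcov
    refine ⟨Fin w × J, inferInstance, ?_, fun a => ?_⟩
    · rw [Fintype.card_prod, hcard, List.length_cons, pow_succ, mul_comm, Fintype.card_fin]
    · refine ⟨fun G => (runD step G t s a, tr (runD step G t s a) G), fun x => last x.1 x.2,
        fun G => ?_, ?_⟩
      · rw [List.flatten_cons, runD_append]
        exact h1 _ G
      · intro G G' H hm he
        rw [Prod.mk.injEq] at he
        obtain ⟨e1, e2⟩ := he
        rw [← e1] at e2
        have e3 : runD step H t s a = runD step G t s a := by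
          rcases hs s (by simp) with hl | hl
          · exact runD_congr step s (fun e he => hm.1 e (hl e he)) t a
          · rw [e1]
            exact runD_congr step s (fun e he => hm.2 e (hl e he)) t a
        beta_reduce
        rw [e3, h2 _ G G' H hm e2]

theorem decided_det {A B : Finset (Sym2 (Fin n))} {segs : List (List (Sym2 (Fin n)))}
    (hs : ∀ s ∈ segs, Avoids s B ∨ Avoids s A) {f : SimpleGraph (Fin n) → Prop}
    (h : Decided segs.flatten w f) : Det A B (w ^ segs.length) f := by
  obtain ⟨step, start, acc, h⟩ := h
  obtain ⟨J, hJ, hcard, hcov⟩ := segs_tr step segs hs 0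
  obtain ⟨tr, last, h1, h2⟩ := hcov start
  let e : J ≃ Fin (w ^ segs.length) := Fintype.equivFinOfCardEq hcard
  refine ⟨fun G => e (tr G), fun j => last (e.symm j) ∈ acc, fun G => ?_, ?_⟩
  · beta_reduce
    rw [h G, Equiv.symm_apply_apply, h1]
  · intro G G' H hm he
    beta_reduce at he ⊢
    rw [h2 G G' H hm (e.injective he)]

variable {q v d : ℕ}

/-- the transcripts of an adaptive reduction -/
theorem red_det {A B : Finset (Sym2 (Fin n))} {R : Reduction n q v d} {r : ℕ}
    (hR : ∀ hist cl, Det A B r (R.clause hist cl)) :
    ∃ dat : SimpleGraph (Fin n) → Fin q → Clause v d → Fin r,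
      (∀ G G', dat G = dat G' → (R.Accepts G ↔ R.Accepts G')) ∧
      ∀ G G' H, Mix A B G G' H → dat G = dat G' → dat H = dat G := by
  choose tr dec h1 h2 using hR
  refine ⟨fun G i cl => tr (R.answers G i) cl G, ?_, ?_⟩
  · intro G G' he
    have key : ∀ i ≤ q, R.answers G i = R.answers G' i := by
      intro i
      induction i with
      | zero =>
        intro _
        rfl
      | succ i ih =>
        intro hi
        have h3 := ih (by omega)
        have h4 : (fun cl => R.clause (R.answers G i) cl G) =
            fun cl => R.clause (R.answers G' i) cl G' := by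
          funext cl
          have h5 := congrFun (congrFun he ⟨i, hi⟩) cl
          change tr (R.answers G i) cl G = tr (R.answers G' i) cl G' at h5
          rw [← h3] at h5 ⊢
          rw [propext (h1 (R.answers G i) cl G), propext (h1 (R.answers G i) cl G'), h5]
        rw [Reduction.answers, Reduction.answers, h4, h3]
    unfold Reduction.Accepts
    rw [key q le_rfl]
  · intro G G' H hm he
    have key : ∀ i ≤ q, R.answers G' i = R.answers G i ∧ R.answers H i = R.answers G i := by
      intro i
      induction i with
      | zero =>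
        intro _
        exact ⟨rfl, rfl⟩
      | succ i ih =>
        intro hi
        obtain ⟨h3, h3'⟩ := ih (by omega)
        have h5 : ∀ cl, tr (R.answers G i) cl G = tr (R.answers G i) cl G' := by
          intro cl
          have h5 := congrFun (congrFun he ⟨i, hi⟩) cl
          change tr (R.answers G i) cl G = tr (R.answers G' i) cl G' at h5
          rwa [h3] at h5
        have h4 : (fun cl => R.clause (R.answers G' i) cl G') =
            fun cl => R.clause (R.answers G i) cl G := by
          funext cl
          rw [h3, propext (h1 (R.answers G i) cl G), propext (h1 (R.answers G i) cl G'), h5]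
        have h4' : (fun cl => R.clause (R.answers H i) cl H) =
            fun cl => R.clause (R.answers G i) cl G := by
          funext cl
          rw [h3', propext (h1 (R.answers G i) cl G), propext (h1 (R.answers G i) cl H),
            h2 _ cl G G' H hm (h5 cl)]
        constructor
        · rw [Reduction.answers, Reduction.answers, h4, h3]
        · rw [Reduction.answers, Reduction.answers, h4', h3']
    funext i cl
    have h3 := (key i i.2.le).1
    have h3' := (key i i.2.le).2
    have h5 := congrFun (congrFun he i) cl
    change tr (R.answers G i) cl G = tr (R.answers G' i) cl G' at h5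
    rw [h3] at h5
    change tr (R.answers H i) cl H = tr (R.answers G i) cl G
    rw [h3']
    exact h2 _ cl G G' H hm h5

end Transcript

end Pool.Agent.KS6_49.SR
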