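import Pool.Agent.KS6_49.SR.Defs

/-!
Two reductions.
-/

set_option autoImplicit false

namespace Pool.Agent.KS6_49.SR

open Finset

variable {n : ℕ}

theorem run_check {W : Type} (l : List (Sym2 (Fin n))) (Q : W → Sym2 (Fin n) → Prop → Prop)
    (G : SimpleGraph (Fin n)) (l' : List (Sym2 (Fin n))) : ∀ t : ℕ, l.drop t = l' → ∀ a b : W,
    (Run (fun t a β c => a = c ∧ ∀ e, l[t]? = some e → Q a e β) G t l' a b ↔
      a = b ∧ ∀ e ∈ l', Q a e (e ∈ G.edgeSet)) := by
  induction l' with
  | nil =>
    intro t _ a b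
    simp [Run]
  | cons e l' ih =>
    intro t ht a b
    have h1 : l[t]? = some e := by
      have := congrArg (fun x => x[0]?) ht
      simpa [List.getElem?_drop] using this
    have h2 : l.drop (t + 1) = l' := by
      have := congrArg List.tail ht
      simpa [List.tail_drop] using this
    simp only [Run, h1, Option.some.injEq]
    constructor
    · rintro ⟨c, ⟨rfl, h3⟩, h4⟩
      rw [ih (t + 1) h2] at h4
      refine ⟨h4.1, ?_⟩
      intro e' he'
      rw [List.mem_cons] at he'
      rcases he' with rfl | he'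
      · exact h3 _ rfl
      · exact h4.2 e' he'
    · rintro ⟨rfl, h3⟩
      refine ⟨a, ⟨rfl, ?_⟩, ?_⟩
      · rintro e' rfl
        exact h3 _ (by simp)
      · rw [ih (t + 1) h2]
        exact ⟨rfl, fun e' he' => h3 e' (by simp [he'])⟩

theorem rec_check (l : List (Sym2 (Fin n))) {w : ℕ} (Q : Fin w → Sym2 (Fin n) → Prop → Prop)
    (init : Set (Fin w)) :
    Recognised l w fun G => ∃ a ∈ init, ∀ e ∈ l, Q a e (e ∈ G.edgeSet) := by
  refine ⟨fun t a β c => a = c ∧ ∀ e, l[t]? = some e → Q a e β, init, Set.univ, fun G => ?_⟩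
  constructor
  · rintro ⟨a, ha, h⟩
    exact ⟨a, ha, a, trivial, (run_check l Q G l 0 (List.drop_zero) a a).2 ⟨rfl, h⟩⟩
  · rintro ⟨a, ha, b, _, h⟩
    exact ⟨a, ha, ((run_check l Q G l 0 (List.drop_zero) a b).1 h).2⟩

theorem rec_congr {l : List (Sym2 (Fin n))} {w : ℕ} {f f' : SimpleGraph (Fin n) → Prop}
    (h : Recognised l w f) (hf : ∀ G, f' G ↔ f G) : Recognised l w f' := by
  have : f' = f := funext fun G => propext (hf G)
  rwa [this]

theorem rec_true (l : List (Sym2 (Fin n))) {w : ℕ} (hw : 0 < w) : Recognised l w fun _ => True := by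
  refine rec_congr (rec_check l (fun _ _ _ => True) Set.univ) fun G => ?_
  exact ⟨fun _ => ⟨⟨0, hw⟩, trivial, fun _ _ => trivial⟩, fun _ => trivial⟩

theorem rec_false (l : List (Sym2 (Fin n))) (w : ℕ) : Recognised l w fun _ => False := by
  refine rec_congr (rec_check l (fun _ _ _ => True) ∅) fun G => ?_
  constructor
  · exact False.elim
  · rintro ⟨a, ha, _⟩
    exact ha

/-- cliques as tuples -/
theorem hasClique_iff {k : ℕ} (G : SimpleGraph (Fin n)) :
    HasClique k G ↔ ∃ f : Fin k → Fin n, ∀ i j, i ≠ j → G.Adj (f i) (f j) := by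
  constructor
  · rintro ⟨s, hs⟩
    have hcard : Fintype.card (Fin k) = Fintype.card s := by
      rw [Fintype.card_fin, Fintype.card_coe, hs.card_eq]
    refine ⟨fun i => (Fintype.equivOfCardEq hcard i : s), fun i j hij => ?_⟩
    exact hs.isClique (Fintype.equivOfCardEq hcard i).2 (Fintype.equivOfCardEq hcard j).2
      fun h => hij ((Fintype.equivOfCardEq hcard).injective (Subtype.ext h))
  · rintro ⟨f, hf⟩
    have hinj : Function.Injective f := by
      intro i j hij
      by_contra hne
      exact (hf i j hne).ne hij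
    refine ⟨univ.map ⟨f, hinj⟩, ?_, by simp⟩
    intro x hx y hy hxy
    rw [coe_map, Set.mem_image] at hx hy
    obtain ⟨i, -, rfl⟩ := hx
    obtain ⟨j, -, rfl⟩ := hy
    exact hf i j fun h => hxy (by rw [h])

/-- A clique can be guessed and verified in one pass. -/
theorem rec_clique (k : ℕ) (l : List (Sym2 (Fin n))) (hl : ∀ u v : Fin n, u ≠ v → s(u, v) ∈ l) :
    Recognised l (n ^ k) (HasClique k) := by
  refine rec_congr (rec_check l (fun a e β => ∀ i j, i ≠ j →
    e = s(finFunctionFinEquiv.symm a i, finFunctionFinEquiv.symm a j) → β)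
    {a | Function.Injective (finFunctionFinEquiv.symm a : Fin k → Fin n)}) fun G => ?_
  rw [hasClique_iff]
  constructor
  · rintro ⟨f, hf⟩
    refine ⟨finFunctionFinEquiv f, ?_, ?_⟩
    · change Function.Injective (finFunctionFinEquiv.symm (finFunctionFinEquiv f))
      rw [Equiv.symm_apply_apply]
      intro i j hij
      by_contra hne
      exact (hf i j hne).ne hij
    · intro e _ i j hij he
      rw [Equiv.symm_apply_apply] at he
      rw [he]
      exact hf i j hij
  · rintro ⟨a, ha, h⟩
    refine ⟨finFunctionFinEquiv.symm a, fun i j hij => ?_⟩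
    exact h _ (hl _ _ fun h' => hij (ha h')) i j hij rfl

/-- **A reduction whose omitted clauses are recognised in one pass with little memory.** -/
theorem upper_omit (k v d : ℕ) (hn : 1 ≤ n) (l : List (Sym2 (Fin n)))
    (hl : ∀ u v : Fin n, u ≠ v → s(u, v) ∈ l) :
    ∃ F : Clause v d → SimpleGraph (Fin n) → Prop, (∀ G, (Sat fun cl => F cl G) ↔ HasClique k G) ∧
      ∀ cl, Recognised l (n ^ k) fun G => ¬ F cl G := by
  refine ⟨fun cl G => cl = (fun _ => none) ∧ ¬ HasClique k G, fun G => ?_, fun cl => ?_⟩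
  · constructor
    · rintro ⟨a, ha⟩
      by_contra hn
      obtain ⟨i, x, s, h, _⟩ := ha _ ⟨rfl, hn⟩
      exact absurd h (by simp)
    · intro h
      exact ⟨fun _ => true, fun cl hcl => absurd h hcl.2⟩
  · by_cases hcl : cl = fun _ => none
    · refine rec_congr (rec_clique k l hl) fun G => ?_
      rw [not_and, not_not]
      exact ⟨fun h => h hcl, fun h _ => h⟩
    · refine rec_congr (rec_true l (Nat.pow_pos hn)) fun G => ?_
      exact ⟨fun _ => trivial, fun _ h => hcl h.1⟩

theorem rec_adj (l : List (Sym2 (Fin n))) (hl : ∀ u v : Fin n, u ≠ v → s(u, v) ∈ l) (u v : Fin n) :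
    (Recognised l 1 fun G => G.Adj u v) ∧ Recognised l 1 fun G => ¬ G.Adj u v := by
  by_cases huv : u = v
  · subst huv
    refine ⟨rec_congr (rec_false l 1) fun G => ?_, rec_congr (rec_true l one_pos) fun G => ?_⟩
    · simp
    · simp
  · refine ⟨rec_congr (rec_check l (fun _ e β => e = s(u, v) → β) Set.univ) fun G => ?_,
      rec_congr (rec_check l (fun _ e β => e = s(u, v) → ¬ β) Set.univ) fun G => ?_⟩
    · constructor
      · intro h
        refine ⟨0, trivial, ?_⟩
        rintro e _ rfl
        exact h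
      · rintro ⟨_, _, h⟩
        exact h _ (hl u v huv) rfl
    · constructor
      · intro h
        refine ⟨0, trivial, ?_⟩
        rintro e _ rfl
        exact h
      · rintro ⟨_, _, h⟩
        exact h _ (hl u v huv) rfl

/-- words -/
noncomputable def wd (b : ℕ) : Fin (2 ^ b) ≃ (Fin b → Bool) :=
  Fintype.equivOfCardEq (by simp)

/-- the clause which forbids that the `i`-th and `j`-th words are `u` and `v` -/
noncomputable def cls {k b : ℕ} (i j : Fin k) (u v : Fin (2 ^ b)) : Clause (k * b) (2 * b) :=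
  fun p => some (finProdFinEquiv (if (finProdFinEquiv.symm p).1 = 0 then i else j,
    (finProdFinEquiv.symm p).2), !(wd b (if (finProdFinEquiv.symm p).1 = 0 then u else v)
      (finProdFinEquiv.symm p).2))

theorem cls_inj {k b : ℕ} {i j i' j' : Fin k} {u v u' v' : Fin (2 ^ b)}
    (h : cls i j u v = cls i' j' u' v') : u = u' ∧ v = v' := by
  constructor
  · apply (wd b).injective
    funext t
    have h1 := congrFun h (finProdFinEquiv (0, t))
    simp only [cls, Equiv.symm_apply_apply, if_true, Option.some.injEq, Prod.mk.injEq,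
      Bool.not_inj_iff] at h1
    exact h1.2
  · apply (wd b).injective
    funext t
    have h1 := congrFun h (finProdFinEquiv (1, t))
    simp only [cls, Equiv.symm_apply_apply, one_ne_zero, if_false, Option.some.injEq,
      Prod.mk.injEq, Bool.not_inj_iff] at h1
    exact h1.2

/-- the formula -/
def fml (k b : ℕ) (cl : Clause (k * b) (2 * b)) (G : SimpleGraph (Fin (2 ^ b))) : Prop :=
  ∃ (i j : Fin k) (u v : Fin (2 ^ b)), i ≠ j ∧ cl = cls i j u v ∧ ¬ G.Adj u v

theorem fml_rec (k b : ℕ) (l : List (Sym2 (Fin (2 ^ b))))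
    (hl : ∀ u v : Fin (2 ^ b), u ≠ v → s(u, v) ∈ l) (cl : Clause (k * b) (2 * b)) :
    Recognised l 1 (fml k b cl) ∧ Recognised l 1 fun G => ¬ fml k b cl G := by
  by_cases h : ∃ (i j : Fin k) (u v : Fin (2 ^ b)), i ≠ j ∧ cl = cls i j u v
  · obtain ⟨i, j, u, v, hij, hcl⟩ := h
    have h1 : ∀ G, fml k b cl G ↔ ¬ G.Adj u v := by
      intro G
      constructor
      · rintro ⟨i', j', u', v', _, hcl', hadj⟩
        obtain ⟨rfl, rfl⟩ := cls_inj (hcl.symm.trans hcl')
        exact hadj
      · intro hadj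
        exact ⟨i, j, u, v, hij, hcl, hadj⟩
    refine ⟨rec_congr (rec_adj l hl u v).2 h1, rec_congr (rec_adj l hl u v).1 fun G => ?_⟩
    rw [h1, not_not]
  · have h1 : ∀ G, ¬ fml k b cl G := by
      rintro G ⟨i', j', u', v', hij, hcl', _⟩
      exact h ⟨i', j', u', v', hij, hcl'⟩
    refine ⟨rec_congr (rec_false l 1) fun G => ?_, rec_congr (rec_true l one_pos) fun G => ?_⟩
    · exact ⟨h1 G, False.elim⟩
    · exact ⟨fun _ => trivial, fun _ => h1 G⟩

theorem fml_sat (k b : ℕ) (G : SimpleGraph (Fin (2 ^ b))) :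
    (Sat fun cl => fml k b cl G) ↔ HasClique k G := by
  classical
  have hcl : ∀ (a : Fin (k * b) → Bool) (i j : Fin k) (u v : Fin (2 ^ b)),
      (∃ p x s, cls i j u v p = some (x, s) ∧ a x = s) ↔
        ¬ ((wd b).symm (fun t => a (finProdFinEquiv (i, t))) = u ∧
          (wd b).symm (fun t => a (finProdFinEquiv (j, t))) = v) := by
    intro a i j u v
    rw [Equiv.symm_apply_eq, Equiv.symm_apply_eq]
    constructor
    · rintro ⟨p, x, s, hp, hx⟩ ⟨h1, h2⟩
      simp only [cls, Option.some.injEq, Prod.mk.injEq] at hp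
      obtain ⟨rfl, rfl⟩ := hp
      by_cases h0 : (finProdFinEquiv.symm p).1 = 0
      · simp only [h0, if_true] at hx
        have h3 := congrFun h1 (finProdFinEquiv.symm p).2
        rw [h3] at hx
        cases hw : wd b u (finProdFinEquiv.symm p).2 <;> simp at hx
      · simp only [h0, if_false] at hx
        have h3 := congrFun h2 (finProdFinEquiv.symm p).2
        rw [h3] at hx
        cases hw : wd b v (finProdFinEquiv.symm p).2 <;> simp at hx
    · intro h
      rw [not_and_or] at h
      rcases h with h | h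
      · obtain ⟨t, ht⟩ := Function.ne_iff.1 h
        refine ⟨finProdFinEquiv (0, t), _, _, rfl, ?_⟩
        simp only [Equiv.symm_apply_apply, if_true]
        cases h1 : a (finProdFinEquiv (i, t)) <;> cases h2 : wd b u t <;> simp_all
      · obtain ⟨t, ht⟩ := Function.ne_iff.1 h
        refine ⟨finProdFinEquiv (1, t), _, _, rfl, ?_⟩
        simp only [Equiv.symm_apply_apply, one_ne_zero, if_false]
        cases h1 : a (finProdFinEquiv (j, t)) <;> cases h2 : wd b v t <;> simp_all
  rw [hasClique_iff]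
  constructor
  · rintro ⟨a, ha⟩
    refine ⟨fun i => (wd b).symm (fun t => a (finProdFinEquiv (i, t))), ?_⟩
    intro i j hij
    by_contra hn
    have h1 := ha (cls i j _ _) ⟨i, j, _, _, hij, rfl, hn⟩
    rw [hcl] at h1
    exact h1 ⟨rfl, rfl⟩
  · rintro ⟨w, hw⟩
    refine ⟨fun x => wd b (w (finProdFinEquiv.symm x).1) (finProdFinEquiv.symm x).2, ?_⟩
    rintro cl ⟨i, j, u, v, hij, rfl, hadj⟩
    rw [hcl]
    rintro ⟨h1, h2⟩
    simp only [Equiv.symm_apply_apply] at h1 h2
    apply hadj
    rw [← h1, ← h2]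
    exact hw i j hij

/-- **A reduction to clauses of logarithmic width, computed without memory.** -/
theorem upper_wide (k b : ℕ) (l : List (Sym2 (Fin (2 ^ b))))
    (hl : ∀ u v : Fin (2 ^ b), u ≠ v → s(u, v) ∈ l) :
    ∃ F : Clause (k * b) (2 * b) → SimpleGraph (Fin (2 ^ b)) → Prop,
      (∀ G, (Sat fun cl => F cl G) ↔ HasClique k G) ∧
        ∀ cl, Recognised l 1 (F cl) ∧ Recognised l 1 fun G => ¬ F cl G :=
  ⟨fml k b, fml_sat k b, fml_rec k b l hl⟩

end Pool.Agent.KS6_49.SR
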